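import Pool.Agent.Lib.H31W.Defs

/-!
# Chunk P3 (M): elementary facts on `mm`, `DD`, `av`
-/

open Finset MeasureTheory

namespace Pool.Agent.Lib.H31W

theorem mm_le_one (η t : ℝ) : ‖mm η t‖ ≤ 1 := by
  unfold mm
  have h := intervalIntegral.norm_integral_le_of_norm_le_const (a := (0 : ℝ)) (b := 1) (C := 1)
    (f := fun x : ℝ => Complex.exp ((η * t * x : ℝ) * Complex.I)) (by
      intro x _
      rw [Complex.norm_exp_ofReal_mul_I])
  simpa using h

/-- `|e^(iy) - 1| ≤ |y|`. -/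
theorem mm_sub_one (η t : ℝ) (hη : 0 ≤ η) : ‖mm η t - 1‖ ≤ η * |t| := by
  have hc : Continuous (fun x : ℝ => Complex.exp ((η * t * x : ℝ) * Complex.I)) := by fun_prop
  have h1 : mm η t - 1 = ∫ x in (0 : ℝ)..1, (Complex.exp ((η * t * x : ℝ) * Complex.I) - 1) := by
    rw [intervalIntegral.integral_sub (hc.intervalIntegrable _ _) (by simp)]
    simp [mm]
  rw [h1]
  have h := intervalIntegral.norm_integral_le_of_norm_le_const (a := (0 : ℝ)) (b := 1)
    (C := η * |t|)
    (f := fun x : ℝ => Complex.exp ((η * t * x : ℝ) * Complex.I) - 1) (by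
      intro x hx
      rw [Set.uIoc_of_le (by norm_num)] at hx
      have h2 := Real.norm_exp_I_mul_ofReal_sub_one_le (x := η * t * x)
      rw [mul_comm] at h2
      refine h2.trans ?_
      rw [Real.norm_eq_abs, abs_mul, abs_mul, abs_of_nonneg hη, abs_of_nonneg hx.1.le]
      have h3 : 0 ≤ η * |t| := mul_nonneg hη (abs_nonneg _)
      nlinarith [hx.2])
  simpa using h

/-- `mm η t = (e^(iηt) - 1)/(iηt)` for `η t ≠ 0` (`integral_exp_mul_complex`). -/
theorem mm_decay (η t : ℝ) (hη : 0 < η) (ht : t ≠ 0) : ‖mm η t‖ ≤ 2 / (η * |t|) := by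
  have hc : ((η * t : ℝ) : ℂ) * Complex.I ≠ 0 := by
    refine mul_ne_zero ?_ Complex.I_ne_zero
    exact_mod_cast mul_ne_zero hη.ne' ht
  have h1 : mm η t = (Complex.exp (((η * t : ℝ) : ℂ) * Complex.I * ((1 : ℝ) : ℂ)) -
      Complex.exp (((η * t : ℝ) : ℂ) * Complex.I * ((0 : ℝ) : ℂ))) /
      (((η * t : ℝ) : ℂ) * Complex.I) := by
    rw [← integral_exp_mul_complex hc]
    unfold mm
    refine intervalIntegral.integral_congr (fun x _ => ?_)
    congr 1
    push_cast
    ring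
  rw [h1, norm_div, norm_mul, Complex.norm_I, mul_one, Complex.norm_real, Real.norm_eq_abs,
    abs_mul, abs_of_pos hη]
  refine div_le_div_of_nonneg_right ?_ (mul_nonneg hη.le (abs_nonneg _))
  refine (norm_sub_le _ _).trans ?_
  have h2 : ‖Complex.exp (((η * t : ℝ) : ℂ) * Complex.I * ((1 : ℝ) : ℂ))‖ = 1 := by
    rw [Complex.ofReal_one, mul_one, Complex.norm_exp_ofReal_mul_I]
  have h3 : ‖Complex.exp (((η * t : ℝ) : ℂ) * Complex.I * ((0 : ℝ) : ℂ))‖ = 1 := by
    simp
  rw [h2, h3]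
  norm_num

theorem mm_continuous (η : ℝ) : Continuous (mm η) := by
  unfold mm
  apply intervalIntegral.continuous_parametric_intervalIntegral_of_continuous'
  fun_prop

theorem DD_continuous (f : ℕ → ℝ) (N : ℕ) : Continuous (DD f N) := by
  unfold DD
  refine continuous_finsetSum _ (fun n hn => ?_)
  rw [Finset.mem_Icc] at hn
  refine continuous_const.mul ?_
  refine Continuous.const_cpow (by fun_prop) (Or.inl ?_)
  have : n ≠ 0 := by omega
  exact_mod_cast this

/-- `|n^(-1-it)| = 1/n` for `n ≥ 1`. -/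
theorem DD_le (f : ℕ → ℝ) (N : ℕ) (t : ℝ) : ‖DD f N t‖ ≤ ∑ n ∈ Icc 1 N, |f n| / n := by
  unfold DD
  refine (norm_sum_le _ _).trans (Finset.sum_le_sum (fun n hn => ?_))
  rw [Finset.mem_Icc] at hn
  have h1 : ‖(n : ℂ) ^ (-(1 + (t : ℂ) * Complex.I))‖ = (n : ℝ) ^ (-1 : ℝ) := by
    rw [Complex.norm_natCast_cpow_of_pos (by omega)]
    congr 1
    simp
  rw [norm_mul, h1, Complex.norm_real, Real.norm_eq_abs, Real.rpow_neg_one, div_eq_mul_inv]

/-- `u ↦ av f η u` is measurable: `u ↦ (⌊e^u⌋, ⌊e^(u+η)⌋)` is measurable into the discrete space `ℕ × ℕ`. -/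
theorem av_measurable (f : ℕ → ℝ) (η : ℝ) : Measurable (av f η) := by
  have h1 : Measurable (fun u : ℝ => ((⌊Real.exp u⌋₊, ⌊Real.exp (u + η)⌋₊) : ℕ × ℕ)) := by
    refine Measurable.prodMk ?_ ?_
    · exact Nat.measurable_floor.comp Real.measurable_exp
    · exact Nat.measurable_floor.comp (Real.measurable_exp.comp (measurable_id.add_const η))
  have h2 : Measurable (fun p : ℕ × ℕ => 1 / η * ∑ n ∈ Ioc p.1 p.2, f n / n) :=
    measurable_from_prod_countable_left (fun _ => measurable_from_nat)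
  exact h2.comp h1

/-- `av` is additive. -/
theorem av_sum {ι : Type*} (s : Finset ι) (F : ι → ℕ → ℝ) (η u : ℝ) :
    av (fun n => ∑ i ∈ s, F i n) η u = ∑ i ∈ s, av (F i) η u := by
  unfold av
  rw [← Finset.mul_sum, Finset.sum_comm]
  congr 1
  refine Finset.sum_congr rfl (fun n _ => ?_)
  rw [Finset.sum_div]

/-- `av f η u` depends only on the values of `f` at the `n` with `e^u < n ≤ e^(u+η)`. -/
theorem av_congr (f g : ℕ → ℝ) (η u : ℝ)
    (h : ∀ n : ℕ, Real.exp u < n → (n : ℝ) ≤ Real.exp (u + η) → f n = g n) :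
    av f η u = av g η u := by
  unfold av
  congr 1
  refine Finset.sum_congr rfl (fun n hn => ?_)
  rw [Finset.mem_Ioc] at hn
  rw [h n ((Nat.floor_lt (Real.exp_pos _).le).mp hn.1)
    ((Nat.le_floor_iff (Real.exp_pos _).le).mp hn.2)]

end Pool.Agent.Lib.H31W
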