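import Pool.Agent.Lib.H31W.Defs

/-!
# Chunk R1 (M): upper bound for the long averages
-/

open Finset

namespace Pool.Agent.Lib.H31W

open ArithmeticFunction (vonMangoldt moebius)

/-- `(e^a - 1)/a ≤ 1 + a`, multiplied by `a`. -/
private theorem r1_exp (a : ℝ) (h0 : 0 < a) (h1 : a ≤ 1) : Real.exp a ≤ 1 + a + a ^ 2 := by
  have h := Real.abs_exp_sub_one_sub_id_le (x := a) (by rw [abs_of_pos h0]; exact h1)
  have h2 := (abs_le.1 h).2
  linarith

private theorem r1_psi (a b : ℝ) (h : a ≤ b) :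
    ∑ n ∈ Ioc ⌊a⌋₊ ⌊b⌋₊, vonMangoldt n = Chebyshev.psi b - Chebyshev.psi a := by
  rw [Chebyshev.psi, Chebyshev.psi, eq_sub_iff_add_eq, add_comm]
  exact Finset.sum_Ioc_consecutive _ (Nat.zero_le _) (Nat.floor_le_floor h)

/-- **Long averages.** `η₀ = exp (-7ℓ)`, `ℓ = (log X)^(1/10)`.

Proof. `Λ(n)/n ≤ Λ(n) e^(-u)` for `n > e^u`, so `av Λ η₀ u ≤ (1/η₀) e^(-u) (ψ(e^(u+η₀)) - ψ(e^u))`. By `hP`, with
`E = exp (-(log X)^(1/5)) = exp (-ℓ²)` (`x ≥ X`, the error factor is decreasing):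
`≤ (1/η₀) e^(-u) (e^(u+η₀) - e^u + 2 e^(u+η₀) E) ≤ (e^η₀ - 1)/η₀ + 6 E/η₀ ≤ 1 + η₀ + 6 exp (7ℓ - ℓ²) ≤ 1 + exp (-ℓ)`
for large `X` (`(e^a - 1)/a ≤ 1 + a` for `0 < a ≤ 1`; `ℓ → ∞`). -/
theorem long_avg (hP : PntProp) : ∃ X₀ : ℝ, 1 ≤ X₀ ∧ ∀ X : ℝ, X₀ ≤ X → ∀ u : ℝ, Real.log X ≤ u →
    u ≤ Real.log X + 1 → av (fun n => vonMangoldt n) (eta0 X) u ≤ 1 + Real.exp (-ell X) := by
  obtain ⟨K, hK, hpsi⟩ := hP
  refine ⟨max K (Real.exp (10 ^ 10)), le_trans hK (le_max_left _ _), ?_⟩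
  intro X hX u hu _
  have hXK : K ≤ X := le_trans (le_max_left _ _) hX
  have hXe : Real.exp (10 ^ 10) ≤ X := le_trans (le_max_right _ _) hX
  have hX0 : 0 < X := lt_of_lt_of_le (Real.exp_pos _) hXe
  have hlogX : (10 : ℝ) ^ 10 ≤ Real.log X := (Real.le_log_iff_exp_le hX0).2 hXe
  have hlog0 : 0 ≤ Real.log X := by linarith [pow_nonneg (by norm_num : (0 : ℝ) ≤ 10) 10]
  have hell : 10 ≤ ell X := by
    have h1 : ((10 : ℝ) ^ 10) ^ (1 / 10 : ℝ) ≤ (Real.log X) ^ (1 / 10 : ℝ) :=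
      Real.rpow_le_rpow (by positivity) hlogX (by norm_num)
    have h2 : ((10 : ℝ) ^ 10) ^ (1 / 10 : ℝ) = 10 := by
      rw [← Real.rpow_natCast, ← Real.rpow_mul (by norm_num)]
      norm_num
    rw [h2] at h1
    exact h1
  have hell2 : (Real.log X) ^ (1 / 5 : ℝ) = ell X ^ 2 := by
    unfold ell
    rw [← Real.rpow_natCast, ← Real.rpow_mul hlog0]
    norm_num
  -- the parameter
  set η := eta0 X with hη
  have hη0 : 0 < η := Real.exp_pos _
  have hη1 : η ≤ 1 := by
    rw [hη, eta0, Real.exp_le_one_iff]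
    linarith
  set E := Real.exp (-(ell X) ^ 2) with hE
  have hE0 : 0 < E := Real.exp_pos _
  -- the prime number theorem at `e^w`, `w ≥ log X`
  have hpw : ∀ w : ℝ, Real.log X ≤ w → |Chebyshev.psi (Real.exp w) - Real.exp w| ≤ Real.exp w * E := by
    intro w hw
    have h1 : K ≤ Real.exp w := by
      refine hXK.trans ?_
      rw [← Real.exp_log hX0]
      exact Real.exp_le_exp.2 hw
    refine (hpsi _ h1).trans (mul_le_mul_of_nonneg_left ?_ (Real.exp_pos _).le)
    rw [Real.log_exp]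
    apply Real.exp_le_exp.2
    have h2 : (Real.log X) ^ (1 / 5 : ℝ) ≤ w ^ (1 / 5 : ℝ) := Real.rpow_le_rpow hlog0 hw (by norm_num)
    rw [hell2] at h2
    linarith
  have p1 := (abs_le.1 (hpw u hu)).1
  have p2 := (abs_le.1 (hpw (u + η) (by linarith))).2
  -- the sum
  have hsum : ∑ n ∈ Ioc ⌊Real.exp u⌋₊ ⌊Real.exp (u + η)⌋₊, vonMangoldt n / n ≤
      Real.exp (-u) * (Chebyshev.psi (Real.exp (u + η)) - Chebyshev.psi (Real.exp u)) := by
    rw [← r1_psi _ _ (Real.exp_le_exp.2 (by linarith)), Finset.mul_sum]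
    refine Finset.sum_le_sum fun n hn => ?_
    have hn1 : Real.exp u < n := (Nat.floor_lt (Real.exp_pos u).le).1 (Finset.mem_Ioc.1 hn).1
    have hΛ : 0 ≤ vonMangoldt n := ArithmeticFunction.vonMangoldt_nonneg
    rw [div_eq_mul_inv, mul_comm]
    refine mul_le_mul_of_nonneg_right ?_ hΛ
    rw [Real.exp_neg]
    exact inv_anti₀ (Real.exp_pos u) hn1.le
  have hee : Real.exp (-u) * Real.exp u = 1 := by
    rw [← Real.exp_add, neg_add_cancel, Real.exp_zero]
  have hee2 : Real.exp (-u) * Real.exp (u + η) = Real.exp η := by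
    rw [← Real.exp_add]
    congr 1
    ring
  have hexpη := r1_exp η hη0 hη1
  have hbound : Real.exp (-u) * (Chebyshev.psi (Real.exp (u + η)) - Chebyshev.psi (Real.exp u)) ≤
      η + η ^ 2 + 4 * E := by
    have h1 : Chebyshev.psi (Real.exp (u + η)) - Chebyshev.psi (Real.exp u) ≤
        Real.exp (u + η) - Real.exp u + (Real.exp (u + η) + Real.exp u) * E := by linarith
    have h2 := mul_le_mul_of_nonneg_left h1 (Real.exp_pos (-u)).le
    have h3 : Real.exp (-u) * (Real.exp (u + η) - Real.exp u + (Real.exp (u + η) + Real.exp u) * E) =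
        Real.exp η - 1 + (Real.exp η + 1) * E := by
      have : Real.exp (-u) * (Real.exp (u + η) - Real.exp u + (Real.exp (u + η) + Real.exp u) * E) =
          Real.exp (-u) * Real.exp (u + η) - Real.exp (-u) * Real.exp u +
            (Real.exp (-u) * Real.exp (u + η) + Real.exp (-u) * Real.exp u) * E := by ring
      rw [this, hee, hee2]
    rw [h3] at h2
    have h4 : Real.exp η ≤ 3 := by nlinarith
    nlinarith
  have hfin : η + 4 * E / η ≤ Real.exp (-ell X) := by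
    have h1 : E / η = Real.exp (-ell X) * Real.exp (8 * ell X - ell X ^ 2) := by
      rw [hE, hη, eta0, ← Real.exp_sub, ← Real.exp_add]
      congr 1
      ring
    have h2 : η = Real.exp (-ell X) * Real.exp (-(6 * ell X)) := by
      rw [hη, eta0, ← Real.exp_add]
      congr 1
      ring
    have h3 : Real.exp (8 * ell X - ell X ^ 2) ≤ 1 / 8 := by
      have h5 : Real.exp (8 * ell X - ell X ^ 2) ≤ Real.exp (-20) := by
        apply Real.exp_le_exp.2
        nlinarith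
      have h6 : Real.exp (-20) ≤ 1 / 8 := by
        have h7 : (20 : ℝ) + 1 ≤ Real.exp 20 := Real.add_one_le_exp 20
        rw [Real.exp_neg, ← one_div]
        exact one_div_le_one_div_of_le (by norm_num) (by linarith)
      linarith
    have h4 : Real.exp (-(6 * ell X)) ≤ 1 / 2 := by
      have h5 : Real.exp (-(6 * ell X)) ≤ Real.exp (-60) := by
        apply Real.exp_le_exp.2
        linarith
      have h6 : Real.exp (-60) ≤ 1 / 2 := by
        have h7 : (60 : ℝ) + 1 ≤ Real.exp 60 := Real.add_one_le_exp 60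
        rw [Real.exp_neg, ← one_div]
        exact one_div_le_one_div_of_le (by norm_num) (by linarith)
      linarith
    have h5 : 4 * E / η = 4 * (Real.exp (-ell X) * Real.exp (8 * ell X - ell X ^ 2)) := by
      rw [← h1]
      ring
    rw [h5]
    nth_rewrite 1 [h2]
    have h6 := Real.exp_pos (-ell X)
    nlinarith
  unfold av
  have hS := hsum.trans hbound
  calc 1 / η * ∑ n ∈ Ioc ⌊Real.exp u⌋₊ ⌊Real.exp (u + η)⌋₊, vonMangoldt n / n
      ≤ 1 / η * (η + η ^ 2 + 4 * E) := mul_le_mul_of_nonneg_left hS (by positivity)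
    _ = 1 + (η + 4 * E / η) := by
        field_simp
        ring
    _ ≤ 1 + Real.exp (-ell X) := by linarith

end Pool.Agent.Lib.H31W
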