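import Pool.Agent.Lib.H31W.MS
import Pool.Agent.Lib.H31W.R1

/-!
# Chunk S2 (M): the measure of the set where an average is too large
-/

open Finset MeasureTheory

namespace Pool.Agent.Lib.H31W

open ArithmeticFunction (vonMangoldt moebius)

private theorem s2_av_measurable (f : ℕ → ℝ) (η : ℝ) : Measurable fun u : ℝ => av f η u := by
  have h1 : Measurable fun u : ℝ => (⌊Real.exp u⌋₊, ⌊Real.exp (u + η)⌋₊) :=
    (Nat.measurable_floor.comp Real.measurable_exp).prodMk
      (Nat.measurable_floor.comp (Real.measurable_exp.comp (measurable_id.add_const η)))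
  have h2 : Measurable fun p : ℕ × ℕ => 1 / η * ∑ n ∈ Ioc p.1 p.2, f n / n := Measurable.of_discrete
  exact h2.comp h1

private theorem s2_large : ∃ N₀ : ℕ, ∀ N : ℕ, N₀ ≤ N →
    32000 * ((Real.log N) ^ (1 / 10 : ℝ)) ^ 20 * Real.exp (-(1 / 2 * (Real.log N) ^ (1 / 10 : ℝ))) ≤ 1 := by
  have h1 : Filter.Tendsto (fun N : ℕ => (Real.log N) ^ (1 / 10 : ℝ)) Filter.atTop Filter.atTop :=
    (tendsto_rpow_atTop (by norm_num)).comp (Real.tendsto_log_atTop.comp tendsto_natCast_atTop_atTop)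
  have h2 : Filter.Tendsto (fun N : ℕ => (Real.log N) ^ (1 / 10 : ℝ) / 2) Filter.atTop Filter.atTop :=
    h1.atTop_div_const (by norm_num)
  have h3 := ((Real.tendsto_pow_mul_exp_neg_atTop_nhds_zero 20).const_mul (32000 * 2 ^ 20)).comp h2
  rw [mul_zero] at h3
  have h4 := h3.eventually (gt_mem_nhds (show (0 : ℝ) < 1 by norm_num))
  obtain ⟨N₀, hN₀⟩ := Filter.eventually_atTop.mp h4
  refine ⟨N₀, fun N hN => ?_⟩
  have h5 := hN₀ N hN
  simp only [Function.comp] at h5
  refine le_trans (le_of_eq ?_) h5.le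
  rw [div_pow, show -((Real.log N) ^ (1 / 10 : ℝ) / 2) = -(1 / 2 * (Real.log N) ^ (1 / 10 : ℝ)) by ring]
  ring

theorem MB_measurable (N : ℕ) (η : ℝ) : MeasurableSet (MB N η) := by
  have h : MB N η = Set.Icc (Real.log ((N : ℝ) ^ 2 / 8)) (Real.log (16 * (N : ℝ) ^ 2)) ∩
      {u | 1 + eps N / 3 ≤ av (fun n => vonMangoldt n) η u} := by
    ext u
    simp only [MB, Set.mem_ofPred_eq, Set.mem_inter_iff, Set.mem_Icc, and_assoc]
  rw [h]
  exact measurableSet_Icc.inter (measurableSet_le measurable_const (s2_av_measurable _ η))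

/-- **Measure of `MB`.**

Proof. `X_j = e^j N²/8`, `j = 0, ..., 4`: `[log (N²/8), log (16 N²)]` is covered by the five intervals
`[log X_j, log X_j + 1]` (`log 128 ≤ 5`). `η ≥ 1/(2N) ≥ 1/(10 √X_j)` (`√X_j ≥ N/√8`) and
`η ≤ exp (-8 (log N)^(1/10)) ≤ eta0 X_j` (`7 (2 log N + 4)^(1/10) ≤ 8 (log N)^(1/10)` for large `N`, `2^(1/10) < 8/7`).
On `MB N η ∩ [log X_j, log X_j + 1]` one has `av Λ η u - av Λ η₀ u ≥ 1 + ε/3 - 1 - exp (-ℓ(X_j)) ≥ ε/4` (`long_avg`), so
Chebyshev's inequality (`mul_meas_ge_le_lintegral`) and `mean_square` bound its measure by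
`(16/ε²) exp (-ℓ(X_j))`, `ℓ(X_j) ≥ (log (N²/8))^(1/10) ≥ (log N)^(1/10)`. Total
`≤ 5 · 16 · 400 (log N)² exp (-(log N)^(1/10)) ≤ exp (-(1/2) (log N)^(1/10))`. -/
theorem MB_measure (hS : SupProp) (hP : PntProp) : ∃ N₀ : ℕ, ∀ N : ℕ, N₀ ≤ N → ∀ η : ℝ,
    1 / (2 * (N : ℝ)) ≤ η → η ≤ Real.exp (-(8 * (Real.log N) ^ (1 / 10 : ℝ))) →
    volume (MB N η) ≤ ENNReal.ofReal (Real.exp (-(1 / 2 * (Real.log N) ^ (1 / 10 : ℝ)))) := by
  obtain ⟨X₀, hX₀1, hX₀⟩ := mean_square hS
  obtain ⟨X₁, hX₁1, hX₁⟩ := long_avg hP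
  obtain ⟨N₁, hN₁⟩ := s2_large
  obtain ⟨N₂, hN₂⟩ := exists_nat_ge (8 * (X₀ + X₁))
  refine ⟨max (max N₁ N₂) 100, fun N hN η hη1 hη2 => ?_⟩
  have hNN1 : N₁ ≤ N := le_trans (le_trans (le_max_left _ _) (le_max_left _ _)) hN
  have hNN2 : (N₂ : ℝ) ≤ N := by
    exact_mod_cast le_trans (le_trans (le_max_right _ _) (le_max_left _ _)) hN
  have hN100 : (100 : ℝ) ≤ N := by exact_mod_cast le_trans (le_max_right _ _) hN
  have hN0 : (0 : ℝ) < N := by linarith
  have hlogN : 4 ≤ Real.log N := by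
    rw [Real.le_log_iff_exp_le hN0]
    have h1 := Real.exp_one_lt_d9
    have h2 : Real.exp 4 = Real.exp 1 ^ 4 := by rw [← Real.exp_nat_mul]; norm_num
    rw [h2]
    have h3 : Real.exp 1 ^ 4 ≤ 2.7182818286 ^ 4 := pow_le_pow_left₀ (Real.exp_pos 1).le h1.le 4
    refine le_trans h3 (le_trans (by norm_num) hN100)
  set t : ℝ := (Real.log N) ^ (1 / 10 : ℝ) with ht
  have ht1 : 1 ≤ t := Real.one_le_rpow (by linarith) (by norm_num)
  have ht10 : t ^ 10 = Real.log N := by
    rw [ht, ← Real.rpow_natCast, ← Real.rpow_mul (by linarith)]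
    norm_num
  have hlarge : 32000 * t ^ 20 * Real.exp (-(1 / 2 * t)) ≤ 1 := hN₁ N hNN1
  set a : ℝ := Real.log ((N : ℝ) ^ 2 / 8) with ha
  have hexpa : Real.exp a = (N : ℝ) ^ 2 / 8 := Real.exp_log (by positivity)
  have ha1 : Real.log N ≤ a := by
    refine Real.log_le_log hN0 ?_
    nlinarith
  have ha2 : a ≤ 2 * Real.log N := by
    have h1 : a ≤ Real.log ((N : ℝ) ^ 2) := Real.log_le_log (by positivity) (by nlinarith)
    rw [Real.log_pow] at h1
    push_cast at h1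
    exact h1
  have heps : eps N = 1 / (20 * Real.log N) := rfl
  have heps0 : 0 < eps N := by rw [heps]; positivity
  set F : ℕ → ℝ → ENNReal := fun j u => ENNReal.ofReal ((av (fun n => vonMangoldt n) η u -
    av (fun n => vonMangoldt n) (eta0 (Real.exp (a + j))) u) ^ 2) with hF
  have hFm : ∀ j, Measurable (F j) := fun j =>
    ENNReal.measurable_ofReal.comp
      (((s2_av_measurable _ η).sub (s2_av_measurable _ _)).pow_const 2)
  set A : ℕ → Set ℝ := fun j => {u | ENNReal.ofReal ((eps N / 4) ^ 2) ≤ F j u} with hA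
  have hAm : ∀ j, MeasurableSet (A j) := fun j => measurableSet_le measurable_const (hFm j)
  have hell : ∀ j : ℕ, t ≤ ell (Real.exp (a + j)) := by
    intro j
    unfold ell
    rw [Real.log_exp, ht]
    exact Real.rpow_le_rpow (by linarith) (by
      have : (0 : ℝ) ≤ j := Nat.cast_nonneg j
      linarith) (by norm_num)
  have hX : ∀ j : ℕ, X₀ ≤ Real.exp (a + j) ∧ X₁ ≤ Real.exp (a + j) ∧ (N : ℝ) ^ 2 / 8 ≤ Real.exp (a + j) := by
    intro j
    have h1 : Real.exp a ≤ Real.exp (a + j) := Real.exp_le_exp.mpr (by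
      have : (0 : ℝ) ≤ j := Nat.cast_nonneg j
      linarith)
    rw [hexpa] at h1
    have h2 : X₀ + X₁ ≤ (N : ℝ) ^ 2 / 8 := by nlinarith
    exact ⟨by linarith, by linarith, h1⟩
  have hexpt : 240 * Real.log N * Real.exp (-t) ≤ 1 := by
    have h1 : Real.exp (-t) ≤ Real.exp (-(1 / 2 * t)) := Real.exp_le_exp.mpr (by linarith)
    have h2 : t ^ 10 ≤ t ^ 20 := pow_le_pow_right₀ ht1 (by norm_num)
    rw [← ht10]
    have h3 : (0 : ℝ) ≤ t ^ 20 := by positivity
    calc 240 * t ^ 10 * Real.exp (-t) ≤ 32000 * t ^ 20 * Real.exp (-(1 / 2 * t)) :=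
          mul_le_mul (by linarith) h1 (Real.exp_pos _).le (by positivity)
      _ ≤ 1 := hlarge
  have hmeas : ∀ j ∈ Finset.range 5, volume (Set.Icc (a + j) (a + j + 1) ∩ A j) ≤
      ENNReal.ofReal (6400 * (Real.log N) ^ 2 * Real.exp (-t)) := by
    intro j hj
    have hj5 : (j : ℝ) ≤ 4 := by
      have : j ≤ 4 := by have := Finset.mem_range.mp hj; omega
      exact_mod_cast this
    have hj0 : (0 : ℝ) ≤ j := Nat.cast_nonneg j
    obtain ⟨hXa, hXb, hXc⟩ := hX j
    have hη1' : 1 / (10 * Real.sqrt (Real.exp (a + j))) ≤ η := by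
      refine le_trans ?_ hη1
      refine one_div_le_one_div_of_le (by positivity) ?_
      have h1 : (N : ℝ) / 5 ≤ Real.sqrt (Real.exp (a + j)) := by
        refine Real.le_sqrt_of_sq_le ?_
        refine le_trans ?_ hXc
        nlinarith
      linarith
    have hη2' : η ≤ eta0 (Real.exp (a + j)) := by
      refine le_trans hη2 ?_
      unfold eta0 ell
      rw [Real.log_exp]
      refine Real.exp_le_exp.mpr (neg_le_neg ?_)
      have h1 : a + j ≤ (8 / 7 : ℝ) ^ 10 * Real.log N := by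
        have h2 : (3.5 : ℝ) ≤ (8 / 7 : ℝ) ^ 10 := by norm_num
        nlinarith
      have h2 : (a + j) ^ (1 / 10 : ℝ) ≤ ((8 / 7 : ℝ) ^ 10 * Real.log N) ^ (1 / 10 : ℝ) :=
        Real.rpow_le_rpow (by linarith) h1 (by norm_num)
      rw [Real.mul_rpow (by positivity) (by linarith)] at h2
      have h3 : ((8 / 7 : ℝ) ^ 10) ^ (1 / 10 : ℝ) = 8 / 7 := by
        rw [← Real.rpow_natCast, ← Real.rpow_mul (by norm_num)]
        norm_num
      rw [h3] at h2
      linarith
    have hms := hX₀ _ hXa η hη1' hη2'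
    rw [Real.log_exp] at hms
    have hch := meas_ge_le_lintegral_div (μ := volume.restrict (Set.Icc (a + j) (a + j + 1)))
      (hFm j).aemeasurable (ε := ENNReal.ofReal ((eps N / 4) ^ 2))
      (by
        rw [Ne, ENNReal.ofReal_eq_zero, not_le]
        positivity) ENNReal.ofReal_ne_top
    rw [Measure.restrict_apply (hAm j), Set.inter_comm] at hch
    refine le_trans hch ?_
    refine le_trans (ENNReal.div_le_div_right hms _) ?_
    rw [← ENNReal.ofReal_div_of_pos (by positivity)]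
    refine ENNReal.ofReal_le_ofReal ?_
    have h1 : Real.exp (-ell (Real.exp (a + j))) ≤ Real.exp (-t) :=
      Real.exp_le_exp.mpr (neg_le_neg (hell j))
    rw [div_le_iff₀ (by positivity)]
    refine le_trans h1 (le_of_eq ?_)
    rw [heps]
    field_simp
    norm_num
  have hsub : MB N η ⊆ ⋃ j ∈ Finset.range 5, Set.Icc (a + j) (a + j + 1) ∩ A j := by
    intro u hu
    obtain ⟨hu1, hu2, hu3⟩ := hu
    have h128 : Real.log (16 * (N : ℝ) ^ 2) < a + 5 := by
      have h1 : (16 : ℝ) * (N : ℝ) ^ 2 = 2 ^ 7 * ((N : ℝ) ^ 2 / 8) := by ring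
      rw [h1, Real.log_mul (by norm_num) (by positivity), Real.log_pow]
      have h2 := Real.log_two_lt_d9
      push_cast
      linarith
    have hu0 : 0 ≤ u - a := by linarith
    set j : ℕ := ⌊u - a⌋₊ with hj
    have hj1 : (j : ℝ) ≤ u - a := Nat.floor_le hu0
    have hj2 : u - a < j + 1 := Nat.lt_floor_add_one _
    have hj5 : j < 5 := by
      rw [hj, Nat.floor_lt hu0]
      push_cast
      linarith
    rw [Set.mem_iUnion₂]
    refine ⟨j, Finset.mem_range.mpr hj5, ⟨by linarith, by linarith⟩, ?_⟩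
    show ENNReal.ofReal ((eps N / 4) ^ 2) ≤ F j u
    rw [hF]
    refine ENNReal.ofReal_le_ofReal ?_
    have hlong := hX₁ _ (hX j).2.1 u (by rw [Real.log_exp]; linarith) (by rw [Real.log_exp]; linarith)
    have h1 : Real.exp (-ell (Real.exp (a + j))) ≤ Real.exp (-t) :=
      Real.exp_le_exp.mpr (neg_le_neg (hell j))
    have h2 : Real.exp (-t) ≤ eps N / 12 := by
      rw [heps, le_div_iff₀ (by norm_num), le_div_iff₀ (by positivity)]
      linarith
    refine pow_le_pow_left₀ (by positivity) ?_ 2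
    linarith
  refine le_trans (measure_mono hsub) ?_
  refine le_trans (measure_biUnion_finset_le _ _) ?_
  refine le_trans (Finset.sum_le_sum hmeas) ?_
  rw [Finset.sum_const, Finset.card_range, nsmul_eq_mul]
  have h5 : ((5 : ℕ) : ENNReal) = ENNReal.ofReal 5 := by simp
  rw [h5, ← ENNReal.ofReal_mul (by norm_num)]
  refine ENNReal.ofReal_le_ofReal ?_
  have h6 : Real.exp (-t) = Real.exp (-(1 / 2 * t)) * Real.exp (-(1 / 2 * t)) := by
    rw [← Real.exp_add]; ring_nf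
  rw [h6, ← ht10]
  have h7 : 5 * (6400 * (t ^ 10) ^ 2 * (Real.exp (-(1 / 2 * t)) * Real.exp (-(1 / 2 * t)))) =
      (32000 * t ^ 20 * Real.exp (-(1 / 2 * t))) * Real.exp (-(1 / 2 * t)) := by ring
  rw [h7]
  calc (32000 * t ^ 20 * Real.exp (-(1 / 2 * t))) * Real.exp (-(1 / 2 * t)) ≤
        1 * Real.exp (-(1 / 2 * t)) := mul_le_mul_of_nonneg_right hlarge (Real.exp_pos _).le
    _ = Real.exp (-(1 / 2 * t)) := one_mul _

end Pool.Agent.Lib.H31W
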