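import Pool.Agent.Lib.H31W.Defs

/-!
# Chunk S3 (M): counting the integers near a set
-/

open Finset MeasureTheory

namespace Pool.Agent.Lib.H31W

theorem s3_exp (η : ℝ) (h0 : 0 ≤ η) (h2 : η ≤ 1 / 4) : Real.exp (2 * η) - 1 ≤ 4 * η := by
  have h3 : 1 - 2 * η ≤ Real.exp (-(2 * η)) := Real.one_sub_le_exp_neg _
  have h4 : Real.exp (2 * η) * Real.exp (-(2 * η)) = 1 := by
    rw [← Real.exp_add, add_neg_cancel, Real.exp_zero]
  have h5 : Real.exp (2 * η) * (1 - 2 * η) ≤ 1 := by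
    have h6 := mul_le_mul_of_nonneg_left h3 (Real.exp_pos (2 * η)).le
    linarith
  nlinarith [Real.exp_pos (2 * η)]

open Classical in
theorem s3_card (N : ℕ) (hN : 1 ≤ N) (η : ℝ) (h1 : 1 / (2 * (N : ℝ)) ≤ η) (h2 : η ≤ 1 / 4) (u : ℝ) :
    (((Ioc N (2 * N)).filter (fun n : ℕ =>
      u ∈ Set.Icc (2 * Real.log n - 2 * η) (2 * Real.log n + 2 * η))).card : ℝ) ≤ 20 * N * η := by
  have hN1 : (1 : ℝ) ≤ N := by exact_mod_cast hN
  have hη : 0 < η := lt_of_lt_of_le (by positivity) h1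
  have hNη : 1 ≤ 2 * N * η := by
    rw [div_le_iff₀ (by positivity)] at h1
    linarith
  set A : ℝ := Real.exp (u / 2 - η) with hA
  set B : ℝ := Real.exp (u / 2 + η) with hB
  have hA0 : 0 < A := Real.exp_pos _
  have hBA : B = A * Real.exp (2 * η) := by
    rw [hA, hB, ← Real.exp_add]
    congr 1
    ring
  set S := (Ioc N (2 * N)).filter (fun n : ℕ =>
      u ∈ Set.Icc (2 * Real.log n - 2 * η) (2 * Real.log n + 2 * η)) with hS
  have hmem : ∀ n ∈ S, A ≤ n ∧ (n : ℝ) ≤ B ∧ (n : ℝ) ≤ 2 * N := by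
    intro n hn
    rw [hS, Finset.mem_filter, Finset.mem_Ioc, Set.mem_Icc] at hn
    obtain ⟨⟨hn1, hn2⟩, hn3, hn4⟩ := hn
    have hn0 : (0 : ℝ) < n := by
      have : 0 < n := by omega
      exact_mod_cast this
    refine ⟨?_, ?_, by exact_mod_cast hn2⟩
    · rw [hA, ← Real.le_log_iff_exp_le hn0]
      linarith
    · rw [hB, ← Real.log_le_iff_le_exp hn0]
      linarith
  rcases S.eq_empty_or_nonempty with h3 | ⟨n0, hn0⟩
  · rw [h3, Finset.card_empty, Nat.cast_zero]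
    positivity
  · have hA2 : A ≤ 2 * N := (hmem n0 hn0).1.trans (hmem n0 hn0).2.2
    have hsub : S ⊆ Finset.Icc ⌈A⌉₊ ⌊B⌋₊ := by
      intro n hn
      rw [Finset.mem_Icc]
      exact ⟨Nat.ceil_le.2 (hmem n hn).1, Nat.le_floor (hmem n hn).2.1⟩
    have hle : ⌈A⌉₊ ≤ ⌊B⌋₊ := by
      have := Finset.mem_Icc.1 (hsub hn0)
      exact this.1.trans this.2
    have hc : S.card ≤ ⌊B⌋₊ + 1 - ⌈A⌉₊ := by
      have := Finset.card_le_card hsub
      rwa [Nat.card_Icc] at this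
    have hc2 : (S.card : ℝ) ≤ (⌊B⌋₊ : ℝ) + 1 - (⌈A⌉₊ : ℝ) := by
      have h4 : S.card + ⌈A⌉₊ ≤ ⌊B⌋₊ + 1 := by omega
      have h5 : (S.card : ℝ) + (⌈A⌉₊ : ℝ) ≤ (⌊B⌋₊ : ℝ) + 1 := by exact_mod_cast h4
      linarith
    have hB0 : 0 ≤ B := (Real.exp_pos _).le
    have h6 : (⌊B⌋₊ : ℝ) ≤ B := Nat.floor_le hB0
    have h7 : A ≤ (⌈A⌉₊ : ℝ) := Nat.le_ceil A
    have h8 := s3_exp η hη.le h2
    have h9 : B - A ≤ 2 * N * (4 * η) := by
      have e : B - A = A * (Real.exp (2 * η) - 1) := by rw [hBA]; ring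
      rw [e]
      have h10 : 0 ≤ Real.exp (2 * η) - 1 := by
        have := Real.add_one_le_exp (2 * η)
        linarith
      exact mul_le_mul hA2 h8 h10 (by positivity)
    nlinarith

open Classical in
/-- **Counting.** `∑_{N < n ≤ 2N} vol(M ∩ [2 log n - 2η, 2 log n + 2η]) = ∫_M #{N < n ≤ 2N : |2 log n - u| ≤ 2η} du`
(`lintegral` of a finite sum of indicators), and for each `u` the number of `n ∈ (N, 2N]` in
`[e^(u/2-η), e^(u/2+η)]` is at most `e^(u/2-η)(e^(2η) - 1) + 1 ≤ 2N · 4η + 1 ≤ 10 N η` if there is one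
(then `e^(u/2-η) ≤ 2N`; `e^(2η) - 1 ≤ 4η` for `2η ≤ 1/2`, `1 ≤ 2Nη`). -/
theorem count_killed (N : ℕ) (hN : 1 ≤ N) (M : Set ℝ) (hM : MeasurableSet M) (η κ : ℝ)
    (h1 : 1 / (2 * (N : ℝ)) ≤ η) (h2 : η ≤ 1 / 4) (hκ : 0 < κ) :
    (((Ioc N (2 * N)).filter (fun n : ℕ => ENNReal.ofReal κ ≤
      volume (M ∩ Set.Icc (2 * Real.log n - 2 * η) (2 * Real.log n + 2 * η)))).card : ENNReal) *
      ENNReal.ofReal κ ≤ ENNReal.ofReal (20 * N * η) * volume M := by
  set I : ℕ → Set ℝ := fun n => Set.Icc (2 * Real.log n - 2 * η) (2 * Real.log n + 2 * η) with hI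
  have hpt : ∀ u : ℝ, ∑ n ∈ Ioc N (2 * N), (I n).indicator (fun _ => (1 : ENNReal)) u ≤
      ENNReal.ofReal (20 * N * η) := by
    intro u
    have e : ∑ n ∈ Ioc N (2 * N), (I n).indicator (fun _ => (1 : ENNReal)) u =
        (((Ioc N (2 * N)).filter (fun n : ℕ => u ∈ I n)).card : ENNReal) := by
      simp only [Set.indicator_apply]
      rw [Finset.sum_boole]
    rw [e, ← ENNReal.ofReal_natCast]
    exact ENNReal.ofReal_le_ofReal (s3_card N hN η h1 h2 u)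
  have hsum : ∑ n ∈ Ioc N (2 * N), volume (M ∩ I n) ≤ ENNReal.ofReal (20 * N * η) * volume M := by
    have e : ∀ n ∈ Ioc N (2 * N), volume (M ∩ I n) =
        ∫⁻ u in M, (I n).indicator (fun _ => (1 : ENNReal)) u := by
      intro n _
      rw [lintegral_indicator_const measurableSet_Icc, one_mul, Measure.restrict_apply measurableSet_Icc,
        Set.inter_comm]
    rw [Finset.sum_congr rfl e, ← lintegral_finsetSum]
    · calc ∫⁻ u in M, ∑ n ∈ Ioc N (2 * N), (I n).indicator (fun _ => (1 : ENNReal)) u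
          ≤ ∫⁻ _ in M, ENNReal.ofReal (20 * N * η) := lintegral_mono hpt
        _ = _ := by rw [lintegral_const, Measure.restrict_apply MeasurableSet.univ, Set.univ_inter]
    · intro n _
      exact measurable_const.indicator measurableSet_Icc
  refine le_trans ?_ hsum
  calc (((Ioc N (2 * N)).filter (fun n : ℕ => ENNReal.ofReal κ ≤ volume (M ∩ I n))).card : ENNReal) *
        ENNReal.ofReal κ
      = ((Ioc N (2 * N)).filter (fun n : ℕ => ENNReal.ofReal κ ≤ volume (M ∩ I n))).card •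
        ENNReal.ofReal κ := by rw [nsmul_eq_mul]
    _ ≤ ∑ n ∈ (Ioc N (2 * N)).filter (fun n : ℕ => ENNReal.ofReal κ ≤ volume (M ∩ I n)), volume (M ∩ I n) :=
        Finset.card_nsmul_le_sum _ _ _ fun n hn => (Finset.mem_filter.1 hn).2
    _ ≤ ∑ n ∈ Ioc N (2 * N), volume (M ∩ I n) :=
        Finset.sum_le_sum_of_subset (Finset.filter_subset _ _)

end Pool.Agent.Lib.H31W
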