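import Pool.Agent.Lib.H31W.S1
import Pool.Agent.Lib.H31W.S2
import Pool.Agent.Lib.H31W.S3

/-!
# Chunk S4 (M/L): few `n` are bad
-/

open Finset MeasureTheory

namespace Pool.Agent.Lib.H31W

open ArithmeticFunction (vonMangoldt moebius)

/-- **The grid.** For `0 < L (1 + e/4) ≤ 1`, `0 < e ≤ 1` some power `q^i`, `q = 1/(1 + e/8)`, lies in
`[L (1 + e/4), L (1 + e/2)]`, with `i ≤ (16/e) log (1/L)`.

Proof. The largest `i` with `q^i ≥ L (1 + e/4)`: `q^(i+1) < L (1 + e/4)`, so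
`q^i < L (1 + e/4)(1 + e/8) ≤ L (1 + e/2)`; and `i log (1 + e/8) ≤ log (1/L)`, `log (1 + z) ≥ z/2`. -/
theorem grid (L e : ℝ) (hL : 0 < L) (he : 0 < e) (he1 : e ≤ 1) (hL1 : L * (1 + e / 4) ≤ 1) :
    ∃ i : ℕ, (i : ℝ) ≤ 16 / e * Real.log (1 / L) ∧ L * (1 + e / 4) ≤ (1 / (1 + e / 8)) ^ i ∧
      (1 / (1 + e / 8)) ^ i ≤ L * (1 + e / 2) := by
  have hz : 0 < 1 + e / 8 := by linarith
  have hq0 : 0 < 1 / (1 + e / 8) := by positivity
  have hq1 : 1 / (1 + e / 8) < 1 := by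
    rw [div_lt_one hz]
    linarith
  have hx0 : 0 < L * (1 + e / 4) := by positivity
  obtain ⟨i, h1, h2⟩ := exists_nat_pow_near_of_lt_one hx0 hL1 hq0 hq1
  refine ⟨i, ?_, h2, ?_⟩
  · have h3 : Real.log (L * (1 + e / 4)) ≤ i * Real.log (1 / (1 + e / 8)) := by
      rw [← Real.log_pow]
      exact Real.log_le_log hx0 h2
    rw [one_div (1 + e / 8), Real.log_inv] at h3
    have h4 : Real.log L ≤ Real.log (L * (1 + e / 4)) := by
      refine Real.log_le_log hL ?_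
      nlinarith
    have h5 : 2 * (e / 8) / (e / 8 + 2) ≤ Real.log (1 + e / 8) :=
      Real.le_log_one_add_of_nonneg (by positivity)
    have h6 : e / 16 ≤ Real.log (1 + e / 8) := by
      refine le_trans ?_ h5
      rw [le_div_iff₀ (by positivity)]
      nlinarith
    have h7 : (i : ℝ) * (e / 16) ≤ i * Real.log (1 + e / 8) :=
      mul_le_mul_of_nonneg_left h6 (Nat.cast_nonneg _)
    rw [one_div L, Real.log_inv]
    have h8 : (i : ℝ) * (e / 16) ≤ -Real.log L := by linarith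
    have h9 : 16 / e * -Real.log L = -Real.log L / (e / 16) := by
      field_simp
    rw [h9, le_div_iff₀ (by positivity)]
    exact h8
  · have h3 : (1 / (1 + e / 8)) ^ i = (1 / (1 + e / 8)) ^ (i + 1) * (1 + e / 8) := by
      rw [pow_succ, mul_assoc, one_div_mul_cancel hz.ne', mul_one]
    rw [h3]
    refine le_trans (mul_le_mul_of_nonneg_right h1.le hz.le) ?_
    have h4 : (1 + e / 4) * (1 + e / 8) ≤ 1 + e / 2 := by nlinarith
    calc L * (1 + e / 4) * (1 + e / 8) = L * ((1 + e / 4) * (1 + e / 8)) := by ring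
      _ ≤ L * (1 + e / 2) := mul_le_mul_of_nonneg_left h4 hL.le

private theorem s4_large : ∃ N₀ : ℕ, ∀ N : ℕ, N₀ ≤ N →
    2243200 * ((Real.log N) ^ (1 / 10 : ℝ)) ^ 30 *
      Real.exp (-(1 / 4 * (Real.log N) ^ (1 / 10 : ℝ))) ≤ 1 ∧ 3 ≤ (Real.log N) ^ (1 / 10 : ℝ) := by
  have h1 : Filter.Tendsto (fun N : ℕ => (Real.log N) ^ (1 / 10 : ℝ)) Filter.atTop Filter.atTop :=
    (tendsto_rpow_atTop (by norm_num)).comp (Real.tendsto_log_atTop.comp tendsto_natCast_atTop_atTop)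
  have h2 : Filter.Tendsto (fun N : ℕ => (Real.log N) ^ (1 / 10 : ℝ) / 4) Filter.atTop Filter.atTop :=
    h1.atTop_div_const (by norm_num)
  have h3 := ((Real.tendsto_pow_mul_exp_neg_atTop_nhds_zero 30).const_mul (2243200 * 4 ^ 30)).comp h2
  rw [mul_zero] at h3
  have h4 := h3.eventually (gt_mem_nhds (show (0 : ℝ) < 1 by norm_num))
  obtain ⟨N₀, hN₀⟩ := Filter.eventually_atTop.mp (h4.and (h1.eventually_ge_atTop 3))
  refine ⟨N₀, fun N hN => ⟨?_, (hN₀ N hN).2⟩⟩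
  have h5 := (hN₀ N hN).1
  simp only [Function.comp] at h5
  refine le_trans (le_of_eq ?_) h5.le
  rw [div_pow, show -((Real.log N) ^ (1 / 10 : ℝ) / 4) = -(1 / 4 * (Real.log N) ^ (1 / 10 : ℝ)) by ring]
  ring

/-- The size of `L` for a near pair. -/
private theorem s4_pair (N x y : ℕ) (hN : 1 ≤ N) (hlam : 3 ≤ (Real.log N) ^ (1 / 10 : ℝ)) (hxy : x < y)
    (hx : (N : ℝ) / 2 ≤ x) (hy : (y : ℝ) ≤ 4 * N) (hyN : (N : ℝ) ≤ y)
    (hκ : (y : ℝ) - x < y * Real.exp (-(9 * (Real.log y) ^ (1 / 10 : ℝ)))) :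
    1 / (2 * (N : ℝ)) ≤ 2 * Real.log y - 2 * Real.log x ∧
      2 * (2 * Real.log y - 2 * Real.log x) ≤ Real.exp (-(8 * (Real.log N) ^ (1 / 10 : ℝ))) := by
  have hN' : (1 : ℝ) ≤ N := by exact_mod_cast hN
  have hx0 : (0 : ℝ) < x := by linarith
  have hy0 : (0 : ℝ) < y := by linarith
  have hxy' : (x : ℝ) + 1 ≤ y := by exact_mod_cast hxy
  have hlogN : 0 ≤ Real.log N := Real.log_nonneg hN'
  have hlog : Real.log N ≤ Real.log y := Real.log_le_log (by linarith) hyN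
  have hlam2 : (Real.log N) ^ (1 / 10 : ℝ) ≤ (Real.log y) ^ (1 / 10 : ℝ) :=
    Real.rpow_le_rpow hlogN hlog (by norm_num)
  constructor
  · have h1 : Real.log ((x : ℝ) / y) ≤ (x : ℝ) / y - 1 := Real.log_le_sub_one_of_pos (by positivity)
    rw [Real.log_div hx0.ne' hy0.ne'] at h1
    have h2 : (x : ℝ) / y - 1 ≤ -(1 / (4 * (N : ℝ))) := by
      rw [div_sub_one hy0.ne', div_le_iff₀ hy0]
      have h3 : (y : ℝ) / (4 * N) ≤ 1 := by
        rw [div_le_one (by positivity)]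
        exact hy
      have h4 : -(1 / (4 * (N : ℝ))) * y = -((y : ℝ) / (4 * N)) := by ring
      rw [h4]
      linarith
    have h5 : 1 / (2 * (N : ℝ)) = 2 * (1 / (4 * (N : ℝ))) := by
      field_simp
      norm_num
    rw [h5]
    linarith
  · set l : ℝ := (Real.log N) ^ (1 / 10 : ℝ) with hl
    set k : ℝ := Real.exp (-(9 * (Real.log y) ^ (1 / 10 : ℝ))) with hk
    have hk0 : 0 < k := Real.exp_pos _
    have h8 : (8 : ℝ) ≤ Real.exp l := by
      have h := Real.add_one_le_exp (l / 3)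
      have h1 : Real.exp l = Real.exp (l / 3) ^ 3 := by
        rw [← Real.exp_nat_mul]
        congr 1
        push_cast
        ring
      rw [h1]
      have h2 : (2 : ℝ) ≤ Real.exp (l / 3) := by linarith
      calc (8 : ℝ) = 2 ^ 3 := by norm_num
        _ ≤ _ := pow_le_pow_left₀ (by norm_num) h2 3
    have hk8 : 8 * k ≤ Real.exp (-(8 * l)) := by
      have h1 : k ≤ Real.exp (-(9 * l)) := Real.exp_le_exp.2 (by linarith)
      have h2 : Real.exp (-(8 * l)) = Real.exp l * Real.exp (-(9 * l)) := by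
        rw [← Real.exp_add]
        congr 1
        ring
      rw [h2]
      exact mul_le_mul h8 h1 hk0.le (Real.exp_pos _).le
    have hk1 : k ≤ 1 / 8 := by
      have h1 : Real.exp (-(8 * l)) ≤ 1 := Real.exp_le_one_iff.2 (by linarith)
      linarith
    have h1 : Real.log ((y : ℝ) / x) ≤ (y : ℝ) / x - 1 := Real.log_le_sub_one_of_pos (by positivity)
    rw [Real.log_div hy0.ne' hx0.ne'] at h1
    have h2 : (y : ℝ) / x - 1 ≤ 2 * k := by
      rw [div_sub_one hx0.ne', div_le_iff₀ hx0]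
      nlinarith
    linarith

/-- The length of the grid for `N`. -/
private noncomputable def s4_q (N : ℕ) : ℝ := 1 / (1 + eps N / 8)

/-- The bad indices. -/
private theorem s4_vol (N : ℕ) (hN : 2 ≤ N) (hlam : 3 ≤ (Real.log N) ^ (1 / 10 : ℝ))
    (hlog : 1 ≤ Real.log N)
    (hNB : ∀ m n : ℕ, m < n → (N : ℝ) / 2 ≤ m → (n : ℝ) ≤ 4 * N →
      (n : ℝ) - m < n * Real.exp (-(9 * (Real.log n) ^ (1 / 10 : ℝ))) → ¬ Cr m n → ∀ η : ℝ,
      (2 * Real.log n - 2 * Real.log m) * (1 + eps N / 4) ≤ η →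
      η ≤ (2 * Real.log n - 2 * Real.log m) * (1 + eps N / 2) → ∀ u : ℝ,
      2 * Real.log m - (2 * Real.log n - 2 * Real.log m) * (eps N / 4) ≤ u → u ≤ 2 * Real.log m →
      1 + eps N / 3 ≤ av (fun n => vonMangoldt n) η u)
    (x y n : ℕ) (hxy : x < y)
    (hx : (N : ℝ) / 2 ≤ x) (hy : (y : ℝ) ≤ 4 * N) (hyN : (N : ℝ) ≤ y)
    (hκ : (y : ℝ) - x < y * Real.exp (-(9 * (Real.log y) ^ (1 / 10 : ℝ)))) (hC : ¬ Cr x y)
    (hn : n = x ∨ n = y) :
    ∃ i : ℕ, (i : ℝ) ≤ 700 * Real.log N ^ 2 ∧ 1 / (2 * (N : ℝ)) ≤ s4_q N ^ i ∧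
      s4_q N ^ i ≤ Real.exp (-(8 * (Real.log N) ^ (1 / 10 : ℝ))) ∧
      ENNReal.ofReal (s4_q N ^ i * (eps N / 8)) ≤ volume (MB N (s4_q N ^ i) ∩
        Set.Icc (2 * Real.log n - 2 * s4_q N ^ i) (2 * Real.log n + 2 * s4_q N ^ i)) := by
  have hN' : (2 : ℝ) ≤ N := by exact_mod_cast hN
  have hx0 : (0 : ℝ) < x := by linarith
  have hy0 : (0 : ℝ) < y := by linarith
  obtain ⟨hL1, hL2⟩ := s4_pair N x y (by omega) hlam hxy hx hy hyN hκ
  have hnb := hNB x y hxy hx hy hκ hC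
  obtain ⟨L, hLd⟩ : ∃ L : ℝ, L = 2 * Real.log y - 2 * Real.log x := ⟨_, rfl⟩
  rw [← hLd] at hL1 hL2 hnb
  have hL0 : 0 < L := lt_of_lt_of_le (by positivity) hL1
  have he0 : 0 < eps N := by
    unfold eps
    positivity
  have he1 : eps N ≤ 1 / 20 := by
    unfold eps
    exact one_div_le_one_div_of_le (by norm_num) (by linarith)
  have hexp1 : Real.exp (-(8 * (Real.log N) ^ (1 / 10 : ℝ))) ≤ 1 :=
    Real.exp_le_one_iff.2 (by linarith)
  have hLh : L ≤ 1 / 2 := by linarith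
  have hg : L * (1 + eps N / 4) ≤ 1 := by nlinarith
  obtain ⟨i, hi, hη1, hη2⟩ := grid L (eps N) hL0 he0 (by linarith) hg
  have hηL : L ≤ s4_q N ^ i := by
    refine le_trans ?_ hη1
    nlinarith
  have hη2L : s4_q N ^ i ≤ 2 * L := by
    refine le_trans hη2 ?_
    nlinarith
  refine ⟨i, ?_, hL1.trans hηL, hη2L.trans hL2, ?_⟩
  · refine hi.trans ?_
    have h1 : Real.log (1 / L) ≤ 2 * Real.log N := by
      have h2 : 1 / L ≤ (N : ℝ) ^ 2 := by
        rw [div_le_iff₀ hL0]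
        rw [div_le_iff₀ (by positivity)] at hL1
        nlinarith
      have h3 := Real.log_le_log (by positivity) h2
      rw [Real.log_pow] at h3
      push_cast at h3
      exact h3
    have h2 : 16 / eps N = 320 * Real.log N := by
      unfold eps
      field_simp
      norm_num
    rw [h2]
    have h3 : 320 * Real.log N * Real.log (1 / L) ≤ 320 * Real.log N * (2 * Real.log N) :=
      mul_le_mul_of_nonneg_left h1 (by positivity)
    refine h3.trans ?_
    nlinarith [sq_nonneg (Real.log N)]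
  · obtain ⟨η, hηd⟩ : ∃ η : ℝ, η = s4_q N ^ i := ⟨_, rfl⟩
    have hη1' : L * (1 + eps N / 4) ≤ η := by
      rw [hηd]
      exact hη1
    have hη2' : η ≤ L * (1 + eps N / 2) := by
      rw [hηd]
      exact hη2
    rw [← hηd] at hηL hη2L ⊢
    have hsub : Set.Icc (2 * Real.log x - L * (eps N / 4)) (2 * Real.log x) ⊆
        MB N η ∩ Set.Icc (2 * Real.log n - 2 * η) (2 * Real.log n + 2 * η) := by
      intro u hu
      obtain ⟨hu1, hu2⟩ := hu
      have hLe : L * (eps N / 4) ≤ 1 / 4 := by nlinarith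
      refine ⟨⟨?_, ?_, ?_⟩, ?_, ?_⟩
      · have h1 : Real.log ((N : ℝ) ^ 2 / 8) = 2 * Real.log ((N : ℝ) / 2) - Real.log 2 := by
          have h2 : (N : ℝ) ^ 2 / 8 = ((N : ℝ) / 2) ^ 2 / 2 := by ring
          rw [h2, Real.log_div (by positivity) (by norm_num), Real.log_pow]
          push_cast
          ring
        have h3 : Real.log ((N : ℝ) / 2) ≤ Real.log x := Real.log_le_log (by positivity) hx
        have h4 := Real.log_two_gt_d9
        rw [h1]
        linarith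
      · have h1 : Real.log (16 * (N : ℝ) ^ 2) = 2 * Real.log (4 * N) := by
          have h2 : 16 * (N : ℝ) ^ 2 = (4 * (N : ℝ)) ^ 2 := by ring
          rw [h2, Real.log_pow]
          push_cast
          ring
        have h3 : Real.log x ≤ Real.log (4 * N) := by
          refine Real.log_le_log hx0 ?_
          have hxy' : (x : ℝ) ≤ y := by exact_mod_cast hxy.le
          linarith
        rw [h1]
        linarith
      · exact hnb η hη1' hη2' u hu1 hu2
      · rcases hn with hn | hn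
        · rw [hn]
          nlinarith
        · rw [hn]
          nlinarith
      · rcases hn with hn | hn
        · rw [hn]
          linarith
        · rw [hn]
          linarith
    refine le_trans ?_ (measure_mono hsub)
    rw [Real.volume_Icc]
    refine ENNReal.ofReal_le_ofReal ?_
    nlinarith

open Classical in
/-- The count for one length. -/
private theorem s4_one (N : ℕ) (hN : 2 ≤ N) (hlog : 1 ≤ Real.log N)
    (hlam : 3 ≤ (Real.log N) ^ (1 / 10 : ℝ)) (η : ℝ)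
    (h1 : 1 / (2 * (N : ℝ)) ≤ η) (h2 : η ≤ Real.exp (-(8 * (Real.log N) ^ (1 / 10 : ℝ))))
    (hM : volume (MB N η) ≤ ENNReal.ofReal (Real.exp (-(1 / 2 * (Real.log N) ^ (1 / 10 : ℝ))))) :
    (((Ioc N (2 * N)).filter (fun n : ℕ => ENNReal.ofReal (η * (eps N / 8)) ≤
      volume (MB N η ∩ Set.Icc (2 * Real.log n - 2 * η) (2 * Real.log n + 2 * η)))).card : ℝ) ≤
      3200 * N * Real.log N * Real.exp (-(1 / 2 * (Real.log N) ^ (1 / 10 : ℝ))) := by
  have hN' : (2 : ℝ) ≤ N := by exact_mod_cast hN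
  have he0 : 0 < eps N := by
    unfold eps
    positivity
  have hη0 : 0 < η := lt_of_lt_of_le (by positivity) h1
  have h4 : η ≤ 1 / 4 := by
    refine h2.trans ?_
    have h5 := Real.add_one_le_exp (8 * (Real.log N) ^ (1 / 10 : ℝ))
    rw [Real.exp_neg, ← one_div]
    exact one_div_le_one_div_of_le (by norm_num) (by linarith)
  have h5 := count_killed N (by omega) (MB N η) (MB_measurable N η) η (η * (eps N / 8)) h1 h4
    (by positivity)
  obtain ⟨c, hc⟩ : ∃ c : ℕ, c = ((Ioc N (2 * N)).filter (fun n : ℕ => ENNReal.ofReal (η * (eps N / 8)) ≤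
      volume (MB N η ∩ Set.Icc (2 * Real.log n - 2 * η) (2 * Real.log n + 2 * η)))).card := ⟨_, rfl⟩
  rw [← hc] at h5 ⊢
  have h6 := h5.trans (mul_le_mul_right hM _)
  rw [← ENNReal.ofReal_natCast, ← ENNReal.ofReal_mul (Nat.cast_nonneg _),
    ← ENNReal.ofReal_mul (by positivity), ENNReal.ofReal_le_ofReal_iff (by positivity)] at h6
  have h7 : 160 * Real.log N * eps N = 8 := by
    unfold eps
    field_simp
    norm_num
  have h8 : (c : ℝ) * (η * (eps N / 8)) ≤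
      (3200 * N * Real.log N * Real.exp (-(1 / 2 * (Real.log N) ^ (1 / 10 : ℝ)))) * (η * (eps N / 8)) := by
    refine h6.trans (le_of_eq ?_)
    have h9 : (3200 * N * Real.log N * Real.exp (-(1 / 2 * (Real.log N) ^ (1 / 10 : ℝ)))) *
        (η * (eps N / 8)) = 20 * N * η * Real.exp (-(1 / 2 * (Real.log N) ^ (1 / 10 : ℝ))) *
        (160 * Real.log N * eps N / 8) := by ring
    rw [h9, h7]
    ring
  exact le_of_mul_le_mul_right h8 (by positivity)

open Classical in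
/-- **Few `n` are bad.** `ε = 1/(20 log N)`.

Proof. Let `n ∈ (N, 2N]` be `NearBad`, `x < y` the pair `{m, n}` in increasing order, `L = 2 log y - 2 log x`.
`L ≥ 2 (y - x)/y ≥ 1/(2N)`, `L ≤ 4 exp (-9 (log y)^(1/10)) ≤ (1/2) exp (-8 (log N)^(1/10))` (`y ≥ N`, `N` large). `grid`
(`e = ε`) gives `i ≤ (16/ε) log (2N) ≤ 700 (log N)²` and `η = q^i` with `L (1 + ε/4) ≤ η ≤ L (1 + ε/2)`, so
`1/(2N) ≤ L ≤ η ≤ 2L ≤ exp (-8 (log N)^(1/10))`. By `near_bad` the interval
`[2 log x - L ε/4, 2 log x]` is contained in `MB N η` (`2 log x - Lε/4 ≥ log (N²/4) - 1/2 ≥ log (N²/8)`) and also in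
`[2 log n - 2η, 2 log n + 2η]` (`2 log n` is `2 log x` or `2 log x + L`, `L (1 + ε/4) ≤ 2η`); its length is
`Lε/4 ≥ ηε/8 = κ`. So `n` is counted in `count_killed` for `M = MB N (q^i)`, `κ = q^i ε/8`, for some
`i ≤ 700 (log N)²` with `1/(2N) ≤ q^i ≤ exp (-8 (log N)^(1/10))`, and for each such `i` the count is at most
`20 N η vol(M)/κ = (160 N/ε) vol(M) ≤ 3200 N log N exp (-(1/2)(log N)^(1/10))` (`MB_measure`). Sum over `i`:
`≤ 701 (log N)² · 3200 N log N exp (-(1/2)(log N)^(1/10)) ≤ N exp (-(1/4)(log N)^(1/10))` for large `N`. -/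
theorem near_count (hS : SupProp) (hP : PntProp) : ∃ N₀ : ℕ, ∀ N : ℕ, N₀ ≤ N →
    (((Ioc N (2 * N)).filter (fun n => NearBad N n)).card : ℝ) ≤
      N * Real.exp (-(1 / 4 * (Real.log N) ^ (1 / 10 : ℝ))) := by
  obtain ⟨N₁, hN₁⟩ := near_bad
  obtain ⟨N₂, hN₂⟩ := MB_measure hS hP
  obtain ⟨N₃, hN₃⟩ := s4_large
  refine ⟨max (max N₁ N₂) (max N₃ 8), fun N hN => ?_⟩
  have hNN1 : N₁ ≤ N := le_trans (le_trans (le_max_left _ _) (le_max_left _ _)) hN
  have hNN2 : N₂ ≤ N := le_trans (le_trans (le_max_right _ _) (le_max_left _ _)) hN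
  have hNN3 : N₃ ≤ N := le_trans (le_trans (le_max_left _ _) (le_max_right _ _)) hN
  have hNN4 : 8 ≤ N := le_trans (le_trans (le_max_right _ _) (le_max_right _ _)) hN
  have hnb := hN₁ N hNN1
  have hmb := hN₂ N hNN2
  obtain ⟨hlarge, hlam⟩ := hN₃ N hNN3
  have hN' : (8 : ℝ) ≤ N := by exact_mod_cast hNN4
  have hlog : 1 ≤ Real.log N := by
    rw [Real.le_log_iff_exp_le (by linarith)]
    have := Real.exp_one_lt_d9
    linarith
  obtain ⟨J, hJ⟩ : ∃ J : Finset ℕ, J = (range (⌊700 * Real.log N ^ 2⌋₊ + 1)).filter (fun i : ℕ =>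
      1 / (2 * (N : ℝ)) ≤ s4_q N ^ i ∧
      s4_q N ^ i ≤ Real.exp (-(8 * (Real.log N) ^ (1 / 10 : ℝ)))) := ⟨_, rfl⟩
  have hJc : (J.card : ℝ) ≤ 701 * Real.log N ^ 2 := by
    have h1 : J.card ≤ ⌊700 * Real.log N ^ 2⌋₊ + 1 := by
      rw [hJ]
      refine (card_filter_le _ _).trans ?_
      rw [card_range]
    have h2 : (J.card : ℝ) ≤ (⌊700 * Real.log N ^ 2⌋₊ : ℝ) + 1 := by exact_mod_cast h1
    have h3 : (⌊700 * Real.log N ^ 2⌋₊ : ℝ) ≤ 700 * Real.log N ^ 2 := Nat.floor_le (by positivity)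
    nlinarith
  have hsub : (Ioc N (2 * N)).filter (fun n => NearBad N n) ⊆
      J.biUnion (fun i => (Ioc N (2 * N)).filter (fun n : ℕ =>
        ENNReal.ofReal (s4_q N ^ i * (eps N / 8)) ≤ volume (MB N (s4_q N ^ i) ∩
          Set.Icc (2 * Real.log n - 2 * s4_q N ^ i) (2 * Real.log n + 2 * s4_q N ^ i)))) := by
    intro n hn
    obtain ⟨hnI, hnB⟩ := mem_filter.1 hn
    obtain ⟨hn1, hn2⟩ := mem_Ioc.1 hnI
    have hn1' : (N : ℝ) + 1 ≤ n := by exact_mod_cast hn1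
    have hn2' : (n : ℝ) ≤ 2 * N := by exact_mod_cast hn2
    have key : ∃ i : ℕ, (i : ℝ) ≤ 700 * Real.log N ^ 2 ∧ 1 / (2 * (N : ℝ)) ≤ s4_q N ^ i ∧
        s4_q N ^ i ≤ Real.exp (-(8 * (Real.log N) ^ (1 / 10 : ℝ))) ∧
        ENNReal.ofReal (s4_q N ^ i * (eps N / 8)) ≤ volume (MB N (s4_q N ^ i) ∩
          Set.Icc (2 * Real.log n - 2 * s4_q N ^ i) (2 * Real.log n + 2 * s4_q N ^ i)) := by
      obtain ⟨m, hm1, hm2, ⟨h1, h2, h3⟩ | ⟨h1, h2, h3⟩⟩ := hnB
      · exact s4_vol N (by omega) hlam hlog hnb m n n h1 hm1 (by linarith) (by linarith) h2 h3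
          (Or.inr rfl)
      · have h1' : (n : ℝ) + 1 ≤ m := by exact_mod_cast h1
        exact s4_vol N (by omega) hlam hlog hnb n m n h1 (by linarith) hm2 (by linarith) h2 h3
          (Or.inl rfl)
    obtain ⟨i, hi1, hi2, hi3, hi4⟩ := key
    refine mem_biUnion.2 ⟨i, ?_, mem_filter.2 ⟨hnI, hi4⟩⟩
    rw [hJ]
    refine mem_filter.2 ⟨mem_range.2 (Nat.lt_succ_of_le (Nat.le_floor hi1)), hi2, hi3⟩
  have h1 : (((Ioc N (2 * N)).filter (fun n => NearBad N n)).card : ℝ) ≤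
      J.card * (3200 * N * Real.log N * Real.exp (-(1 / 2 * (Real.log N) ^ (1 / 10 : ℝ)))) := by
    have h2 := (card_le_card hsub).trans card_biUnion_le
    have h3 : (((Ioc N (2 * N)).filter (fun n => NearBad N n)).card : ℝ) ≤
        ((∑ i ∈ J, ((Ioc N (2 * N)).filter (fun n : ℕ =>
        ENNReal.ofReal (s4_q N ^ i * (eps N / 8)) ≤ volume (MB N (s4_q N ^ i) ∩
          Set.Icc (2 * Real.log n - 2 * s4_q N ^ i) (2 * Real.log n + 2 * s4_q N ^ i)))).card : ℕ) : ℝ) := by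
      exact_mod_cast h2
    refine h3.trans ?_
    rw [Nat.cast_sum, ← nsmul_eq_mul]
    refine sum_le_card_nsmul _ _ _ fun i hi => ?_
    rw [hJ] at hi
    obtain ⟨_, hi2, hi3⟩ := mem_filter.1 hi
    exact s4_one N (by omega) hlog hlam _ hi2 hi3 (hmb _ hi2 hi3)
  refine h1.trans ?_
  obtain ⟨l, hl⟩ : ∃ l : ℝ, l = (Real.log N) ^ (1 / 10 : ℝ) := ⟨_, rfl⟩
  have hl10 : Real.log N = l ^ 10 := by
    rw [hl, ← Real.rpow_natCast, ← Real.rpow_mul (by linarith)]
    norm_num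
  rw [← hl] at hlarge hlam ⊢
  rw [hl10] at hJc ⊢
  have hsplit : Real.exp (-(1 / 2 * l)) = Real.exp (-(1 / 4 * l)) * Real.exp (-(1 / 4 * l)) := by
    rw [← Real.exp_add]
    congr 1
    ring
  calc (J.card : ℝ) * (3200 * N * l ^ 10 * Real.exp (-(1 / 2 * l)))
      ≤ 701 * (l ^ 10) ^ 2 * (3200 * N * l ^ 10 * Real.exp (-(1 / 2 * l))) :=
        mul_le_mul_of_nonneg_right hJc (by positivity)
    _ = N * Real.exp (-(1 / 4 * l)) * (2243200 * l ^ 30 * Real.exp (-(1 / 4 * l))) := by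
        rw [hsplit]
        ring
    _ ≤ N * Real.exp (-(1 / 4 * l)) * 1 := mul_le_mul_of_nonneg_left hlarge (by positivity)
    _ = N * Real.exp (-(1 / 4 * l)) := mul_one _

end Pool.Agent.Lib.H31W
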