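import Pool.Agent.Lib.H31W.Defs

/-!
# Chunk R4 (M): far pairs
-/

open Finset

namespace Pool.Agent.Lib.H31W

private theorem R4_S : ∃ S : ℝ, 20 ≤ S ∧ ∀ s : ℝ, S ≤ s →
    s ^ 10 * Real.exp (-s) ≤ 1 / 64 ∧ s ^ 20 * Real.exp (-s) ≤ 1 / 64 := by
  have h1 := (Real.tendsto_pow_mul_exp_neg_atTop_nhds_zero 10).eventually_le_const
    (show (0 : ℝ) < 1 / 64 by norm_num)
  have h2 := (Real.tendsto_pow_mul_exp_neg_atTop_nhds_zero 20).eventually_le_const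
    (show (0 : ℝ) < 1 / 64 by norm_num)
  obtain ⟨S, hS⟩ := Filter.eventually_atTop.1 (h1.and h2)
  exact ⟨max S 20, le_max_right _ _, fun s hs => hS s ((le_max_left _ _).trans hs)⟩

private theorem R4_s {S L : ℝ} (hS : 20 ≤ S) (hL : S ^ 10 ≤ L) :
    S ≤ L ^ (1 / 10 : ℝ) ∧ (L ^ (1 / 10 : ℝ)) ^ 10 = L ∧ (L ^ (1 / 10 : ℝ)) ^ 2 = L ^ (1 / 5 : ℝ) := by
  have hL0 : 0 ≤ L := le_trans (by positivity) hL
  refine ⟨?_, ?_, ?_⟩
  · have h := Real.rpow_le_rpow (by positivity) hL (show (0 : ℝ) ≤ 1 / 10 by norm_num)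
    have h2 : (S ^ 10) ^ (1 / 10 : ℝ) = S := by
      rw [← Real.rpow_natCast, ← Real.rpow_mul (by linarith)]
      norm_num
    rwa [h2] at h
  · rw [← Real.rpow_natCast, ← Real.rpow_mul hL0]
    norm_num
  · rw [← Real.rpow_natCast, ← Real.rpow_mul hL0]
    norm_num

private theorem R4_main {S : ℝ} (hS20 : 20 ≤ S) (hS : ∀ s : ℝ, S ≤ s →
    s ^ 10 * Real.exp (-s) ≤ 1 / 64 ∧ s ^ 20 * Real.exp (-s) ≤ 1 / 64) {L : ℝ} (hL : S ^ 10 ≤ L) :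
    2 * Real.exp (-L ^ (1 / 5 : ℝ)) + 4 * (L * Real.exp (-L)) ≤
      (3 / 64) / L * Real.exp (-(19 * L ^ (1 / 10 : ℝ))) * 2 := by
  obtain ⟨h1, h2, h3⟩ := R4_s hS20 hL
  set s := L ^ (1 / 10 : ℝ) with hs
  have hs20 : 20 ≤ s := hS20.trans h1
  obtain ⟨h4, h5⟩ := hS s h1
  have hL0 : 0 < L := lt_of_lt_of_le (by positivity) hL
  rw [← h3]
  have e1 : Real.exp (-s ^ 2) ≤ Real.exp (-(20 * s)) := Real.exp_le_exp.2 (by nlinarith)
  have hs10 : s ^ 2 ≤ s ^ 10 := pow_le_pow_right₀ (by linarith) (by norm_num)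
  have e2 : Real.exp (-L) ≤ Real.exp (-(20 * s)) := Real.exp_le_exp.2 (by
    rw [← h2]
    nlinarith)
  have e3 : Real.exp (-(20 * s)) = Real.exp (-s) * Real.exp (-(19 * s)) := by
    rw [← Real.exp_add]
    congr 1
    ring
  have hE : 0 < Real.exp (-(19 * s)) := Real.exp_pos _
  have hkey : L * (2 * Real.exp (-s ^ 2) + 4 * (L * Real.exp (-L))) ≤
      (3 / 64) * Real.exp (-(19 * s)) * 2 := by
    calc L * (2 * Real.exp (-s ^ 2) + 4 * (L * Real.exp (-L)))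
        ≤ L * (2 * Real.exp (-(20 * s)) + 4 * (L * Real.exp (-(20 * s)))) := by gcongr
      _ = 2 * (s ^ 10 * Real.exp (-s)) * Real.exp (-(19 * s)) +
          4 * (s ^ 20 * Real.exp (-s)) * Real.exp (-(19 * s)) := by
          rw [e3]
          have h6 : s ^ 20 = L * L := by
            rw [show s ^ 20 = s ^ 10 * s ^ 10 by ring, h2]
          rw [h6, h2]
          ring
      _ ≤ 2 * (1 / 64) * Real.exp (-(19 * s)) + 4 * (1 / 64) * Real.exp (-(19 * s)) := by gcongr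
      _ = _ := by ring
  have h7 : (3 / 64) / L * Real.exp (-(19 * s)) * 2 = ((3 / 64) * Real.exp (-(19 * s)) * 2) / L := by
    ring
  rw [h7, le_div_iff₀ hL0]
  linarith

/-- **Far pairs.** If `m₀ ≤ m < n` and `n - m ≥ n exp (-9 (log n)^(1/10))` then `Cr m n`.

Proof. `x = m²`, `y = n²`, `E(x) = exp (-(log x)^(1/5))`. `θ(y) ≤ ψ(y) ≤ y + y E(y)` (`Chebyshev.theta_le_psi`, `hP`),
`θ(x) ≥ ψ(x) - 2 √x log x ≥ x - x E(x) - 2 √x log x` (`Chebyshev.psi_sub_theta_le`). So it is enough that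
`y E(y) + x E(x) + 2 √x log x ≤ (y - x)/(4 log x)`.
Case `m < n/2`: `y - x ≥ 3y/4`, `E(y) ≤ E(x)`, `√x ≤ y/√x`, the left side is at most `y (2 E(x) + 2 log x/√x)`, which is at
most `(3/4) y/(4 log x)` if `x` is large (`E(x) log x → 0`).
Case `m ≥ n/2`: `y - x ≥ n (n - m) ≥ y exp (-9 (log n)^(1/10))`, `log x ≤ 2 log n`, `E(x), E(y) ≤ exp (-(log n)^(1/5))`
(`x ≥ n²/4 ≥ n`), `2 √x log x ≤ 4 n log n = y · 4 log n/n`; so it is enough that
`2 exp (-(log n)^(1/5)) + 4 log n/n ≤ exp (-9 (log n)^(1/10))/(8 log n)`: true for large `n`, since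
`(log n)^(1/5) = s²`, `s = (log n)^(1/10) → ∞`, `log n = s^10`. -/
theorem far (hP : PntProp) : ∃ m₀ : ℕ, ∀ m n : ℕ, m₀ ≤ m → m < n →
    (n : ℝ) * Real.exp (-(9 * (Real.log n) ^ (1 / 10 : ℝ))) ≤ (n : ℝ) - m → Cr m n := by
  obtain ⟨K, hK1, hK⟩ := hP
  obtain ⟨S, hS20, hS⟩ := R4_S
  refine ⟨⌈Real.exp (S ^ 10)⌉₊ + ⌈K⌉₊ + 4, fun m n hm hmn hfar => ?_⟩
  have hm1 : Real.exp (S ^ 10) + K + 4 ≤ (m : ℝ) := by
    have h1 : ((⌈Real.exp (S ^ 10)⌉₊ + ⌈K⌉₊ + 4 : ℕ) : ℝ) ≤ m := by exact_mod_cast hm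
    push_cast at h1
    have h2 := Nat.le_ceil (Real.exp (S ^ 10))
    have h3 := Nat.le_ceil K
    linarith
  have hexp := Real.exp_pos (S ^ 10)
  have hmK : K ≤ m := by linarith
  have hm4 : (4 : ℝ) ≤ m := by linarith
  have hm0 : (0 : ℝ) < m := by linarith
  have hmn' : (m : ℝ) < n := by exact_mod_cast hmn
  have hn0 : (0 : ℝ) < n := by linarith
  have hlm : S ^ 10 ≤ Real.log m := by
    rw [Real.le_log_iff_exp_le hm0]
    linarith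
  have hln : Real.log m ≤ Real.log n := Real.log_le_log hm0 hmn'.le
  have hlm0 : 0 < Real.log m := lt_of_lt_of_le (by positivity) hlm
  have hln0 : 0 < Real.log n := hlm0.trans_le hln
  have hx : K ≤ (m : ℝ) ^ 2 := by nlinarith
  have hy : K ≤ (n : ℝ) ^ 2 := by nlinarith
  have hlogx : Real.log ((m : ℝ) ^ 2) = 2 * Real.log m := by
    rw [Real.log_pow]
    norm_num
  have hlogy : Real.log ((n : ℝ) ^ 2) = 2 * Real.log n := by
    rw [Real.log_pow]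
    norm_num
  have p1 := hK _ hx
  have p2 := hK _ hy
  rw [hlogx] at p1
  rw [hlogy] at p2
  have t1 := Chebyshev.theta_le_psi ((n : ℝ) ^ 2)
  have t2 := Chebyshev.psi_sub_theta_le (x := (m : ℝ) ^ 2) (by nlinarith)
  rw [Real.sqrt_sq hm0.le, hlogx] at t2
  have a1 := (abs_le.1 p1).1
  have a2 := (abs_le.1 p2).2
  -- the main reduction
  suffices hsuff : (n : ℝ) ^ 2 * Real.exp (-(2 * Real.log n) ^ (1 / 5 : ℝ)) +
      (m : ℝ) ^ 2 * Real.exp (-(2 * Real.log m) ^ (1 / 5 : ℝ)) + 4 * (m * Real.log m) ≤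
      ((n : ℝ) ^ 2 - (m : ℝ) ^ 2) * (1 / (8 * Real.log m)) by
    unfold Cr
    rw [hlogx]
    have e1 : ((n : ℝ) ^ 2 - (m : ℝ) ^ 2) * (1 + 1 / (4 * (2 * Real.log m))) =
        ((n : ℝ) ^ 2 - (m : ℝ) ^ 2) + ((n : ℝ) ^ 2 - (m : ℝ) ^ 2) * (1 / (8 * Real.log m)) := by
      rw [show 4 * (2 * Real.log (m : ℝ)) = 8 * Real.log m by ring]
      ring
    rw [e1]
    linarith
  have hmono : ∀ L z : ℝ, 0 ≤ L → L ≤ z → Real.exp (-z ^ (1 / 5 : ℝ)) ≤ Real.exp (-L ^ (1 / 5 : ℝ)) := by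
    intro L z hL hz
    exact Real.exp_le_exp.2 (neg_le_neg (Real.rpow_le_rpow hL hz (by norm_num)))
  have hexpL : ∀ z : ℝ, 0 < z → z = z ^ 2 * Real.exp (-Real.log z) := by
    intro z hz
    rw [Real.exp_neg, Real.exp_log hz]
    field_simp
  have hy0 : 0 ≤ (n : ℝ) ^ 2 := by positivity
  rcases le_or_gt (n : ℝ) (2 * m) with hc | hc
  · -- near case
    set L := Real.log n with hLdef
    have hL : S ^ 10 ≤ L := hlm.trans hln
    have hM := R4_main hS20 hS hL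
    have h2m : L ≤ 2 * Real.log m := by
      rw [← hlogx]
      exact Real.log_le_log hn0 (by nlinarith)
    have b1 := hmono L (2 * L) hln0.le (by linarith)
    have b2 := hmono L (2 * Real.log m) hln0.le h2m
    have b3 : (m : ℝ) ^ 2 ≤ (n : ℝ) ^ 2 := by nlinarith
    have b4 : (m : ℝ) * Real.log m ≤ (n : ℝ) ^ 2 * (L * Real.exp (-L)) := by
      calc (m : ℝ) * Real.log m ≤ n * L := mul_le_mul hmn'.le hln hlm0.le hn0.le
        _ = ((n : ℝ) ^ 2 * Real.exp (-Real.log n)) * L := by rw [← hexpL n hn0]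
        _ = _ := by ring
    have hdiff : (n : ℝ) ^ 2 * Real.exp (-(9 * L ^ (1 / 10 : ℝ))) ≤ (n : ℝ) ^ 2 - (m : ℝ) ^ 2 := by
      have h5 : (n : ℝ) * (n * Real.exp (-(9 * L ^ (1 / 10 : ℝ)))) ≤ n * (n - m) :=
        mul_le_mul_of_nonneg_left hfar hn0.le
      nlinarith [mul_pos hm0 (sub_pos.2 hmn')]
    have hs0 : 0 ≤ L ^ (1 / 10 : ℝ) := Real.rpow_nonneg hln0.le _
    have b5 : (3 / 64) / L * Real.exp (-(19 * L ^ (1 / 10 : ℝ))) * 2 ≤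
        Real.exp (-(9 * L ^ (1 / 10 : ℝ))) * (1 / (8 * L)) := by
      have h6 : Real.exp (-(19 * L ^ (1 / 10 : ℝ))) ≤ Real.exp (-(9 * L ^ (1 / 10 : ℝ))) :=
        Real.exp_le_exp.2 (by linarith)
      have h7 : 0 < Real.exp (-(9 * L ^ (1 / 10 : ℝ))) := Real.exp_pos _
      have h8 : (0 : ℝ) < 1 / L := by positivity
      have h9 : (3 / 64) / L * Real.exp (-(19 * L ^ (1 / 10 : ℝ))) * 2 =
          (3 / 32) * (1 / L) * Real.exp (-(19 * L ^ (1 / 10 : ℝ))) := by ring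
      have h10 : Real.exp (-(9 * L ^ (1 / 10 : ℝ))) * (1 / (8 * L)) =
          (1 / 8) * (1 / L) * Real.exp (-(9 * L ^ (1 / 10 : ℝ))) := by
        rw [one_div_mul_one_div_rev]
        ring
      rw [h9, h10]
      calc (3 / 32) * (1 / L) * Real.exp (-(19 * L ^ (1 / 10 : ℝ)))
          ≤ (3 / 32) * (1 / L) * Real.exp (-(9 * L ^ (1 / 10 : ℝ))) := by gcongr
        _ ≤ (1 / 8) * (1 / L) * Real.exp (-(9 * L ^ (1 / 10 : ℝ))) := by
            have : 0 ≤ (1 / L) * Real.exp (-(9 * L ^ (1 / 10 : ℝ))) := by positivity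
            nlinarith
    have hE2 : 0 < Real.exp (-L ^ (1 / 5 : ℝ)) := Real.exp_pos _
    calc (n : ℝ) ^ 2 * Real.exp (-(2 * L) ^ (1 / 5 : ℝ)) +
          (m : ℝ) ^ 2 * Real.exp (-(2 * Real.log m) ^ (1 / 5 : ℝ)) + 4 * (m * Real.log m)
        ≤ (n : ℝ) ^ 2 * Real.exp (-L ^ (1 / 5 : ℝ)) + (n : ℝ) ^ 2 * Real.exp (-L ^ (1 / 5 : ℝ)) +
          4 * ((n : ℝ) ^ 2 * (L * Real.exp (-L))) := by gcongr
      _ = (n : ℝ) ^ 2 * (2 * Real.exp (-L ^ (1 / 5 : ℝ)) + 4 * (L * Real.exp (-L))) := by ring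
      _ ≤ (n : ℝ) ^ 2 * (Real.exp (-(9 * L ^ (1 / 10 : ℝ))) * (1 / (8 * L))) :=
          mul_le_mul_of_nonneg_left (hM.trans b5) hy0
      _ = ((n : ℝ) ^ 2 * Real.exp (-(9 * L ^ (1 / 10 : ℝ)))) * (1 / (8 * L)) := by ring
      _ ≤ ((n : ℝ) ^ 2 - (m : ℝ) ^ 2) * (1 / (8 * Real.log m)) := by
          apply mul_le_mul hdiff _ (by positivity) (by nlinarith)
          apply one_div_le_one_div_of_le (by positivity)
          linarith
  · -- far case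
    set L := Real.log m with hLdef
    have hM := R4_main hS20 hS hlm
    have b1 := hmono L (2 * Real.log n) hlm0.le (by linarith)
    have b2 := hmono L (2 * L) hlm0.le (by linarith)
    have b3 : (m : ℝ) ^ 2 ≤ (n : ℝ) ^ 2 := by nlinarith
    have b4 : (m : ℝ) * L ≤ (n : ℝ) ^ 2 * (L * Real.exp (-L)) := by
      calc (m : ℝ) * L = ((m : ℝ) ^ 2 * Real.exp (-Real.log m)) * L := by rw [← hexpL m hm0]
        _ = (m : ℝ) ^ 2 * (L * Real.exp (-L)) := by ring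
        _ ≤ _ := by gcongr
    have hdiff : (3 / 4) * (n : ℝ) ^ 2 ≤ (n : ℝ) ^ 2 - (m : ℝ) ^ 2 := by nlinarith
    have hs0 : 0 ≤ L ^ (1 / 10 : ℝ) := Real.rpow_nonneg hlm0.le _
    have b5 : (3 / 64) / L * Real.exp (-(19 * L ^ (1 / 10 : ℝ))) * 2 ≤ (3 / 4) * (1 / (8 * L)) := by
      have h6 : Real.exp (-(19 * L ^ (1 / 10 : ℝ))) ≤ 1 := Real.exp_le_one_iff.2 (by linarith)
      have h9 : (3 / 64) / L * Real.exp (-(19 * L ^ (1 / 10 : ℝ))) * 2 =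
          (3 / 32) * (1 / L) * Real.exp (-(19 * L ^ (1 / 10 : ℝ))) := by ring
      have h10 : (3 / 4) * (1 / (8 * L)) = (3 / 32) * (1 / L) * 1 := by
        field_simp
        norm_num
      rw [h9, h10]
      gcongr
    calc (n : ℝ) ^ 2 * Real.exp (-(2 * Real.log n) ^ (1 / 5 : ℝ)) +
          (m : ℝ) ^ 2 * Real.exp (-(2 * L) ^ (1 / 5 : ℝ)) + 4 * (m * L)
        ≤ (n : ℝ) ^ 2 * Real.exp (-L ^ (1 / 5 : ℝ)) + (n : ℝ) ^ 2 * Real.exp (-L ^ (1 / 5 : ℝ)) +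
          4 * ((n : ℝ) ^ 2 * (L * Real.exp (-L))) := by gcongr
      _ = (n : ℝ) ^ 2 * (2 * Real.exp (-L ^ (1 / 5 : ℝ)) + 4 * (L * Real.exp (-L))) := by ring
      _ ≤ (n : ℝ) ^ 2 * ((3 / 4) * (1 / (8 * L))) :=
          mul_le_mul_of_nonneg_left (hM.trans b5) hy0
      _ = ((3 / 4) * (n : ℝ) ^ 2) * (1 / (8 * L)) := by ring
      _ ≤ ((n : ℝ) ^ 2 - (m : ℝ) ^ 2) * (1 / (8 * L)) := by gcongr

end Pool.Agent.Lib.H31W
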