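import Pool.Agent.Lib.H31W.R3
import Pool.Agent.Lib.H31W.R4

/-!
# Chunk S5 (S/M): `n` not bad is good
-/

open Finset

namespace Pool.Agent.Lib.H31W

private theorem S5_exp {n : ℕ} (hn : 3 ≤ n) :
    (n : ℝ) * Real.exp (-(9 * (Real.log n) ^ (1 / 10 : ℝ))) ≤ (n : ℝ) / 2 := by
  have hn3 : (3 : ℝ) ≤ n := by exact_mod_cast hn
  have h1 : (1 : ℝ) ≤ Real.log n := by
    rw [Real.le_log_iff_exp_le (by linarith)]
    have := Real.exp_one_lt_d9
    linarith
  have h2 : (1 : ℝ) ≤ (Real.log n) ^ (1 / 10 : ℝ) := Real.one_le_rpow h1 (by norm_num)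
  have h3 : Real.exp (-(9 * (Real.log n) ^ (1 / 10 : ℝ))) ≤ Real.exp (-1) :=
    Real.exp_le_exp.2 (by linarith)
  have h4 : Real.exp (-1) ≤ 1 / 2 := by
    rw [Real.exp_neg, ← one_div]
    apply one_div_le_one_div_of_le (by norm_num)
    have := Real.add_one_le_exp (1 : ℝ)
    linarith
  have h5 : (n : ℝ) * Real.exp (-(9 * (Real.log n) ^ (1 / 10 : ℝ))) ≤ n * (1 / 2) :=
    mul_le_mul_of_nonneg_left (h3.trans h4) (by linarith)
  linarith

/-- **Good `n`.** `m₀` = maximum of the constants of `crit` and `far`.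

Proof. `2 ≤ m < n`: if `m < m₀` then `small_m` (`n > N ≥ n₀`). Otherwise, if `n - m ≥ n exp (-9 (log n)^(1/10))` then
`far` and `crit`. Otherwise `n - m ≤ n/2` (`N` large), so `m ≥ N/2`, `m ≤ 2N`, and `¬ NearBad N n` gives `Cr m n`; `crit`.
`l > n`: the same with the pair `(n, l)`; `far`, or `l - n < l exp (-9 (log l)^(1/10)) ≤ l/2`, so `l < 2n ≤ 4N` and
`¬ NearBad N n` gives `Cr n l`. -/
theorem good_of (hP : PntProp) : ∃ N₀ : ℕ, ∀ N : ℕ, N₀ ≤ N → ∀ n ∈ Ioc N (2 * N),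
    ¬ NearBad N n → GoodN n := by
  obtain ⟨m₁, -, hcrit⟩ := crit hP
  obtain ⟨m₂, hfar⟩ := far hP
  obtain ⟨n₀, hsmall⟩ := small_m (max m₁ m₂)
  refine ⟨max (max n₀ 3) (max m₁ m₂), fun N hN n hn hbad => ?_⟩
  rw [Finset.mem_Ioc] at hn
  obtain ⟨hn1, hn2⟩ := hn
  have hN1 : max n₀ 3 ≤ N := (le_max_left _ _).trans hN
  have hN2 : max m₁ m₂ ≤ N := (le_max_right _ _).trans hN
  have hN3 : n₀ ≤ N := (le_max_left _ _).trans hN1
  have hN4 : 3 ≤ N := (le_max_right _ _).trans hN1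
  have hn1r : (N : ℝ) < n := by exact_mod_cast hn1
  have hn2r : (n : ℝ) ≤ 2 * N := by exact_mod_cast hn2
  have hNr : (3 : ℝ) ≤ N := by exact_mod_cast hN4
  refine ⟨fun m hm2 hmn => ?_, fun l hnl => ?_⟩
  · rcases lt_or_ge m (max m₁ m₂) with hm | hm
    · exact hsmall n (by omega) m hm2 hm
    · refine hcrit m n ((le_max_left _ _).trans hm) hmn ?_
      have hmnr : (m : ℝ) < n := by exact_mod_cast hmn
      rcases le_or_gt ((n : ℝ) * Real.exp (-(9 * (Real.log n) ^ (1 / 10 : ℝ)))) ((n : ℝ) - m) with h | h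
      · exact hfar m n ((le_max_right _ _).trans hm) hmn h
      · by_contra hc
        have h1 := S5_exp (n := n) (by omega)
        exact hbad ⟨m, by linarith, by linarith, Or.inl ⟨hmn, h, hc⟩⟩
  · refine hcrit n l ((le_max_left _ _).trans (hN2.trans hn1.le)) hnl ?_
    have hnlr : (n : ℝ) < l := by exact_mod_cast hnl
    rcases le_or_gt ((l : ℝ) * Real.exp (-(9 * (Real.log l) ^ (1 / 10 : ℝ)))) ((l : ℝ) - n) with h | h
    · exact hfar n l ((le_max_right _ _).trans (hN2.trans hn1.le)) hnl h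
    · by_contra hc
      have h1 := S5_exp (n := l) (by omega)
      exact hbad ⟨l, by linarith, by linarith, Or.inr ⟨hnl, h, hc⟩⟩

end Pool.Agent.Lib.H31W
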