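import Pool.Agent.Lib.H31W.Defs

/-!
# Chunk Q1 (M): divisor sums, elementary bounds
-/

open Finset

namespace Pool.Agent.Lib.H31W

open ArithmeticFunction (vonMangoldt moebius)

private lemma Q1_Icc (x : ℕ) : Icc 1 x = Ioc 0 x := by
  ext a
  simp only [mem_Icc, mem_Ioc]
  omega

private lemma Q1_hyp (G : ℕ → ℕ → ℝ) (x : ℕ) :
    ∑ k ∈ Icc 1 x, ∑ p ∈ k.divisorsAntidiagonal, G p.1 p.2 =
      ∑ a ∈ Icc 1 x, ∑ b ∈ Icc 1 (x / a), G a b := by
  simp only [Q1_Icc]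
  have h1 : ∑ k ∈ Ioc 0 x, ∑ p ∈ k.divisorsAntidiagonal, G p.1 p.2 =
      ∑ k ∈ Ioc 0 x, ∑ p ∈ (Ioc 0 x ×ˢ Ioc 0 x).filter (fun p => p.1 * p.2 = k), G p.1 p.2 := by
    refine sum_congr rfl fun n hn => ?_
    rw [mem_Ioc] at hn
    rw [Nat.divisorsAntidiagonal_eq_prod_filter_of_le (by omega) hn.2]
  have h2 : ∑ k ∈ Ioc 0 x, ∑ p ∈ (Ioc 0 x ×ˢ Ioc 0 x).filter (fun p => p.1 * p.2 = k), G p.1 p.2 =
      ∑ p ∈ (Ioc 0 x ×ˢ Ioc 0 x).filter (fun p => p.1 * p.2 ≤ x), G p.1 p.2 := by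
    have h3 := Finset.sum_fiberwise_of_maps_to
      (s := (Ioc 0 x ×ˢ Ioc 0 x).filter (fun p => p.1 * p.2 ≤ x)) (t := Ioc 0 x)
      (g := fun p : ℕ × ℕ => p.1 * p.2) (by
        intro p hp
        simp only [mem_filter, mem_product, mem_Ioc] at hp ⊢
        exact ⟨Nat.mul_pos hp.1.1.1 hp.1.2.1, hp.2⟩) (fun p : ℕ × ℕ => G p.1 p.2)
    rw [← h3]
    refine sum_congr rfl fun k hk => ?_
    refine sum_congr ?_ fun _ _ => rfl
    rw [mem_Ioc] at hk
    ext p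
    simp only [mem_filter, mem_product, mem_Ioc]
    constructor
    · rintro ⟨h4, h5⟩
      exact ⟨⟨h4, by omega⟩, h5⟩
    · rintro ⟨⟨h4, _⟩, h5⟩
      exact ⟨h4, h5⟩
  rw [h1, h2, sum_filter, sum_product]
  refine sum_congr rfl fun a ha => ?_
  rw [mem_Ioc] at ha
  rw [← sum_filter]
  refine sum_congr ?_ fun _ _ => rfl
  ext b
  simp only [mem_filter, mem_Ioc]
  constructor
  · rintro ⟨⟨h4, _⟩, h5⟩
    exact ⟨h4, by rw [Nat.le_div_iff_mul_le ha.1, mul_comm]; exact h5⟩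
  · rintro ⟨h4, h5⟩
    rw [Nat.le_div_iff_mul_le ha.1, mul_comm] at h5
    refine ⟨⟨h4, ?_⟩, h5⟩
    calc b ≤ a * b := Nat.le_mul_of_pos_left b ha.1
      _ ≤ x := h5

private lemma Q1_card (k : ℕ) (c : ℝ) :
    ∑ _p ∈ k.divisorsAntidiagonal, c = (k.divisors.card : ℝ) * c := by
  have h := Nat.sum_divisorsAntidiagonal (fun _ _ => c) (n := k)
  rw [h, sum_const, nsmul_eq_mul]

private lemma Q1_harm (x : ℕ) : ∑ a ∈ Icc 1 x, (1 : ℝ) / a ≤ 1 + Real.log x := by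
  have h := harmonic_le_one_add_log x
  rw [harmonic_eq_sum_Icc] at h
  push_cast at h
  simpa [one_div] using h

private lemma Q1_sum_d (y : ℕ) : ∑ b ∈ Icc 1 y, (b.divisors.card : ℝ) ≤ y * (1 + Real.log y) := by
  have h1 : ∑ b ∈ Icc 1 y, (b.divisors.card : ℝ) =
      ∑ b ∈ Icc 1 y, ∑ p ∈ b.divisorsAntidiagonal, (fun _ _ => (1 : ℝ)) p.1 p.2 := by
    refine sum_congr rfl fun b _ => ?_
    rw [Q1_card, mul_one]
  rw [h1]
  refine le_trans (le_of_eq (Q1_hyp (fun _ _ => (1 : ℝ)) y)) ?_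
  have h2 : ∀ c ∈ Icc 1 y, ∑ b ∈ Icc 1 (y / c), (1 : ℝ) ≤ y * (1 / (c : ℝ)) := by
    intro c _
    rw [sum_const, Nat.card_Icc, nsmul_eq_mul, mul_one]
    have h3 : ((y / c + 1 - 1 : ℕ) : ℝ) ≤ (y : ℝ) / c := by
      rw [Nat.add_sub_cancel]
      exact Nat.cast_div_le
    rw [mul_one_div]
    exact h3
  calc ∑ c ∈ Icc 1 y, ∑ b ∈ Icc 1 (y / c), (1 : ℝ) ≤ ∑ c ∈ Icc 1 y, (y : ℝ) * (1 / (c : ℝ)) :=
        sum_le_sum h2
    _ = y * ∑ c ∈ Icc 1 y, (1 : ℝ) / c := by rw [mul_sum]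
    _ ≤ y * (1 + Real.log y) := mul_le_mul_of_nonneg_left (Q1_harm y) (Nat.cast_nonneg y)

open scoped Pointwise in
private lemma Q1_dmul (a b : ℕ) : ((a * b).divisors.card : ℝ) ≤ a.divisors.card * b.divisors.card := by
  rw [Nat.divisors_mul]
  have h : (a.divisors * b.divisors).card ≤ a.divisors.card * b.divisors.card := Finset.card_mul_le
  exact_mod_cast h

/-- `∑_{k ≤ x} d(k)/k ≤ (∑_{a ≤ x} 1/a)² ≤ (1 + log x)²` (`k = ab`). -/
theorem sum_d_div (x : ℕ) (hx : 1 ≤ x) :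
    ∑ k ∈ Icc 1 x, ((k.divisors.card : ℝ)) / k ≤ (1 + Real.log x) ^ 2 := by
  have h1 : ∑ k ∈ Icc 1 x, ((k.divisors.card : ℝ)) / k =
      ∑ k ∈ Icc 1 x, ∑ p ∈ k.divisorsAntidiagonal, (fun a b : ℕ => (1 : ℝ) / a * (1 / b)) p.1 p.2 := by
    refine sum_congr rfl fun k _ => ?_
    have h2 : ∑ p ∈ k.divisorsAntidiagonal, (fun a b : ℕ => (1 : ℝ) / a * (1 / b)) p.1 p.2 =
        ∑ _p ∈ k.divisorsAntidiagonal, (1 : ℝ) / k := by
      refine sum_congr rfl fun p hp => ?_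
      rw [Nat.mem_divisorsAntidiagonal] at hp
      rw [← hp.1]
      push_cast
      rw [div_mul_div_comm, one_mul]
    rw [h2, Q1_card, mul_one_div]
  rw [h1, sq]
  refine le_trans (le_of_eq (Q1_hyp (fun a b : ℕ => (1 : ℝ) / a * (1 / b)) x)) ?_
  have hnn : ∀ a : ℕ, (0 : ℝ) ≤ 1 / a := fun a => by positivity
  calc ∑ a ∈ Icc 1 x, ∑ b ∈ Icc 1 (x / a), (1 : ℝ) / a * (1 / b)
      ≤ ∑ a ∈ Icc 1 x, (1 : ℝ) / a * (1 + Real.log x) := by
        refine sum_le_sum fun a ha => ?_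
        rw [← mul_sum]
        refine mul_le_mul_of_nonneg_left ?_ (hnn a)
        refine le_trans (sum_le_sum_of_subset_of_nonneg ?_ fun b _ _ => hnn b) (Q1_harm x)
        exact Icc_subset_Icc_right (Nat.div_le_self x a)
    _ = (∑ a ∈ Icc 1 x, (1 : ℝ) / a) * (1 + Real.log x) := by rw [sum_mul]
    _ ≤ (1 + Real.log x) * (1 + Real.log x) := by
        refine mul_le_mul_of_nonneg_right (Q1_harm x) ?_
        have : 0 ≤ Real.log x := Real.log_natCast_nonneg x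
        linarith

/-- `∑_{k ≤ x} d(k)² = ∑_{k ≤ x} ∑_{a ∣ k} d(k) = ∑_{a ≤ x} ∑_{b ≤ x/a} d(ab) ≤ ∑_{a ≤ x} d(a) ∑_{b ≤ x/a} d(b)`,
`d(ab) ≤ d(a) d(b)`, `∑_{b ≤ y} d(b) = ∑_{c ≤ y} ⌊y/c⌋ ≤ y (1 + log y)`, and `sum_d_div`. -/
theorem sum_dsq (x : ℕ) (hx : 1 ≤ x) :
    ∑ k ∈ Icc 1 x, ((k.divisors.card : ℝ)) ^ 2 ≤ x * (1 + Real.log x) ^ 3 := by
  have hL : 0 ≤ Real.log x := Real.log_natCast_nonneg x
  have h1 : ∀ k ∈ Icc 1 x, ((k.divisors.card : ℝ)) ^ 2 ≤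
      ∑ p ∈ k.divisorsAntidiagonal, (fun a b : ℕ => (a.divisors.card : ℝ) * b.divisors.card) p.1 p.2 := by
    intro k _
    have h2 : ((k.divisors.card : ℝ)) ^ 2 = ∑ _p ∈ k.divisorsAntidiagonal, (k.divisors.card : ℝ) := by
      rw [Q1_card, sq]
    rw [h2]
    refine sum_le_sum fun p hp => ?_
    rw [Nat.mem_divisorsAntidiagonal] at hp
    rw [← hp.1]
    exact Q1_dmul _ _
  refine le_trans (sum_le_sum h1) ?_
  refine le_trans (le_of_eq (Q1_hyp (fun a b : ℕ => (a.divisors.card : ℝ) * b.divisors.card) x)) ?_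
  calc ∑ a ∈ Icc 1 x, ∑ b ∈ Icc 1 (x / a), (a.divisors.card : ℝ) * b.divisors.card
      ≤ ∑ a ∈ Icc 1 x, (x * (1 + Real.log x)) * ((a.divisors.card : ℝ) / a) := by
        refine sum_le_sum fun a ha => ?_
        rw [mem_Icc] at ha
        have ha0 : (0 : ℝ) < a := by exact_mod_cast ha.1
        rw [← mul_sum]
        have h3 := Q1_sum_d (x / a)
        have h4 : ((x / a : ℕ) : ℝ) ≤ (x : ℝ) / a := Nat.cast_div_le
        have h5 : Real.log ((x / a : ℕ) : ℝ) ≤ Real.log x := by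
          rcases Nat.eq_zero_or_pos (x / a) with h0 | h0
          · rw [h0]
            simp [hL]
          · exact Real.log_le_log (by exact_mod_cast h0) (by exact_mod_cast Nat.div_le_self x a)
        have h5' : 0 ≤ Real.log ((x / a : ℕ) : ℝ) := Real.log_natCast_nonneg _
        have h6 : ((x / a : ℕ) : ℝ) * (1 + Real.log ((x / a : ℕ) : ℝ)) ≤ (x : ℝ) / a * (1 + Real.log x) :=
          mul_le_mul h4 (by linarith) (by linarith) (by positivity)
        calc (a.divisors.card : ℝ) * ∑ b ∈ Icc 1 (x / a), (b.divisors.card : ℝ)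
            ≤ (a.divisors.card : ℝ) * ((x : ℝ) / a * (1 + Real.log x)) :=
              mul_le_mul_of_nonneg_left (h3.trans h6) (Nat.cast_nonneg _)
          _ = (x * (1 + Real.log x)) * ((a.divisors.card : ℝ) / a) := by ring
    _ = (x * (1 + Real.log x)) * ∑ a ∈ Icc 1 x, (a.divisors.card : ℝ) / a := by rw [mul_sum]
    _ ≤ (x * (1 + Real.log x)) * (1 + Real.log x) ^ 2 := by
        refine mul_le_mul_of_nonneg_left (sum_d_div x hx) ?_
        positivity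
    _ = x * (1 + Real.log x) ^ 3 := by ring

theorem bet_le (V : ℝ) (k : ℕ) : |bet V k| ≤ k.divisors.card := by
  unfold bet
  refine le_trans (abs_sum_le_sum_abs _ _) ?_
  refine le_trans (sum_le_sum (g := fun _ => (1 : ℝ)) fun d _ => ?_) ?_
  · have h := ArithmeticFunction.abs_moebius_le_one (n := d)
    have h2 : ((|moebius d| : ℤ) : ℝ) ≤ ((1 : ℤ) : ℝ) := by exact_mod_cast h
    push_cast at h2
    exact h2
  · rw [sum_const, nsmul_eq_mul, mul_one]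
    exact_mod_cast card_filter_le _ _

/-- If `bet V k ≠ 0` then `V < k` (a divisor `d > V` of `k ≥ 1`). -/
theorem bet_zero (V : ℝ) (k : ℕ) (h : bet V k ≠ 0) : V < k := by
  by_contra hcon
  apply h
  unfold bet
  apply sum_eq_zero
  intro d hd
  rw [mem_filter, Nat.mem_divisors] at hd
  exfalso
  apply hcon
  have h1 : (d : ℝ) ≤ k := by exact_mod_cast Nat.le_of_dvd (Nat.pos_of_ne_zero hd.1.2) hd.1.1
  linarith [hd.2]

/-- `|gam U V c| ≤ ∑_{m ∣ c} Λ(m) = log c` (`ArithmeticFunction.vonMangoldt_sum`); `gam U V 0 = 0` since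
`divisorsAntidiagonal 0 = ∅`. -/
theorem gam_le (U V : ℝ) (c : ℕ) : |gam U V c| ≤ Real.log c := by
  unfold gam conv
  refine le_trans (abs_sum_le_sum_abs _ _) ?_
  have h1 : ∀ p ∈ c.divisorsAntidiagonal,
      |cut (fun n => vonMangoldt n) 0 U p.1 * cut (fun n => (moebius n : ℝ)) 0 V p.2| ≤
        (fun a _ : ℕ => (vonMangoldt a : ℝ)) p.1 p.2 := by
    intro p _
    rw [abs_mul]
    have h2 : |cut (fun n => vonMangoldt n) 0 U p.1| ≤ vonMangoldt p.1 := by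
      unfold cut
      split_ifs
      · rw [abs_of_nonneg ArithmeticFunction.vonMangoldt_nonneg]
      · rw [abs_zero]
        exact ArithmeticFunction.vonMangoldt_nonneg
    have h3 : |cut (fun n => (moebius n : ℝ)) 0 V p.2| ≤ 1 := by
      unfold cut
      split_ifs
      · have h := ArithmeticFunction.abs_moebius_le_one (n := p.2)
        have h2 : ((|moebius p.2| : ℤ) : ℝ) ≤ ((1 : ℤ) : ℝ) := by exact_mod_cast h
        push_cast at h2
        exact h2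
      · rw [abs_zero]
        exact zero_le_one
    calc |cut (fun n => vonMangoldt n) 0 U p.1| * |cut (fun n => (moebius n : ℝ)) 0 V p.2|
        ≤ vonMangoldt p.1 * 1 := mul_le_mul h2 h3 (abs_nonneg _) ArithmeticFunction.vonMangoldt_nonneg
      _ = vonMangoldt p.1 := mul_one _
  refine le_trans (sum_le_sum h1) ?_
  rw [Nat.sum_divisorsAntidiagonal (fun a _ : ℕ => (vonMangoldt a : ℝ)), ArithmeticFunction.vonMangoldt_sum]

theorem gam_zero (U V : ℝ) (hU : 0 ≤ U) (hV : 0 ≤ V) (c : ℕ) (h : U * V < c) : gam U V c = 0 := by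
  unfold gam conv
  apply sum_eq_zero
  intro p hp
  rw [Nat.mem_divisorsAntidiagonal] at hp
  unfold cut
  by_cases h1 : (0 : ℝ) < p.1 ∧ (p.1 : ℝ) ≤ U
  · by_cases h2 : (0 : ℝ) < p.2 ∧ (p.2 : ℝ) ≤ V
    · exfalso
      have h3 : (c : ℝ) = (p.1 : ℝ) * p.2 := by
        rw [← hp.1]
        push_cast
        rfl
      have h4 : (p.1 : ℝ) * p.2 ≤ U * V := mul_le_mul h1.2 h2.2 h2.1.le hU
      linarith
    · rw [if_neg h2, mul_zero]
  · rw [if_neg h1, zero_mul]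

/-- At most `M + 1 ≤ 2M` integers in `(M, 2M]`, each `Λ(m) ≤ log m ≤ log (2M)`. -/
theorem sum_lam_sq (M : ℝ) (hM : 1 ≤ M) :
    ∑ m ∈ Icc 1 ⌊2 * M⌋₊, (cut (fun n => vonMangoldt n) M (2 * M) m) ^ 2 ≤
      (2 * Real.log (2 * M) ^ 2) * M := by
  have hlog : 0 ≤ Real.log (2 * M) := Real.log_nonneg (by linarith)
  have h1 : ∀ m ∈ Icc 1 ⌊2 * M⌋₊, (cut (fun n => vonMangoldt n) M (2 * M) m) ^ 2 ≤
      Real.log (2 * M) ^ 2 := by
    intro m hm
    rw [mem_Icc] at hm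
    unfold cut
    split_ifs with hc
    · have h2 : vonMangoldt m ≤ Real.log (2 * M) := by
        refine le_trans ArithmeticFunction.vonMangoldt_le_log ?_
        exact Real.log_le_log (by exact_mod_cast hm.1) hc.2
      exact pow_le_pow_left₀ ArithmeticFunction.vonMangoldt_nonneg h2 2
    · rw [zero_pow (by norm_num)]
      positivity
  refine le_trans (sum_le_sum h1) ?_
  rw [sum_const, Nat.card_Icc, nsmul_eq_mul, Nat.add_sub_cancel]
  have h3 : ((⌊2 * M⌋₊ : ℕ) : ℝ) ≤ 2 * M := Nat.floor_le (by linarith)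
  have h4 := mul_le_mul_of_nonneg_right h3 (sq_nonneg (Real.log (2 * M)))
  linarith

theorem sum_lam_div (M : ℝ) (hM : 1 ≤ M) (N : ℕ) :
    ∑ m ∈ Icc 1 N, |cut (fun n => vonMangoldt n) M (2 * M) m| / m ≤ 2 * Real.log (2 * M) := by
  have hlog : 0 ≤ Real.log (2 * M) := Real.log_nonneg (by linarith)
  have hM0 : 0 < M := by linarith
  have h1 : ∑ m ∈ Icc 1 N, |cut (fun n => vonMangoldt n) M (2 * M) m| / m =
      ∑ m ∈ (Icc 1 N).filter (fun m : ℕ => M < m ∧ (m : ℝ) ≤ 2 * M),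
        |cut (fun n => vonMangoldt n) M (2 * M) m| / m := by
    rw [sum_filter]
    refine sum_congr rfl fun m _ => ?_
    split_ifs with hc
    · rfl
    · unfold cut
      rw [if_neg hc, abs_zero, zero_div]
  have h2 : ∀ m ∈ (Icc 1 N).filter (fun m : ℕ => M < m ∧ (m : ℝ) ≤ 2 * M),
      |cut (fun n => vonMangoldt n) M (2 * M) m| / m ≤ Real.log (2 * M) / M := by
    intro m hm
    rw [mem_filter, mem_Icc] at hm
    obtain ⟨⟨hm1, _⟩, hc⟩ := hm
    unfold cut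
    rw [if_pos hc, abs_of_nonneg ArithmeticFunction.vonMangoldt_nonneg]
    have h3 : vonMangoldt m ≤ Real.log (2 * M) := by
      refine le_trans ArithmeticFunction.vonMangoldt_le_log ?_
      exact Real.log_le_log (by exact_mod_cast hm1) hc.2
    exact div_le_div₀ hlog h3 hM0 hc.1.le
  rw [h1]
  refine le_trans (sum_le_sum h2) ?_
  rw [sum_const, nsmul_eq_mul]
  have h4 : ((Icc 1 N).filter (fun m : ℕ => M < m ∧ (m : ℝ) ≤ 2 * M)).card ≤ ⌊2 * M⌋₊ := by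
    have h5 : (Icc 1 N).filter (fun m : ℕ => M < m ∧ (m : ℝ) ≤ 2 * M) ⊆ Icc 1 ⌊2 * M⌋₊ := by
      intro m hm
      rw [mem_filter, mem_Icc] at hm
      rw [mem_Icc]
      exact ⟨hm.1.1, Nat.le_floor hm.2.2⟩
    have h6 := card_le_card h5
    rw [Nat.card_Icc, Nat.add_sub_cancel] at h6
    exact h6
  have h7 : (((Icc 1 N).filter (fun m : ℕ => M < m ∧ (m : ℝ) ≤ 2 * M)).card : ℝ) ≤ 2 * M :=
    le_trans (by exact_mod_cast h4) (Nat.floor_le (by linarith))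
  calc (((Icc 1 N).filter (fun m : ℕ => M < m ∧ (m : ℝ) ≤ 2 * M)).card : ℝ) * (Real.log (2 * M) / M)
      ≤ (2 * M) * (Real.log (2 * M) / M) := mul_le_mul_of_nonneg_right h7 (by positivity)
    _ = 2 * Real.log (2 * M) := by field_simp

end Pool.Agent.Lib.H31W
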