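import Pool.Agent.Lib.H31W.Defs

/-!
# Chunk Q3 (S/M): convolutions
-/

open Finset

namespace Pool.Agent.Lib.H31W

private theorem Q3_main {E : Type*} [AddCommMonoid E] (F : ℕ → ℕ → E) (A B C : ℕ)
    (h : ∀ c d, C < c → F c d = 0) :
    ∑ n ∈ Ioc A B, ∑ x ∈ n.divisorsAntidiagonal, F x.1 x.2 =
      ∑ c ∈ Icc 1 C, ∑ d ∈ Ioc (A / c) (B / c), F c d := by
  rw [Finset.sum_sigma', Finset.sum_sigma']
  symm
  refine Finset.sum_of_injOn (fun y : (_ : ℕ) × ℕ => (⟨y.1 * y.2, (y.1, y.2)⟩ : (_ : ℕ) × ℕ × ℕ))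
    ?_ ?_ ?_ ?_
  · rintro ⟨c, d⟩ _ ⟨c', d'⟩ _ hcd
    simp only [Sigma.mk.injEq, heq_eq_eq, Prod.mk.injEq] at hcd
    obtain ⟨_, h1, h2⟩ := hcd
    subst h1
    subst h2
    rfl
  · rintro ⟨c, d⟩ hcd
    simp only [Finset.coe_sigma, Set.mem_sigma_iff, Finset.mem_coe, Finset.mem_Icc,
      Finset.mem_Ioc] at hcd
    simp only [Finset.coe_sigma, Set.mem_sigma_iff, Finset.mem_coe, Finset.mem_Ioc,
      Nat.mem_divisorsAntidiagonal]
    obtain ⟨⟨hc1, hc2⟩, hd1, hd2⟩ := hcd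
    have hc : 0 < c := hc1
    rw [Nat.div_lt_iff_lt_mul hc] at hd1
    rw [Nat.le_div_iff_mul_le hc] at hd2
    rw [mul_comm] at hd1 hd2
    refine ⟨⟨hd1, hd2⟩, trivial, ?_⟩
    omega
  · rintro ⟨n, a, b⟩ hn hni
    simp only [Finset.mem_sigma, Finset.mem_Ioc, Nat.mem_divisorsAntidiagonal] at hn
    obtain ⟨⟨h1, h2⟩, h3, h4⟩ := hn
    by_cases ha : C < a
    · exact h a b ha
    · exfalso
      apply hni
      have ha0 : 0 < a := by
        rcases Nat.eq_zero_or_pos a with h5 | h5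
        · exfalso
          apply h4
          rw [← h3, h5, zero_mul]
        · exact h5
      refine ⟨⟨a, b⟩, ?_, ?_⟩
      · simp only [Finset.coe_sigma, Set.mem_sigma_iff, Finset.mem_coe, Finset.mem_Icc,
          Finset.mem_Ioc]
        rw [Nat.div_lt_iff_lt_mul ha0, Nat.le_div_iff_mul_le ha0, mul_comm b a, h3]
        exact ⟨⟨ha0, not_lt.1 ha⟩, h1, h2⟩
      · show (⟨a * b, (a, b)⟩ : (_ : ℕ) × ℕ × ℕ) = ⟨n, (a, b)⟩
        rw [h3]
  · rintro ⟨c, d⟩ _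
    rfl

theorem conv_zero (f g : ℕ → ℝ) (Nf Ng : ℕ) (hf : ∀ n, Nf < n → f n = 0) (hg : ∀ n, Ng < n → g n = 0)
    (n : ℕ) (hn : Nf * Ng < n) : conv f g n = 0 := by
  refine Finset.sum_eq_zero fun x hx => ?_
  rw [Nat.mem_divisorsAntidiagonal] at hx
  by_cases h1 : Nf < x.1
  · rw [hf _ h1, zero_mul]
  · by_cases h2 : Ng < x.2
    · rw [hg _ h2, mul_zero]
    · exfalso
      have h3 := Nat.mul_le_mul (not_lt.1 h1) (not_lt.1 h2)
      rw [hx.1] at h3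
      omega

/-- The Dirichlet polynomial of a convolution is the product. Sum over `n ∈ Icc 1 N` and
`(a, b) ∈ n.divisorsAntidiagonal` = sum over all pairs `(a, b)` with `1 ≤ a, b`, `ab ≤ N`
(`Finset.sum_sigma'`, `Nat.sum_divisorsAntidiagonal`...), only `a ≤ Nf`, `b ≤ Ng` count;
`(ab)^(-s) = a^(-s) b^(-s)`. -/
theorem DD_conv (f g : ℕ → ℝ) (Nf Ng N : ℕ) (hf : ∀ n, Nf < n → f n = 0)
    (hg : ∀ n, Ng < n → g n = 0) (h : Nf * Ng ≤ N) (t : ℝ) :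
    DD (conv f g) N t = DD f Nf t * DD g Ng t := by
  unfold DD
  set s : ℂ := -(1 + (t : ℂ) * Complex.I) with hs
  have h1 : ∀ n : ℕ, (conv f g n : ℂ) * (n : ℂ) ^ s = ∑ x ∈ n.divisorsAntidiagonal,
      ((f x.1 : ℂ) * (x.1 : ℂ) ^ s) * ((g x.2 : ℂ) * (x.2 : ℂ) ^ s) := by
    intro n
    unfold conv
    rw [Complex.ofReal_sum, Finset.sum_mul]
    refine Finset.sum_congr rfl fun x hx => ?_
    rw [Nat.mem_divisorsAntidiagonal] at hx
    rw [← hx.1, Nat.cast_mul, Complex.natCast_mul_natCast_cpow, Complex.ofReal_mul]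
    ring
  rw [Finset.sum_congr rfl fun n _ => h1 n]
  have h2 : Icc 1 N = Ioc 0 N := rfl
  rw [h2, Q3_main (fun c d => ((f c : ℂ) * (c : ℂ) ^ s) * ((g d : ℂ) * (d : ℂ) ^ s)) 0 N Nf
    (fun c d hc => by rw [hf c hc]; simp), Finset.sum_mul]
  refine Finset.sum_congr rfl fun c hc => ?_
  rw [Finset.mem_Icc] at hc
  rw [← Finset.mul_sum, Nat.zero_div]
  congr 1
  symm
  refine Finset.sum_subset ?_ ?_
  · intro d hd
    rw [Finset.mem_Icc] at hd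
    rw [Finset.mem_Ioc]
    refine ⟨hd.1, ?_⟩
    have hc0 : 0 < c := hc.1
    rw [Nat.le_div_iff_mul_le hc0]
    calc d * c ≤ Ng * Nf := Nat.mul_le_mul hd.2 hc.2
      _ = Nf * Ng := mul_comm _ _
      _ ≤ N := h
  · intro d hd hd2
    rw [Finset.mem_Ioc] at hd
    rw [Finset.mem_Icc, not_and_or] at hd2
    have hd3 : Ng < d := by
      rcases hd2 with h3 | h3
      · exact absurd hd.1 h3
      · exact not_le.1 h3
    rw [hg d hd3]
    simp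

/-- `av (f * g)(u) = ∑_c (f(c)/c) av g (u - log c)`: `∑_{e^u < n ≤ e^(u+η)} (1/n) ∑_{cd = n} f(c) g(d)
= ∑_c (f(c)/c) ∑_{e^u/c < d ≤ e^(u+η)/c} g(d)/d`, `e^(u - log c) = e^u/c`. -/
theorem av_conv (f g : ℕ → ℝ) (C : ℕ) (hf : ∀ n, C < n → f n = 0) (η u : ℝ) :
    av (conv f g) η u = ∑ c ∈ Icc 1 C, f c / c * av g η (u - Real.log c) := by
  unfold av
  have h1 : ∀ n : ℕ, conv f g n / (n : ℝ) = ∑ x ∈ n.divisorsAntidiagonal,
      (f x.1 / (x.1 : ℝ)) * (g x.2 / (x.2 : ℝ)) := by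
    intro n
    unfold conv
    rw [Finset.sum_div]
    refine Finset.sum_congr rfl fun x hx => ?_
    rw [Nat.mem_divisorsAntidiagonal] at hx
    rw [← hx.1, Nat.cast_mul, mul_div_mul_comm]
  rw [Finset.sum_congr rfl fun n _ => h1 n,
    Q3_main (fun c d => (f c / (c : ℝ)) * (g d / (d : ℝ))) _ _ C
    (fun c d hc => by rw [hf c hc]; simp), Finset.mul_sum]
  refine Finset.sum_congr rfl fun c hc => ?_
  rw [Finset.mem_Icc] at hc
  have hc0 : (0 : ℝ) < (c : ℝ) := by exact_mod_cast hc.1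
  have h2 : ∀ v : ℝ, ⌊Real.exp (v - Real.log c)⌋₊ = ⌊Real.exp v⌋₊ / c := by
    intro v
    rw [Real.exp_sub, Real.exp_log hc0, Nat.floor_div_natCast]
  rw [h2, show u - Real.log c + η = (u + η) - Real.log c by ring, h2, ← Finset.mul_sum]
  ring

end Pool.Agent.Lib.H31W
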