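import Pool.Agent.Lib.H31W.P1

/-!
# Chunk P2 (M/L): Plancherel for the averages `av`
-/

open Finset MeasureTheory FourierTransform

namespace Pool.Agent.Lib.H31W

/-- The indicator of `log n - η ≤ u < log n`. -/
private noncomputable def p2Box (n : ℕ) (η u : ℝ) : ℝ :=
  Set.indicator (Set.Ico (Real.log n - η) (Real.log n)) (fun _ => (1 : ℝ)) u

private theorem p2_av (f : ℕ → ℝ) (N : ℕ) (hf : ∀ n, N < n → f n = 0) (η u : ℝ) :
    av f η u = ∑ n ∈ Icc 1 N, (f n / n) * (1 / η * p2Box n η u) := by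
  have h2 : ∑ n ∈ Icc 1 N, (f n / n) * p2Box n η u =
      ∑ n ∈ (Icc 1 N).filter (fun n => n ∈ Ioc ⌊Real.exp u⌋₊ ⌊Real.exp (u + η)⌋₊), f n / n := by
    rw [Finset.sum_filter]
    refine sum_congr rfl fun n hn => ?_
    have hn1 : 1 ≤ n := (Finset.mem_Icc.mp hn).1
    have hiff : n ∈ Ioc ⌊Real.exp u⌋₊ ⌊Real.exp (u + η)⌋₊ ↔
        u ∈ Set.Ico (Real.log n - η) (Real.log n) := by
      have hnpos : (0 : ℝ) < n := by exact_mod_cast hn1
      rw [Finset.mem_Ioc, Nat.floor_lt (Real.exp_pos u).le, Nat.le_floor_iff (Real.exp_pos _).le,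
        Set.mem_Ico, Real.lt_log_iff_exp_lt hnpos, sub_le_iff_le_add,
        Real.log_le_iff_le_exp hnpos]
      exact and_comm
    rw [p2Box]
    by_cases hh : n ∈ Ioc ⌊Real.exp u⌋₊ ⌊Real.exp (u + η)⌋₊
    · rw [if_pos hh, Set.indicator_of_mem (hiff.mp hh), mul_one]
    · rw [if_neg hh, Set.indicator_of_notMem (fun h => hh (hiff.mpr h)), mul_zero]
  have h1 : ∑ n ∈ Ioc ⌊Real.exp u⌋₊ ⌊Real.exp (u + η)⌋₊, f n / n =
      ∑ n ∈ Icc 1 N, (f n / n) * p2Box n η u := by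
    rw [h2]
    symm
    apply Finset.sum_subset
    · intro n hn
      exact (Finset.mem_filter.mp hn).2
    · intro n hn hnn
      have hn0 : 1 ≤ n := by
        have := (Finset.mem_Ioc.mp hn).1
        omega
      have hN : N < n := by
        by_contra hcon
        exact hnn (Finset.mem_filter.mpr ⟨Finset.mem_Icc.mpr ⟨hn0, not_lt.mp hcon⟩, hn⟩)
      rw [hf n hN, zero_div]
  rw [av, h1, Finset.mul_sum]
  exact sum_congr rfl fun n _ => by ring

private theorem p2_box_int (n : ℕ) (η : ℝ) : Integrable (fun u => (p2Box n η u : ℂ)) := by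
  have h1 : Integrable (fun u => p2Box n η u) := by
    unfold p2Box
    rw [integrable_indicator_iff measurableSet_Ico]
    exact integrableOn_const (by simp)
  exact h1.ofReal

private theorem p2_box_le (n : ℕ) (η u : ℝ) : |p2Box n η u| ≤ 1 := by
  unfold p2Box
  by_cases h : u ∈ Set.Ico (Real.log n - η) (Real.log n)
  · rw [Set.indicator_of_mem h]
    simp
  · rw [Set.indicator_of_notMem h]
    simp

/-- The Fourier transform of the indicator. -/
private theorem p2_box_fourier (n : ℕ) (hn : 1 ≤ n) (η ξ : ℝ) (hη : 0 < η) :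
    (1 / (η : ℂ)) * ∫ v : ℝ, Complex.exp (↑(-2 * Real.pi * v * ξ) * Complex.I) * (p2Box n η v : ℂ) =
      (n : ℂ) ^ (-((2 * Real.pi * ξ : ℝ) : ℂ) * Complex.I) * mm η (2 * Real.pi * ξ) := by
  have h1 : (∫ v : ℝ, Complex.exp (↑(-2 * Real.pi * v * ξ) * Complex.I) * (p2Box n η v : ℂ)) =
      ∫ v in (Real.log n - η)..(Real.log n),
        Complex.exp (↑(-2 * Real.pi * v * ξ) * Complex.I) := by
    rw [intervalIntegral.integral_of_le (by linarith), ← integral_Ico_eq_integral_Ioc,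
      ← integral_indicator measurableSet_Ico]
    congr 1
    funext v
    unfold p2Box
    by_cases h : v ∈ Set.Ico (Real.log n - η) (Real.log n)
    · rw [Set.indicator_of_mem h, Set.indicator_of_mem h]
      simp
    · rw [Set.indicator_of_notMem h, Set.indicator_of_notMem h]
      simp
  have h2 := intervalIntegral.integral_comp_sub_mul (a := 0) (b := 1) (c := η)
    (fun v : ℝ => Complex.exp (↑(-2 * Real.pi * v * ξ) * Complex.I)) hη.ne' (Real.log n)
  rw [mul_zero, mul_one, sub_zero] at h2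
  have h3 : (1 / (η : ℂ)) * ∫ v : ℝ, Complex.exp (↑(-2 * Real.pi * v * ξ) * Complex.I) *
      (p2Box n η v : ℂ) =
      ∫ x in (0 : ℝ)..1, Complex.exp (↑(-2 * Real.pi * (Real.log n - η * x) * ξ) * Complex.I) := by
    rw [h1, h2, Complex.real_smul, Complex.ofReal_inv, one_div]
  rw [h3, mm, ← intervalIntegral.integral_const_mul]
  congr 1
  funext x
  have hn0 : (n : ℂ) ≠ 0 := by
    exact_mod_cast (by omega : n ≠ 0)
  rw [Complex.cpow_def_of_ne_zero hn0, ← Complex.exp_add]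
  congr 1
  rw [← Complex.natCast_log]
  push_cast
  ring

/-- **Plancherel for the averages.** `f` vanishes beyond `N`.

Proof. For `n ≥ 1`: `n ∈ Ioc ⌊e^u⌋ ⌊e^(u+η)⌋` iff `e^u < n ≤ e^(u+η)` iff `log n - η ≤ u < log n`
(`Nat.floor_lt`, `Nat.le_floor_iff`, `Real.lt_log_iff_exp_lt`...). So
`av f η u = ∑_{n=1}^N (f n/n) (1/η) 1[log n - η ≤ u < log n]`; `h(u) = c₁ av f η u + c₂ av f η₀ u` is a
bounded integrable step function. Its Fourier transform at `ξ`, `t = 2πξ`: substituting `u = log n - η x`,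
`(1/η) ∫_{log n - η}^{log n} e^(-itu) du = ∫_0^1 e^(-it(log n - ηx)) dx = n^(-it) mm η t`, so
`𝓕 h(ξ) = ∑ (f n/n) n^(-it) (c₁ mm η t + c₂ mm η₀ t) = DD f N t (c₁ mm η t + c₂ mm η₀ t)`
(`(1/n) n^(-it) = n^(-(1+it))`). Now `plancherel` and the substitution `t = 2πξ` (for `lintegral`:
`MeasureTheory.lintegral_comp_mul_left`-like lemma, or `Measure.map` of the multiplication by `2π`,
`Real.smul_map_volume_mul_left`; or write both sides as `lintegral` and use `lintegral_map`). -/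
theorem planch (f : ℕ → ℝ) (N : ℕ) (hf : ∀ n, N < n → f n = 0) (η η₀ c₁ c₂ : ℝ) (hη : 0 < η)
    (hη₀ : 0 < η₀) :
    ∫⁻ u : ℝ, ENNReal.ofReal ((c₁ * av f η u + c₂ * av f η₀ u) ^ 2) =
      ENNReal.ofReal (1 / (2 * Real.pi)) * ∫⁻ t : ℝ, ENNReal.ofReal (‖DD f N t‖ ^ 2 *
        ‖(c₁ : ℂ) * mm η t + (c₂ : ℂ) * mm η₀ t‖ ^ 2) := by
  have hrep : ∀ u : ℝ, ((c₁ * av f η u + c₂ * av f η₀ u : ℝ) : ℂ) =
      ∑ n ∈ Icc 1 N, ((f n / n : ℝ) : ℂ) * ((c₁ : ℂ) * (1 / (η : ℂ) * (p2Box n η u : ℂ)) +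
        (c₂ : ℂ) * (1 / (η₀ : ℂ) * (p2Box n η₀ u : ℂ))) := by
    intro u
    rw [p2_av f N hf, p2_av f N hf, Finset.mul_sum, Finset.mul_sum, ← Finset.sum_add_distrib]
    push_cast
    exact sum_congr rfl fun n _ => by ring
  have hint : Integrable (fun u : ℝ => ((c₁ * av f η u + c₂ * av f η₀ u : ℝ) : ℂ)) := by
    simp only [hrep]
    refine integrable_finsetSum _ fun n _ => Integrable.const_mul ?_ _
    exact (((p2_box_int n η).const_mul _).const_mul _).add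
      (((p2_box_int n η₀).const_mul _).const_mul _)
  have hbd : ∀ u : ℝ, ‖((c₁ * av f η u + c₂ * av f η₀ u : ℝ) : ℂ)‖ ≤
      ∑ n ∈ Icc 1 N, ‖((f n / n : ℝ) : ℂ)‖ * (‖(c₁ : ℂ)‖ * ‖(1 / (η : ℂ))‖ +
        ‖(c₂ : ℂ)‖ * ‖(1 / (η₀ : ℂ))‖) := by
    intro u
    rw [hrep]
    refine (norm_sum_le _ _).trans (sum_le_sum fun n _ => ?_)
    rw [norm_mul]
    refine mul_le_mul_of_nonneg_left ((norm_add_le _ _).trans (add_le_add ?_ ?_)) (norm_nonneg _)
    · rw [norm_mul, norm_mul]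
      refine mul_le_mul_of_nonneg_left ?_ (norm_nonneg _)
      refine (mul_le_mul_of_nonneg_left ?_ (norm_nonneg _)).trans_eq (mul_one _)
      rw [Complex.norm_real]
      exact p2_box_le n η u
    · rw [norm_mul, norm_mul]
      refine mul_le_mul_of_nonneg_left ?_ (norm_nonneg _)
      refine (mul_le_mul_of_nonneg_left ?_ (norm_nonneg _)).trans_eq (mul_one _)
      rw [Complex.norm_real]
      exact p2_box_le n η₀ u
  have hF : ∀ ξ : ℝ, 𝓕 (fun u : ℝ => ((c₁ * av f η u + c₂ * av f η₀ u : ℝ) : ℂ)) ξ =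
      DD f N (2 * Real.pi * ξ) *
        ((c₁ : ℂ) * mm η (2 * Real.pi * ξ) + (c₂ : ℂ) * mm η₀ (2 * Real.pi * ξ)) := by
    intro ξ
    have hE : ∀ v : ℝ, ‖Complex.exp (↑(-2 * Real.pi * v * ξ) * Complex.I)‖ ≤ 1 := fun v => by
      rw [Complex.norm_exp_ofReal_mul_I]
    have hEm : AEStronglyMeasurable
        (fun v : ℝ => Complex.exp (↑(-2 * Real.pi * v * ξ) * Complex.I)) volume := by
      refine Continuous.aestronglyMeasurable ?_
      fun_prop
    have hi : ∀ (n : ℕ) (η' : ℝ), Integrable (fun v : ℝ =>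
        Complex.exp (↑(-2 * Real.pi * v * ξ) * Complex.I) * (p2Box n η' v : ℂ)) := fun n η' =>
      (p2_box_int n η').bdd_mul hEm (Filter.Eventually.of_forall hE)
    rw [Real.fourier_real_eq_integral_exp_smul]
    simp only [hrep, smul_eq_mul]
    have h1 : ∀ v : ℝ, Complex.exp (↑(-2 * Real.pi * v * ξ) * Complex.I) *
        (∑ n ∈ Icc 1 N, ((f n / n : ℝ) : ℂ) * ((c₁ : ℂ) * (1 / (η : ℂ) * (p2Box n η v : ℂ)) +
          (c₂ : ℂ) * (1 / (η₀ : ℂ) * (p2Box n η₀ v : ℂ)))) =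
        ∑ n ∈ Icc 1 N, (((f n / n : ℝ) : ℂ) * ((c₁ : ℂ) * (1 / (η : ℂ))) *
            (Complex.exp (↑(-2 * Real.pi * v * ξ) * Complex.I) * (p2Box n η v : ℂ)) +
          ((f n / n : ℝ) : ℂ) * ((c₂ : ℂ) * (1 / (η₀ : ℂ))) *
            (Complex.exp (↑(-2 * Real.pi * v * ξ) * Complex.I) * (p2Box n η₀ v : ℂ))) := by
      intro v
      rw [Finset.mul_sum]
      exact sum_congr rfl fun n _ => by ring
    simp only [h1]
    have hI : ∀ n ∈ Icc 1 N, Integrable (fun v : ℝ => ((f n / n : ℝ) : ℂ) *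
          ((c₁ : ℂ) * (1 / (η : ℂ))) *
            (Complex.exp (↑(-2 * Real.pi * v * ξ) * Complex.I) * (p2Box n η v : ℂ)) +
          ((f n / n : ℝ) : ℂ) * ((c₂ : ℂ) * (1 / (η₀ : ℂ))) *
            (Complex.exp (↑(-2 * Real.pi * v * ξ) * Complex.I) * (p2Box n η₀ v : ℂ))) :=
      fun n _ => ((hi n η).const_mul _).add ((hi n η₀).const_mul _)
    rw [integral_finsetSum _ hI, DD, Finset.sum_mul]
    refine sum_congr rfl fun n hn => ?_
    have hn1 : 1 ≤ n := (Finset.mem_Icc.mp hn).1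
    rw [integral_add ((hi n η).const_mul _) ((hi n η₀).const_mul _), integral_const_mul,
      integral_const_mul]
    have hb1 := p2_box_fourier n hn1 η ξ hη
    have hb2 := p2_box_fourier n hn1 η₀ ξ hη₀
    have hn0 : (n : ℂ) ≠ 0 := by
      exact_mod_cast (by omega : n ≠ 0)
    have hpow : (n : ℂ) ^ (-(1 + ((2 * Real.pi * ξ : ℝ) : ℂ) * Complex.I)) =
        (n : ℂ)⁻¹ * (n : ℂ) ^ (-((2 * Real.pi * ξ : ℝ) : ℂ) * Complex.I) := by
      rw [neg_add, Complex.cpow_add _ _ hn0, Complex.cpow_neg_one, neg_mul]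
    rw [hpow]
    calc ((f n / n : ℝ) : ℂ) * ((c₁ : ℂ) * (1 / (η : ℂ))) *
            (∫ v : ℝ, Complex.exp (↑(-2 * Real.pi * v * ξ) * Complex.I) * (p2Box n η v : ℂ)) +
          ((f n / n : ℝ) : ℂ) * ((c₂ : ℂ) * (1 / (η₀ : ℂ))) *
            (∫ v : ℝ, Complex.exp (↑(-2 * Real.pi * v * ξ) * Complex.I) * (p2Box n η₀ v : ℂ))
        = ((f n / n : ℝ) : ℂ) * ((c₁ : ℂ) * ((1 / (η : ℂ)) *
            (∫ v : ℝ, Complex.exp (↑(-2 * Real.pi * v * ξ) * Complex.I) * (p2Box n η v : ℂ))) +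
          (c₂ : ℂ) * ((1 / (η₀ : ℂ)) *
            (∫ v : ℝ, Complex.exp (↑(-2 * Real.pi * v * ξ) * Complex.I) *
              (p2Box n η₀ v : ℂ)))) := by
          ring
      _ = _ := by
          rw [hb1, hb2]
          push_cast
          rw [div_eq_mul_inv]
          ring
  have hP := plancherel (fun u : ℝ => ((c₁ * av f η u + c₂ * av f η₀ u : ℝ) : ℂ)) hint _ hbd
  simp only [hF] at hP
  have hL : ∫⁻ u : ℝ, ENNReal.ofReal ((c₁ * av f η u + c₂ * av f η₀ u) ^ 2) =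
      ∫⁻ u : ℝ, ENNReal.ofReal (‖((c₁ * av f η u + c₂ * av f η₀ u : ℝ) : ℂ)‖ ^ 2) := by
    refine lintegral_congr fun u => ?_
    rw [Complex.norm_real, Real.norm_eq_abs, sq_abs]
  rw [hL, ← hP]
  have h2pi : (2 * Real.pi : ℝ) ≠ 0 := by positivity
  have hmap := Real.map_volume_mul_left h2pi
  have hsub := lintegral_map_equiv (μ := (volume : Measure ℝ))
    (fun t : ℝ => ENNReal.ofReal (‖DD f N t‖ ^ 2 *
        ‖(c₁ : ℂ) * mm η t + (c₂ : ℂ) * mm η₀ t‖ ^ 2))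
    (Homeomorph.mulLeft₀ (2 * Real.pi : ℝ) h2pi).toMeasurableEquiv
  have hcoe : (⇑(Homeomorph.mulLeft₀ (2 * Real.pi : ℝ) h2pi).toMeasurableEquiv : ℝ → ℝ) =
      fun x => 2 * Real.pi * x := rfl
  rw [hcoe, hmap, lintegral_smul_measure] at hsub
  have hcst : ENNReal.ofReal |(2 * Real.pi)⁻¹| = ENNReal.ofReal (1 / (2 * Real.pi)) := by
    rw [abs_of_pos (by positivity), one_div]
  rw [hcst, smul_eq_mul] at hsub
  rw [hsub]
  refine lintegral_congr fun ξ => ?_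
  rw [norm_mul, mul_pow]

end Pool.Agent.Lib.H31W
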