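import Pool.Agent.Lib.H31W.Defs

/-!
# Chunk P1 (M/L): Plancherel's theorem for bounded integrable functions
-/

open MeasureTheory FourierTransform

namespace Pool.Agent.Lib.H31W

section

open SchwartzMap
open scoped ContDiff

theorem p1_plancherel (f : ℝ → ℂ) (hf : Integrable f) (C : ℝ) (hC : ∀ x, ‖f x‖ ≤ C) :
    ∫⁻ ξ : ℝ, ENNReal.ofReal (‖𝓕 f ξ‖ ^ 2) = ∫⁻ x : ℝ, ENNReal.ofReal (‖f x‖ ^ 2) := by
  have h2 : MemLp f 2 := by
    rw [memLp_two_iff_integrable_sq_norm hf.1]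
    refine (hf.norm.const_mul C).mono' (hf.1.norm.pow 2) ?_
    filter_upwards with x
    rw [Real.norm_eq_abs, abs_of_nonneg (sq_nonneg _), sq]
    exact mul_le_mul_of_nonneg_right (hC x) (norm_nonneg _)
  obtain ⟨F, hF⟩ : ∃ F : Lp ℂ 2 (volume : Measure ℝ), F = h2.toLp f := ⟨_, rfl⟩
  obtain ⟨G, hG⟩ : ∃ G : Lp ℂ 2 (volume : Measure ℝ), G = 𝓕 F := ⟨_, rfl⟩
  have hFf : (F : ℝ → ℂ) =ᵐ[volume] f := by
    rw [hF]
    exact h2.coeFn_toLp
  have hcont : Continuous (𝓕 f) :=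
    VectorFourier.fourierIntegral_continuous Real.continuous_fourierChar continuous_inner hf
  have hGf : (G : ℝ → ℂ) =ᵐ[volume] 𝓕 f := by
    apply ae_eq_of_integral_contDiff_smul_eq
    · exact (Lp.memLp G).locallyIntegrable (by norm_num)
    · exact hcont.locallyIntegrable
    · intro g hg1 hg2
      have c1 : HasCompactSupport (Complex.ofRealCLM ∘ g) := hg2.comp_left rfl
      have c2 : ContDiff ℝ ∞ (Complex.ofRealCLM ∘ g) := by fun_prop
      have e1 : ∫ x, (c1.toSchwartzMap c2) x • G x = ∫ x, (𝓕 (c1.toSchwartzMap c2)) x • F x := by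
        have h3 := DFunLike.congr_fun (Lp.fourier_toTemperedDistribution_eq F) (c1.toSchwartzMap c2)
        rw [TemperedDistribution.fourier_apply, Lp.toTemperedDistribution_apply,
          Lp.toTemperedDistribution_apply] at h3
        rw [hG]
        exact h3.symm
      have e2 : ∫ x, (𝓕 (c1.toSchwartzMap c2)) x • F x = ∫ x, (𝓕 (c1.toSchwartzMap c2)) x • f x := by
        apply integral_congr_ae
        filter_upwards [hFf] with x hx
        rw [hx]
      have e3 : ∫ x, (𝓕 (c1.toSchwartzMap c2)) x • f x = ∫ x, (c1.toSchwartzMap c2) x • 𝓕 f x := by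
        have h4 := VectorFourier.integral_fourierIntegral_smul_eq_flip (L := innerₗ ℝ)
          Real.continuous_fourierChar continuous_inner ((c1.toSchwartzMap c2).integrable (μ := volume)) hf
        rw [SchwartzMap.fourier_coe]
        rw [flip_innerₗ] at h4
        exact h4
      have e4 := (e1.trans e2).trans e3
      simpa using e4
  have e5 : ‖G‖ = ‖F‖ := by rw [hG, Lp.norm_fourier_eq]
  have e6 : eLpNorm (G : ℝ → ℂ) 2 volume = eLpNorm (F : ℝ → ℂ) 2 volume := by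
    rw [Lp.norm_def, Lp.norm_def] at e5
    exact (ENNReal.toReal_eq_toReal_iff' (Lp.eLpNorm_ne_top G) (Lp.eLpNorm_ne_top F)).1 e5
  have e7 : ∀ g : ℝ → ℂ, ∫⁻ x : ℝ, ENNReal.ofReal (‖g x‖ ^ 2) = eLpNorm g 2 volume ^ 2 := by
    intro g
    rw [eLpNorm_eq_lintegral_rpow_enorm_toReal (by norm_num) (by norm_num)]
    rw [← ENNReal.rpow_natCast, ← ENNReal.rpow_mul]
    norm_num
  have e8 : ∫⁻ ξ : ℝ, ENNReal.ofReal (‖𝓕 f ξ‖ ^ 2) = ∫⁻ ξ : ℝ, ENNReal.ofReal (‖G ξ‖ ^ 2) := by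
    apply lintegral_congr_ae
    filter_upwards [hGf] with x hx
    rw [hx]
  have e9 : ∫⁻ ξ : ℝ, ENNReal.ofReal (‖f ξ‖ ^ 2) = ∫⁻ ξ : ℝ, ENNReal.ofReal (‖F ξ‖ ^ 2) := by
    apply lintegral_congr_ae
    filter_upwards [hFf] with x hx
    rw [hx]
  rw [e8, e9, e7, e7, e6]

end

/-- **Plancherel** for `f` integrable and bounded.

Proof, first way (Mathlib's `L²` theory): `f ∈ L¹ ∩ L²` (`‖f‖² ≤ C ‖f‖`). `MeasureTheory.Lp.norm_fourier_eq`
gives `‖𝓕 F‖ = ‖F‖` for the class `F ∈ L²` of `f`; one has to see that the class `𝓕 F` is a.e. equal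
to the function `𝓕 f`: by `Lp.fourier_toTemperedDistribution_eq` for all Schwartz `g`
`∫ (𝓕 F) g = ∫ F (𝓕 g) = ∫ (𝓕 f) g` (the last step is the self-adjointness of the Fourier integral,
`VectorFourier.integral_fourierIntegral_smul_eq_flip` or `Real.integral_fourier_smul_eq...`), and two
locally integrable functions with the same integrals against all smooth compactly supported functions
are a.e. equal (`ae_eq_of_integral_contDiff_smul_eq`).

Second way (direct): `h(x) = ∫ f(y + x) conj (f y) dy` is bounded (`≤ C ∫ ‖f‖`), integrable, and continuous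
(translation is continuous in `L¹` and `f` is bounded), `𝓕 h = ‖𝓕 f‖² ≥ 0` (Fubini), `h(0) = ∫ ‖f‖²`. For `ε > 0`
the self-adjointness of `𝓕` with the Gaussian gives
`∫ 𝓕 h(ξ) exp (-π ε ξ²) dξ = ∫ h(x) ε^(-1/2) exp (-π x²/ε) dx` (`fourier_gaussian_pi` or
`fourierIntegral_gaussian`), as `ε → 0` the right side tends to `h(0)` (continuity at `0`, approximate
identity) and the left side to `∫ ‖𝓕 f‖²` by monotone convergence. -/
theorem plancherel (f : ℝ → ℂ) (hf : Integrable f) (C : ℝ) (hC : ∀ x, ‖f x‖ ≤ C) :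
    ∫⁻ ξ : ℝ, ENNReal.ofReal (‖𝓕 f ξ‖ ^ 2) = ∫⁻ x : ℝ, ENNReal.ofReal (‖f x‖ ^ 2) := by
  exact p1_plancherel f hf C hC

end Pool.Agent.Lib.H31W
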