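import Pool.Agent.Lib.H31W.Defs

/-!
# Chunk T0 (M): sums of `1/l` and `log l/l` over short intervals
-/

open Finset

namespace Pool.Agent.Lib.H31W

private lemma T0_int_le (f : ℝ → ℝ) (a b c d : ℝ) (hac : a ≤ c) (hcd : c ≤ d) (hdb : d ≤ b)
    (hf : AntitoneOn f (Set.Icc a b)) (h0 : ∀ x ∈ Set.Icc a b, 0 ≤ f x) :
    0 ≤ ∫ x in c..d, f x ∧ ∫ x in c..d, f x ≤ (d - c) * f c := by
  have hfi : IntervalIntegrable f MeasureTheory.volume c d := by
    apply AntitoneOn.intervalIntegrable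
    rw [Set.uIcc_of_le hcd]
    exact hf.mono (Set.Icc_subset_Icc hac hdb)
  constructor
  · apply intervalIntegral.integral_nonneg hcd
    intro x hx
    exact h0 x ⟨hac.trans hx.1, hx.2.trans hdb⟩
  · have h : ∫ x in c..d, f x ≤ ∫ _x in c..d, f c := by
      apply intervalIntegral.integral_mono_on hcd hfi intervalIntegrable_const
      intro x hx
      exact hf ⟨hac, hcd.trans hdb⟩ ⟨hac.trans hx.1, hx.2.trans hdb⟩ hx.1
    simpa using h

/-- For a decreasing positive `f` on `[a, b]`, `1 ≤ a ≤ b`: `|∑_{a < l ≤ b} f(l) - ∫_a^b f| ≤ f(a)`.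

Proof. If no integer lies in `(a, b]` then `b < ⌊a⌋ + 1`, the integral is between `0` and `f(a)`. Otherwise
with `p = ⌊a⌋ + 1 ≤ q = ⌊b⌋`: `∑ ≤ f(p) + ∫_p^q f ≤ f(a) + ∫_a^b f` and `∑_{l=p}^q f(l) ≥ f(q) + ∫_p^q f`
`≥ ∫_p^b f ≥ ∫_a^b f - f(a)` (`b - q < 1`, `p - a ≤ 1`; `AntitoneOn.sum_le_integral_Ico`,
`AntitoneOn.integral_le_sum_Ico`). -/
theorem sum_integral (f : ℝ → ℝ) (a b : ℝ) (ha : 1 ≤ a) (hab : a ≤ b)
    (hf : AntitoneOn f (Set.Icc a b)) (h0 : ∀ x ∈ Set.Icc a b, 0 ≤ f x) :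
    |∑ l ∈ Ioc ⌊a⌋₊ ⌊b⌋₊, f l - ∫ x in a..b, f x| ≤ f a := by
  have ha0 : 0 ≤ a := by linarith
  have hb0 : 0 ≤ b := by linarith
  have hfa : 0 ≤ f a := h0 a ⟨le_refl a, hab⟩
  have hpa : (⌊a⌋₊ : ℝ) ≤ a := Nat.floor_le ha0
  have hap : a < (⌊a⌋₊ : ℝ) + 1 := Nat.lt_floor_add_one a
  have hqb : (⌊b⌋₊ : ℝ) ≤ b := Nat.floor_le hb0
  have hbq : b < (⌊b⌋₊ : ℝ) + 1 := Nat.lt_floor_add_one b
  have hpq : ⌊a⌋₊ ≤ ⌊b⌋₊ := Nat.floor_mono hab
  rcases Nat.eq_or_lt_of_le hpq with h | h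
  · rw [← h, Finset.Ioc_self, Finset.sum_empty, zero_sub, abs_neg]
    have h1 := T0_int_le f a b a b (le_refl a) hab (le_refl b) hf h0
    rw [abs_of_nonneg h1.1]
    refine h1.2.trans ?_
    have h2 : b - a ≤ 1 := by rw [← h] at hbq; linarith
    nlinarith
  · set p := ⌊a⌋₊ with hp
    set q := ⌊b⌋₊ with hq
    have hp1q : p + 1 ≤ q := h
    have hp1qR : ((p + 1 : ℕ) : ℝ) ≤ (q : ℝ) := by exact_mod_cast hp1q
    have hap1 : a ≤ ((p + 1 : ℕ) : ℝ) := by push_cast; linarith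
    have hanti : AntitoneOn f (Set.Icc ((p + 1 : ℕ) : ℝ) (q : ℝ)) :=
      hf.mono (Set.Icc_subset_Icc hap1 hqb)
    have hU := AntitoneOn.sum_le_integral_Ico hp1q hanti
    have hL := AntitoneOn.integral_le_sum_Ico hp1q hanti
    have hi1 : IntervalIntegrable f MeasureTheory.volume a ((p + 1 : ℕ) : ℝ) := by
      apply AntitoneOn.intervalIntegrable
      rw [Set.uIcc_of_le hap1]
      exact hf.mono (Set.Icc_subset_Icc (le_refl a) (hp1qR.trans hqb))
    have hi2 : IntervalIntegrable f MeasureTheory.volume ((p + 1 : ℕ) : ℝ) (q : ℝ) := by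
      apply AntitoneOn.intervalIntegrable
      rw [Set.uIcc_of_le hp1qR]
      exact hanti
    have hi3 : IntervalIntegrable f MeasureTheory.volume (q : ℝ) b := by
      apply AntitoneOn.intervalIntegrable
      rw [Set.uIcc_of_le hqb]
      exact hf.mono (Set.Icc_subset_Icc (hap1.trans hp1qR) (le_refl b))
    have hsplit : ∫ x in a..b, f x = (∫ x in a..((p + 1 : ℕ) : ℝ), f x) +
        (∫ x in ((p + 1 : ℕ) : ℝ)..(q : ℝ), f x) + ∫ x in (q : ℝ)..b, f x := by
      rw [intervalIntegral.integral_add_adjacent_intervals hi1 hi2,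
        intervalIntegral.integral_add_adjacent_intervals (hi1.trans hi2) hi3]
    have hI1 := T0_int_le f a b a ((p + 1 : ℕ) : ℝ) (le_refl a) hap1 (hp1qR.trans hqb) hf h0
    have hI3 := T0_int_le f a b (q : ℝ) b (hap1.trans hp1qR) hqb (le_refl b) hf h0
    have hI2 := T0_int_le f a b ((p + 1 : ℕ) : ℝ) (q : ℝ) hap1 hp1qR hqb hf h0
    have hfq : 0 ≤ f q := h0 q ⟨hap1.trans hp1qR, hqb⟩
    have hfp : f ((p + 1 : ℕ) : ℝ) ≤ f a :=
      hf ⟨le_refl a, hab⟩ ⟨hap1, hp1qR.trans hqb⟩ hap1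
    have hsum1 : ∑ l ∈ Ioc p q, f l = f ((p + 1 : ℕ) : ℝ) +
        ∑ i ∈ Finset.Ico (p + 1) q, f ((i + 1 : ℕ) : ℝ) := by
      have e1 : Ioc p q = Finset.Ico (p + 1) (q + 1) := by
        ext x
        rw [Finset.mem_Ioc, Finset.mem_Ico]
        omega
      rw [e1, Finset.sum_eq_sum_Ico_succ_bot (by omega) (fun l : ℕ => f (l : ℝ)),
        Finset.sum_Ico_add' (fun l : ℕ => f (l : ℝ)) (p + 1) q 1]
    have hsum2 : ∑ l ∈ Ioc p q, f l = (∑ i ∈ Finset.Ico (p + 1) q, f (i : ℝ)) + f (q : ℝ) := by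
      have e1 : Ioc p q = Finset.Ico (p + 1) (q + 1) := by
        ext x
        rw [Finset.mem_Ioc, Finset.mem_Ico]
        omega
      rw [e1, Finset.sum_Ico_succ_top (by omega)]
    have hI3' : ∫ x in (q : ℝ)..b, f x ≤ f q := by
      refine hI3.2.trans ?_
      nlinarith
    have hI1' : ∫ x in a..((p + 1 : ℕ) : ℝ), f x ≤ f a := by
      refine hI1.2.trans ?_
      have : ((p + 1 : ℕ) : ℝ) - a ≤ 1 := by push_cast; linarith
      nlinarith
    rw [abs_le]
    constructor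
    · rw [hsum2, hsplit]; linarith [hI1.1, hI2.1]
    · rw [hsum1, hsplit]; linarith [hI1.1, hI3.1]

/-- `∫_{e^v}^{e^(v+η)} dx/x = η`. -/
theorem av_one (v η : ℝ) (hv : 0 ≤ v) (hη : 0 < η) :
    |av (fun _ => 1) η v - 1| ≤ Real.exp (-v) / η := by
  have ha : 1 ≤ Real.exp v := Real.one_le_exp hv
  have hab : Real.exp v ≤ Real.exp (v + η) := Real.exp_le_exp.mpr (by linarith)
  have h0 : 0 < Real.exp v := Real.exp_pos v
  have hf : AntitoneOn (fun x : ℝ => 1 / x) (Set.Icc (Real.exp v) (Real.exp (v + η))) := by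
    intro x hx y hy hxy
    exact one_div_le_one_div_of_le (lt_of_lt_of_le h0 hx.1) hxy
  have hpos : ∀ x ∈ Set.Icc (Real.exp v) (Real.exp (v + η)), 0 ≤ (fun x : ℝ => 1 / x) x := by
    intro x hx
    exact one_div_nonneg.mpr (h0.le.trans hx.1)
  have h := sum_integral (fun x : ℝ => 1 / x) _ _ ha hab hf hpos
  have hint : ∫ x in Real.exp v..Real.exp (v + η), (fun x : ℝ => 1 / x) x = η := by
    have : ∫ x in Real.exp v..Real.exp (v + η), (fun x : ℝ => 1 / x) x =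
        Real.log (Real.exp (v + η) / Real.exp v) :=
      integral_one_div_of_pos h0 (Real.exp_pos _)
    rw [this, ← Real.exp_sub, Real.log_exp]
    ring
  rw [hint] at h
  have e1 : av (fun _ => 1) η v - 1 =
      (∑ l ∈ Ioc ⌊Real.exp v⌋₊ ⌊Real.exp (v + η)⌋₊, (fun x : ℝ => 1 / x) (l : ℝ) - η) / η := by
    unfold av
    field_simp
  rw [e1, abs_div, abs_of_pos hη]
  have e2 : (1 : ℝ) / Real.exp v = Real.exp (-v) := by
    rw [Real.exp_neg, one_div]
  rw [← e2]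
  exact div_le_div_of_nonneg_right h hη.le

/-- `∫_{e^v}^{e^(v+η)} log x/x dx = ((v+η)² - v²)/2 = η (v + η/2)`; `log x/x` is decreasing for `x ≥ e`
(`Real.log_div_self_antitoneOn`). -/
theorem av_log (v η : ℝ) (hv : 1 ≤ v) (hη : 0 < η) :
    |av (fun n => Real.log n) η v - (v + η / 2)| ≤ v * Real.exp (-v) / η := by
  have ha : 1 ≤ Real.exp v := Real.one_le_exp (by linarith)
  have hab : Real.exp v ≤ Real.exp (v + η) := Real.exp_le_exp.mpr (by linarith)
  have h0 : 0 < Real.exp v := Real.exp_pos v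
  have hf : AntitoneOn (fun x : ℝ => Real.log x / x)
      (Set.Icc (Real.exp v) (Real.exp (v + η))) := by
    apply Real.log_div_self_antitoneOn.mono
    intro x hx
    exact le_trans (Real.exp_le_exp.mpr hv) hx.1
  have hpos : ∀ x ∈ Set.Icc (Real.exp v) (Real.exp (v + η)),
      0 ≤ (fun x : ℝ => Real.log x / x) x := by
    intro x hx
    exact div_nonneg (Real.log_nonneg (ha.trans hx.1)) (h0.le.trans hx.1)
  have h := sum_integral (fun x : ℝ => Real.log x / x) _ _ ha hab hf hpos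
  have hint : ∫ x in Real.exp v..Real.exp (v + η), (fun x : ℝ => Real.log x / x) x =
      η * (v + η / 2) := by
    have hd : ∀ x ∈ Set.uIcc (Real.exp v) (Real.exp (v + η)),
        HasDerivAt (fun y : ℝ => Real.log y ^ 2 / 2) (Real.log x / x) x := by
      intro x hx
      rw [Set.uIcc_of_le hab] at hx
      have hx0 : x ≠ 0 := (lt_of_lt_of_le h0 hx.1).ne'
      have h1 := ((Real.hasDerivAt_log hx0).pow 2).div_const 2
      have e : (↑(2 : ℕ) * Real.log x ^ (2 - 1) * x⁻¹ / 2 : ℝ) = Real.log x / x := by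
        field_simp
        norm_num
      rw [e] at h1
      exact h1
    have hii : IntervalIntegrable (fun x : ℝ => Real.log x / x) MeasureTheory.volume
        (Real.exp v) (Real.exp (v + η)) := by
      apply AntitoneOn.intervalIntegrable
      rw [Set.uIcc_of_le hab]
      exact hf
    have := intervalIntegral.integral_eq_sub_of_hasDerivAt hd hii
    rw [this]
    simp only [Real.log_exp]
    ring
  rw [hint] at h
  have e1 : av (fun n => Real.log n) η v - (v + η / 2) =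
      (∑ l ∈ Ioc ⌊Real.exp v⌋₊ ⌊Real.exp (v + η)⌋₊, (fun x : ℝ => Real.log x / x) (l : ℝ) -
        η * (v + η / 2)) / η := by
    unfold av
    field_simp
  rw [e1, abs_div, abs_of_pos hη]
  have e2 : Real.log (Real.exp v) / Real.exp v = v * Real.exp (-v) := by
    rw [Real.exp_neg, Real.log_exp, div_eq_mul_inv]
  rw [← e2]
  exact div_le_div_of_nonneg_right h hη.le

end Pool.Agent.Lib.H31W
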