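import Mathlib

/-!
# H31W: definitions (MP_da1588_nt, parts 3 and 4)

See `PROOF.md` in this folder. `r_n = π(n^2)/n^2`; the target is `Final`: for almost all `n` one has
`r_m > r_n > r_l` for all `2 ≤ m < n < l`.
-/

open Finset MeasureTheory

namespace Pool.Agent.Lib.H31W

noncomputable section

open ArithmeticFunction (vonMangoldt moebius)

/-! ## The problem -/

/-- `r n = π(n^2)/n^2` -/
def r (n : ℕ) : ℝ := (Nat.primeCounting (n ^ 2) : ℝ) / (n : ℝ) ^ 2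

/-- `n` is good: `r m > r n` for all `2 ≤ m < n` and `r n > r l` for all `l > n`. -/
def GoodN (n : ℕ) : Prop := (∀ m : ℕ, 2 ≤ m → m < n → r n < r m) ∧ ∀ l : ℕ, n < l → r l < r n

open Classical in
/-- The target: at most `N exp(-(log N)^(1/11))` of the `n ≤ N` are not good, `N` large. -/
def Final : Prop := ∃ N₀ : ℕ, ∀ N : ℕ, N₀ ≤ N →
  (((Icc 1 N).filter (fun n => ¬ GoodN n)).card : ℝ) ≤ N * Real.exp (-(Real.log N) ^ (1 / 11 : ℝ))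

/-! ## Parameters and the two inputs (part 2) -/

/-- `ℓ(X) = (log X)^(1/10)` -/
def ell (X : ℝ) : ℝ := (Real.log X) ^ (1 / 10 : ℝ)

/-- The length of the long averages, `η₀ = exp (-7 ℓ(X))`. -/
def eta0 (X : ℝ) : ℝ := Real.exp (-(7 * ell X))

/-- The Dirichlet polynomial `∑_{n ≤ N} f(n) n^(-1-it)`. -/
def DD (f : ℕ → ℝ) (N : ℕ) (t : ℝ) : ℂ :=
  ∑ n ∈ Icc 1 N, (f n : ℂ) * (n : ℂ) ^ (-(1 + (t : ℂ) * Complex.I))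

/-- Input 1: for `X^(1/6) ≤ u ≤ v ≤ X^2` and `exp (4 ℓ) ≤ |t| ≤ X^2` the sums of `μ(n) n^(-1-it)` and
of `Λ(n) n^(-1-it)` over `u < n ≤ v` are at most `exp (-ℓ)`, `ℓ = (log X)^(1/10)`. -/
def SupProp : Prop := ∃ K : ℝ, 1 ≤ K ∧ ∀ X : ℝ, K ≤ X → ∀ u v t : ℝ, X ^ (1 / 6 : ℝ) ≤ u → u ≤ v →
  v ≤ X ^ 2 → Real.exp (4 * ell X) ≤ |t| → |t| ≤ X ^ 2 →
  ‖∑ n ∈ Ioc ⌊u⌋₊ ⌊v⌋₊, (moebius n : ℂ) * (n : ℂ) ^ (-(1 + (t : ℂ) * Complex.I))‖ ≤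
    Real.exp (-ell X) ∧
  ‖∑ n ∈ Ioc ⌊u⌋₊ ⌊v⌋₊, (vonMangoldt n : ℂ) * (n : ℂ) ^ (-(1 + (t : ℂ) * Complex.I))‖ ≤
    Real.exp (-ell X)

/-- Input 2: the prime number theorem with error term `x exp (-(log x)^(1/5))`. -/
def PntProp : Prop := ∃ K : ℝ, 1 ≤ K ∧ ∀ x : ℝ, K ≤ x →
  |Chebyshev.psi x - x| ≤ x * Real.exp (-(Real.log x) ^ (1 / 5 : ℝ))

/-! ## Averages in the logarithmic scale -/

/-- `(1/η) ∑_{e^u < n ≤ e^(u+η)} f(n)/n` -/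
def av (f : ℕ → ℝ) (η u : ℝ) : ℝ :=
  1 / η * ∑ n ∈ Ioc ⌊Real.exp u⌋₊ ⌊Real.exp (u + η)⌋₊, f n / n

/-- `(e^(iηt) - 1)/(iηt) = ∫_0^1 e^(iηtx) dx` -/
def mm (η t : ℝ) : ℂ := ∫ x in (0 : ℝ)..1, Complex.exp ((η * t * x : ℝ) * Complex.I)

/-- The squared `L²` norm of `av f η - av f η₀`. -/
def QQ (f : ℕ → ℝ) (η η₀ : ℝ) : ENNReal :=
  ∫⁻ u : ℝ, ENNReal.ofReal ((av f η u - av f η₀ u) ^ 2)

/-- `f` cut off to `(M, M']`. -/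
def cut (f : ℕ → ℝ) (M M' : ℝ) (n : ℕ) : ℝ := if M < n ∧ (n : ℝ) ≤ M' then f n else 0

/-- Dirichlet convolution of two functions. -/
def conv (f g : ℕ → ℝ) (n : ℕ) : ℝ := ∑ d ∈ n.divisorsAntidiagonal, f d.1 * g d.2

/-- `∑_{d ∣ k, d > V} μ(d)` -/
def bet (V : ℝ) (k : ℕ) : ℝ := ∑ d ∈ k.divisors.filter (fun d : ℕ => V < d), (moebius d : ℝ)

/-- `∑_{m d = c, m ≤ U, d ≤ V} Λ(m) μ(d)` -/
def gam (U V : ℝ) (c : ℕ) : ℝ :=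
  conv (cut (fun n => vonMangoldt n) 0 U) (cut (fun n => (moebius n : ℝ)) 0 V) c

/-! ## From averages to single intervals (part 4) -/

/-- The criterion for `r n < r m`, `m < n`: there are not too many primes in `(m^2, n^2]`. -/
def Cr (m n : ℕ) : Prop :=
  Chebyshev.theta ((n : ℝ) ^ 2) - Chebyshev.theta ((m : ℝ) ^ 2) ≤
    ((n : ℝ) ^ 2 - (m : ℝ) ^ 2) * (1 + 1 / (4 * Real.log ((m : ℝ) ^ 2)))

/-- `ε = 1/(20 log N)` -/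
def eps (N : ℕ) : ℝ := 1 / (20 * Real.log N)

/-- The `u` where the average of `Λ` of length `η` is too large. -/
def MB (N : ℕ) (η : ℝ) : Set ℝ :=
  {u | Real.log ((N : ℝ) ^ 2 / 8) ≤ u ∧ u ≤ Real.log (16 * (N : ℝ) ^ 2) ∧
    1 + eps N / 3 ≤ av (fun n => vonMangoldt n) η u}

/-- `n ∈ (N, 2N]` violates the criterion with a near partner `m`. -/
def NearBad (N n : ℕ) : Prop := ∃ m : ℕ, (N : ℝ) / 2 ≤ m ∧ (m : ℝ) ≤ 4 * N ∧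
  ((m < n ∧ (n : ℝ) - m < n * Real.exp (-(9 * (Real.log n) ^ (1 / 10 : ℝ))) ∧ ¬ Cr m n) ∨
    (n < m ∧ (m : ℝ) - n < m * Real.exp (-(9 * (Real.log m) ^ (1 / 10 : ℝ))) ∧ ¬ Cr n m))

end

end Pool.Agent.Lib.H31W
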