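import Pool.Agent.Lib.H31W.P3

/-!
# Chunk P4 (M): trivial mean square of short averages
-/

open Finset MeasureTheory

namespace Pool.Agent.Lib.H31W

private theorem P4_exp (η : ℝ) (hη : 0 < η) (hη1 : η ≤ 1) : Real.exp η - 1 ≤ 2 * η := by
  have h := Real.abs_exp_sub_one_sub_id_le (x := η) (by rw [abs_of_pos hη]; exact hη1)
  have h1 := (abs_le.1 h).2
  nlinarith

private theorem P4_mem {n : ℕ} (hn : 0 < n) {η u : ℝ} :
    n ∈ Ioc ⌊Real.exp u⌋₊ ⌊Real.exp (u + η)⌋₊ ↔ u ∈ Set.Ico (Real.log n - η) (Real.log n) := by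
  have hn' : (0 : ℝ) < n := by exact_mod_cast hn
  rw [Finset.mem_Ioc, Nat.floor_lt (Real.exp_pos u).le, Nat.le_floor_iff (Real.exp_pos _).le,
    Set.mem_Ico, Real.lt_log_iff_exp_lt hn', sub_le_iff_le_add, Real.log_le_iff_le_exp hn']
  exact and_comm

private theorem P4_point (f : ℕ → ℝ) (M η : ℝ) (hM : 1 ≤ M) (hη : 0 < η) (hη1 : η ≤ 1)
    (hs : ∀ n, f n ≠ 0 → M < n ∧ (n : ℝ) ≤ 2 * M) (u : ℝ) :
    (av f η u) ^ 2 ≤ ∑ n ∈ Icc 1 ⌊2 * M⌋₊,
      (if n ∈ Ioc ⌊Real.exp u⌋₊ ⌊Real.exp (u + η)⌋₊ then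
        1 / η ^ 2 * (4 * M * η + 1) * (f n / n) ^ 2 else 0) := by
  classical
  obtain ⟨I, hI⟩ : ∃ I, I = Ioc ⌊Real.exp u⌋₊ ⌊Real.exp (u + η)⌋₊ := ⟨_, rfl⟩
  obtain ⟨J, hJ⟩ : ∃ J, J = Icc 1 ⌊2 * M⌋₊ := ⟨_, rfl⟩
  have h2M : (0 : ℝ) ≤ 2 * M := by linarith
  have hsum : ∑ n ∈ I, f n / n = ∑ n ∈ J.filter (fun n => n ∈ I), f n / n := by
    symm
    refine Finset.sum_subset (fun n hn => (Finset.mem_filter.1 hn).2) fun n hn hn' => ?_
    by_cases h0 : f n = 0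
    · rw [h0, zero_div]
    · exfalso
      refine hn' (Finset.mem_filter.2 ⟨?_, hn⟩)
      rw [hJ, Finset.mem_Icc]
      rw [hI, Finset.mem_Ioc] at hn
      exact ⟨by omega, Nat.le_floor (hs n h0).2⟩
  have hcard : ((J.filter (fun n => n ∈ I)).card : ℝ) ≤ 4 * M * η + 1 := by
    rcases (J.filter (fun n => n ∈ I)).eq_empty_or_nonempty with h | ⟨n, hn⟩
    · rw [h, Finset.card_empty]
      push_cast
      positivity
    · obtain ⟨hn1, hn2⟩ := Finset.mem_filter.1 hn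
      have h1 : (J.filter (fun n => n ∈ I)).card ≤ I.card :=
        Finset.card_le_card fun m hm => (Finset.mem_filter.1 hm).2
      have h2 : I.card = ⌊Real.exp (u + η)⌋₊ - ⌊Real.exp u⌋₊ := by rw [hI, Nat.card_Ioc]
      have h3 : ⌊Real.exp u⌋₊ ≤ ⌊Real.exp (u + η)⌋₊ :=
        Nat.floor_le_floor (Real.exp_le_exp.2 (by linarith))
      have h4 : (I.card : ℝ) = (⌊Real.exp (u + η)⌋₊ : ℝ) - (⌊Real.exp u⌋₊ : ℝ) := by
        rw [h2, Nat.cast_sub h3]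
      have h5 : (⌊Real.exp (u + η)⌋₊ : ℝ) ≤ Real.exp (u + η) := Nat.floor_le (Real.exp_pos _).le
      have h6 : Real.exp u < ⌊Real.exp u⌋₊ + 1 := Nat.lt_floor_add_one _
      have h7 : Real.exp u < n := by
        rw [hI, Finset.mem_Ioc, Nat.floor_lt (Real.exp_pos u).le] at hn2
        exact hn2.1
      have h8 : (n : ℝ) ≤ 2 * M := by
        rw [hJ, Finset.mem_Icc] at hn1
        exact (Nat.le_floor_iff h2M).1 hn1.2
      have h9 : Real.exp u * (Real.exp η - 1) ≤ 2 * M * (2 * η) :=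
        mul_le_mul (by linarith) (P4_exp η hη hη1)
          (by have := Real.add_one_le_exp η; linarith) h2M
      have h10 : Real.exp (u + η) = Real.exp u * Real.exp η := Real.exp_add u η
      have h11 : ((J.filter (fun n => n ∈ I)).card : ℝ) ≤ (I.card : ℝ) := by exact_mod_cast h1
      nlinarith
  have hcs := sq_sum_le_card_mul_sum_sq (s := J.filter (fun n => n ∈ I)) (f := fun n : ℕ => f n / n)
  have hnn : 0 ≤ ∑ n ∈ J.filter (fun n => n ∈ I), (f n / n) ^ 2 :=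
    Finset.sum_nonneg fun n _ => sq_nonneg _
  have hav : (av f η u) ^ 2 = 1 / η ^ 2 * (∑ n ∈ J.filter (fun n => n ∈ I), f n / n) ^ 2 := by
    unfold av
    rw [← hI, hsum]
    ring
  rw [hav, ← hI, ← hJ, ← Finset.sum_filter, ← Finset.mul_sum, mul_assoc]
  refine mul_le_mul_of_nonneg_left ?_ (by positivity)
  exact hcs.trans (mul_le_mul_of_nonneg_right hcard hnn)

/-- **Mean square of short averages**, trivial bound.

Proof. `I_u = {n : e^u < n ≤ e^(u+η), M < n ≤ 2M}`. If `I_u` is not empty then `e^u < 2M` and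
`|I_u| ≤ e^u (e^η - 1) + 1 ≤ 4 M η + 1` (`e^η - 1 ≤ 2η` for `0 ≤ η ≤ 1`). By Cauchy-Schwarz
`(av f η u)² ≤ η^(-2) (4Mη + 1) ∑_{n ∈ I_u} (f n/n)²` (only `n` with `f n ≠ 0` matter). Integrate over `u`; for
each `n` the set of the `u` with `e^u < n ≤ e^(u+η)` is `[log n - η, log n)`, of measure `η`; so the integral is at most
`η^(-1) (4Mη + 1) ∑_{M<n≤2M} (f n/n)² ≤ (4M + 1/η) M^(-2) A M = A (4 + 1/(ηM))`. -/
theorem short_L2 (f : ℕ → ℝ) (M A η : ℝ) (hM : 1 ≤ M) (hA : 0 ≤ A) (hη : 0 < η) (hη1 : η ≤ 1)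
    (hs : ∀ n, f n ≠ 0 → M < n ∧ (n : ℝ) ≤ 2 * M)
    (hsum : ∑ n ∈ Icc 1 ⌊2 * M⌋₊, f n ^ 2 ≤ A * M) :
    ∫⁻ u : ℝ, ENNReal.ofReal ((av f η u) ^ 2) ≤ ENNReal.ofReal (A * (8 + 1 / (η * M))) := by
  obtain ⟨c, hc⟩ : ∃ c : ℝ, c = 1 / η ^ 2 * (4 * M * η + 1) := ⟨_, rfl⟩
  have hM0 : 0 < M := by linarith
  have hc0 : 0 ≤ c := by rw [hc]; positivity
  have hpt : ∀ u : ℝ, ENNReal.ofReal ((av f η u) ^ 2) ≤ ∑ n ∈ Icc 1 ⌊2 * M⌋₊,
      (Set.Ico (Real.log n - η) (Real.log n)).indicator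
        (fun _ => ENNReal.ofReal (c * (f n / n) ^ 2)) u := by
    intro u
    refine (ENNReal.ofReal_le_ofReal (P4_point f M η hM hη hη1 hs u)).trans ?_
    rw [ENNReal.ofReal_sum_of_nonneg]
    · refine Finset.sum_le_sum fun n hn => ?_
      have hn0 : 0 < n := by have := (Finset.mem_Icc.1 hn).1; omega
      by_cases h : n ∈ Ioc ⌊Real.exp u⌋₊ ⌊Real.exp (u + η)⌋₊
      · rw [if_pos h, Set.indicator_of_mem ((P4_mem hn0).1 h), ← hc]
      · rw [if_neg h, ENNReal.ofReal_zero]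
        exact zero_le
    · intro n _
      split_ifs
      · rw [← hc]
        positivity
      · exact le_rfl
  have hint : ∫⁻ u : ℝ, (∑ n ∈ Icc 1 ⌊2 * M⌋₊,
      (Set.Ico (Real.log n - η) (Real.log n)).indicator
        (fun _ => ENNReal.ofReal (c * (f n / n) ^ 2)) u) =
      ENNReal.ofReal (∑ n ∈ Icc 1 ⌊2 * M⌋₊, c * (f n / n) ^ 2 * η) := by
    rw [lintegral_finsetSum _ fun n _ => measurable_const.indicator measurableSet_Ico,
      ENNReal.ofReal_sum_of_nonneg fun n _ => by positivity]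
    refine Finset.sum_congr rfl fun n _ => ?_
    rw [lintegral_indicator_const measurableSet_Ico, Real.volume_Ico, sub_sub_cancel,
      ← ENNReal.ofReal_mul (by positivity)]
  refine (lintegral_mono hpt).trans ?_
  rw [hint]
  refine ENNReal.ofReal_le_ofReal ?_
  have h1 : ∑ n ∈ Icc 1 ⌊2 * M⌋₊, c * (f n / n) ^ 2 * η ≤
      ∑ n ∈ Icc 1 ⌊2 * M⌋₊, c * η * (1 / M ^ 2) * f n ^ 2 := by
    refine Finset.sum_le_sum fun n hn => ?_
    by_cases h0 : f n = 0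
    · rw [h0]
      simp
    · have hn := (hs n h0).1
      have h2 : (f n / n) ^ 2 ≤ 1 / M ^ 2 * f n ^ 2 := by
        rw [div_pow, div_eq_mul_one_div, mul_comm]
        refine mul_le_mul_of_nonneg_right ?_ (sq_nonneg _)
        exact one_div_le_one_div_of_le (by positivity) (pow_le_pow_left₀ hM0.le hn.le 2)
      calc c * (f n / n) ^ 2 * η = c * η * (f n / n) ^ 2 := by ring
        _ ≤ c * η * (1 / M ^ 2 * f n ^ 2) := mul_le_mul_of_nonneg_left h2 (by positivity)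
        _ = _ := by ring
  refine h1.trans ?_
  rw [← Finset.mul_sum]
  have h3 : c * η * (1 / M ^ 2) * ∑ n ∈ Icc 1 ⌊2 * M⌋₊, f n ^ 2 ≤ c * η * (1 / M ^ 2) * (A * M) :=
    mul_le_mul_of_nonneg_left hsum (by positivity)
  refine h3.trans ?_
  have h4 : c * η * (1 / M ^ 2) * (A * M) = A * (4 + 1 / (η * M)) := by
    rw [hc]
    field_simp
  rw [h4]
  refine mul_le_mul_of_nonneg_left (by linarith) hA

end Pool.Agent.Lib.H31W
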