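import Pool.Agent.Lib.H31W.P3

/-!
# Chunk P5 (M): mean value of a product of two Dirichlet polynomials
-/

open Finset MeasureTheory

namespace Pool.Agent.Lib.H31W

private theorem box_abs_tail (K T : ℝ) (hK : 0 ≤ K) (hT : 0 < T) :
    ∫⁻ t : ℝ, (Set.Ioi T).indicator (fun t : ℝ => ENNReal.ofReal (K * t ^ (-2 : ℝ))) t =
      ENNReal.ofReal (K / T) := by
  rw [lintegral_indicator measurableSet_Ioi, ← ofReal_integral_eq_lintegral_ofReal]
  · congr 1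
    rw [integral_const_mul, integral_Ioi_rpow_of_lt (by norm_num) hT]
    have h1 : (-2 : ℝ) + 1 = -1 := by norm_num
    rw [h1, Real.rpow_neg_one]
    field_simp
  · exact (integrableOn_Ioi_rpow_of_lt (by norm_num) hT).const_mul K
  · refine (ae_restrict_iff' measurableSet_Ioi).2 (Filter.Eventually.of_forall fun t ht => ?_)
    have ht' : (0 : ℝ) < t := hT.trans ht
    exact mul_nonneg hK (Real.rpow_nonneg ht'.le _)

private theorem box_abs_tail' (K T : ℝ) (hK : 0 ≤ K) (hT : 0 < T) :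
    ∫⁻ t : ℝ, (Set.Ioi T).indicator (fun t : ℝ => ENNReal.ofReal (K * t ^ (-2 : ℝ))) (-t) =
      ENNReal.ofReal (K / T) := by
  rw [← box_abs_tail K T hK hT]
  exact lintegral_neg_eq_self
    (fun t => (Set.Ioi T).indicator (fun t : ℝ => ENNReal.ofReal (K * t ^ (-2 : ℝ))) t)

/-- **Mean value of a product.** `D₁` is small for `T₀ ≤ |t| ≤ T₁`, `D₂` is bounded in mean square.

Proof. Split `ℝ` into three parts (`lintegral_add_compl`, or bound the integrand by the sum of three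
integrands with indicators).
`|t| ≤ T₀`: `‖mm η t - mm η₀ t‖ ≤ (η + η₀)|t| ≤ 2 η₀ T₀` (`mm_sub_one`), so the part is at most
`2 T₀ · G⁴ (2 η₀ T₀)² = 8 G⁴ η₀² T₀³`.
`T₀ ≤ |t| ≤ T₁`: the integrand is at most `δ² ‖D₂‖² · 2 (‖mm η‖² + ‖mm η₀‖²)`, the part at most `4 δ² W`.
`|t| > T₁`: `‖mm η t - mm η₀ t‖ ≤ 2/(η|t|) + 2/(η₀|t|) ≤ 4/(η|t|)`, so the part is at most
`G⁴ ∫_{|t| > T₁} 16/(η² t²) dt = 32 G⁴/(η² T₁)` (`integral_Ioi_rpow_of_lt` or
`integrableOn_Ioi_rpow_of_lt`, both half lines). -/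
theorem box_abs (D₁ D₂ : ℝ → ℂ) (hc₁ : Continuous D₁) (hc₂ : Continuous D₂)
    (δ G W T₀ T₁ η η₀ : ℝ) (hδ : 0 ≤ δ) (hG : 0 ≤ G) (hW : 0 ≤ W) (hT₀ : 0 < T₀) (hT₁ : 0 < T₁)
    (hη : 0 < η) (hηη₀ : η ≤ η₀)
    (h1 : ∀ t : ℝ, T₀ ≤ |t| → |t| ≤ T₁ → ‖D₁ t‖ ≤ δ)
    (hG1 : ∀ t : ℝ, ‖D₁ t‖ ≤ G) (hG2 : ∀ t : ℝ, ‖D₂ t‖ ≤ G)
    (hW1 : ∫⁻ t : ℝ, ENNReal.ofReal (‖D₂ t‖ ^ 2 * ‖mm η t‖ ^ 2) ≤ ENNReal.ofReal W)
    (hW2 : ∫⁻ t : ℝ, ENNReal.ofReal (‖D₂ t‖ ^ 2 * ‖mm η₀ t‖ ^ 2) ≤ ENNReal.ofReal W) :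
    ∫⁻ t : ℝ, ENNReal.ofReal (‖D₁ t * D₂ t‖ ^ 2 * ‖mm η t - mm η₀ t‖ ^ 2) ≤
      ENNReal.ofReal (8 * G ^ 4 * η₀ ^ 2 * T₀ ^ 3 + 4 * δ ^ 2 * W + 32 * G ^ 4 / (η ^ 2 * T₁)) := by
  have hη₀ : 0 < η₀ := hη.trans_le hηη₀
  have hm1 : Continuous (mm η) := mm_continuous η
  have hm2 : Continuous (mm η₀) := mm_continuous η₀
  obtain ⟨a, ha⟩ : ∃ a : ℝ, a = 4 * G ^ 4 * η₀ ^ 2 * T₀ ^ 2 := ⟨_, rfl⟩
  obtain ⟨K, hK⟩ : ∃ K : ℝ, K = 16 * G ^ 4 / η ^ 2 := ⟨_, rfl⟩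
  have ha0 : 0 ≤ a := by rw [ha]; positivity
  have hK0 : 0 ≤ K := by rw [hK]; positivity
  let A : ℝ → ENNReal := (Set.Icc (-T₀) T₀).indicator fun _ => ENNReal.ofReal a
  let B₁ : ℝ → ENNReal := fun t => ENNReal.ofReal (‖D₂ t‖ ^ 2 * ‖mm η t‖ ^ 2)
  let B₂ : ℝ → ENNReal := fun t => ENNReal.ofReal (‖D₂ t‖ ^ 2 * ‖mm η₀ t‖ ^ 2)
  let C : ℝ → ENNReal := (Set.Ioi T₁).indicator fun t : ℝ => ENNReal.ofReal (K * t ^ (-2 : ℝ))
  have hA : Measurable A := measurable_const.indicator measurableSet_Icc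
  have hB₁ : Measurable B₁ :=
    ((hc₂.norm.pow 2).mul (hm1.norm.pow 2)).measurable.ennreal_ofReal
  have hC : Measurable C := by
    refine Measurable.indicator ?_ measurableSet_Ioi
    exact (measurable_const.mul (measurable_id.pow_const _)).ennreal_ofReal
  have hC' : Measurable fun t => C (-t) := hC.comp measurable_neg
  have hAint : ∫⁻ t, A t = ENNReal.ofReal (8 * G ^ 4 * η₀ ^ 2 * T₀ ^ 3) := by
    show ∫⁻ t, (Set.Icc (-T₀) T₀).indicator (fun _ => ENNReal.ofReal a) t = _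
    rw [lintegral_indicator measurableSet_Icc, setLIntegral_const, Real.volume_Icc,
      ← ENNReal.ofReal_mul ha0]
    congr 1
    rw [ha]
    ring
  have hCint : ∫⁻ t, C t = ENNReal.ofReal (K / T₁) := box_abs_tail K T₁ hK0 hT₁
  have hCint' : ∫⁻ t, C (-t) = ENNReal.ofReal (K / T₁) := box_abs_tail' K T₁ hK0 hT₁
  have hBint : ∫⁻ t, ENNReal.ofReal (2 * δ ^ 2) * (B₁ t + B₂ t) ≤
      ENNReal.ofReal (4 * δ ^ 2 * W) := by
    rw [lintegral_const_mul' _ _ ENNReal.ofReal_ne_top, lintegral_add_left hB₁]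
    calc ENNReal.ofReal (2 * δ ^ 2) * ((∫⁻ t, B₁ t) + ∫⁻ t, B₂ t)
        ≤ ENNReal.ofReal (2 * δ ^ 2) * (ENNReal.ofReal W + ENNReal.ofReal W) := by
          gcongr
      _ = ENNReal.ofReal (4 * δ ^ 2 * W) := by
          rw [← ENNReal.ofReal_add hW hW, ← ENNReal.ofReal_mul (by positivity)]
          congr 1
          ring
  have hpt : ∀ t : ℝ, ENNReal.ofReal (‖D₁ t * D₂ t‖ ^ 2 * ‖mm η t - mm η₀ t‖ ^ 2) ≤
      A t + (ENNReal.ofReal (2 * δ ^ 2) * (B₁ t + B₂ t) + (C t + C (-t))) := by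
    intro t
    have hD : ‖D₁ t * D₂ t‖ ^ 2 ≤ G ^ 4 := by
      rw [norm_mul]
      calc (‖D₁ t‖ * ‖D₂ t‖) ^ 2 ≤ (G * G) ^ 2 := by
            have := hG1 t
            have := hG2 t
            gcongr
        _ = G ^ 4 := by ring
    by_cases h0 : |t| ≤ T₀
    · refine le_trans ?_ (le_add_right le_rfl)
      have hmem : t ∈ Set.Icc (-T₀) T₀ := abs_le.1 h0
      have hAt : A t = ENNReal.ofReal a := Set.indicator_of_mem hmem _
      rw [hAt]
      apply ENNReal.ofReal_le_ofReal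
      have h2 : ‖mm η t - mm η₀ t‖ ≤ 2 * η₀ * T₀ := by
        have e1 := mm_sub_one η t hη.le
        have e2 := mm_sub_one η₀ t hη₀.le
        have e3 : mm η t - mm η₀ t = (mm η t - 1) - (mm η₀ t - 1) := by ring
        rw [e3]
        have e4 := norm_sub_le (mm η t - 1) (mm η₀ t - 1)
        have e5 : η * |t| ≤ η₀ * T₀ := mul_le_mul hηη₀ h0 (abs_nonneg t) hη₀.le
        have e6 : η₀ * |t| ≤ η₀ * T₀ := mul_le_mul_of_nonneg_left h0 hη₀.le
        linarith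
      calc ‖D₁ t * D₂ t‖ ^ 2 * ‖mm η t - mm η₀ t‖ ^ 2 ≤ G ^ 4 * (2 * η₀ * T₀) ^ 2 := by
            gcongr
        _ = a := by rw [ha]; ring
    · push Not at h0
      refine le_trans ?_ (le_add_left le_rfl)
      by_cases h3 : |t| ≤ T₁
      · refine le_trans ?_ (le_add_right le_rfl)
        have h4 := h1 t h0.le h3
        show _ ≤ ENNReal.ofReal (2 * δ ^ 2) * (ENNReal.ofReal (‖D₂ t‖ ^ 2 * ‖mm η t‖ ^ 2) +
          ENNReal.ofReal (‖D₂ t‖ ^ 2 * ‖mm η₀ t‖ ^ 2))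
        rw [← ENNReal.ofReal_add (by positivity) (by positivity),
          ← ENNReal.ofReal_mul (by positivity)]
        apply ENNReal.ofReal_le_ofReal
        have h5 : ‖mm η t - mm η₀ t‖ ^ 2 ≤ 2 * (‖mm η t‖ ^ 2 + ‖mm η₀ t‖ ^ 2) := by
          have e4 := norm_sub_le (mm η t) (mm η₀ t)
          have e5 : ‖mm η t - mm η₀ t‖ ^ 2 ≤ (‖mm η t‖ + ‖mm η₀ t‖) ^ 2 :=
            pow_le_pow_left₀ (norm_nonneg _) e4 2
          nlinarith [sq_nonneg (‖mm η t‖ - ‖mm η₀ t‖)]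
        have h6 : ‖D₁ t * D₂ t‖ ^ 2 ≤ δ ^ 2 * ‖D₂ t‖ ^ 2 := by
          rw [norm_mul, mul_pow]
          gcongr
        calc ‖D₁ t * D₂ t‖ ^ 2 * ‖mm η t - mm η₀ t‖ ^ 2
            ≤ (δ ^ 2 * ‖D₂ t‖ ^ 2) * (2 * (‖mm η t‖ ^ 2 + ‖mm η₀ t‖ ^ 2)) := by
              gcongr
          _ = 2 * δ ^ 2 * (‖D₂ t‖ ^ 2 * ‖mm η t‖ ^ 2 + ‖D₂ t‖ ^ 2 * ‖mm η₀ t‖ ^ 2) := by ring
      · push Not at h3
        refine le_trans ?_ (le_add_left le_rfl)
        have htpos : 0 < |t| := hT₁.trans h3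
        have htne : t ≠ 0 := abs_pos.1 htpos
        have h7 : ENNReal.ofReal (K * |t| ^ (-2 : ℝ)) ≤ C t + C (-t) := by
          rcases le_or_gt 0 t with h8 | h8
          · rw [abs_of_nonneg h8] at h3 ⊢
            refine le_trans ?_ (le_add_right le_rfl)
            have : C t = ENNReal.ofReal (K * t ^ (-2 : ℝ)) :=
              Set.indicator_of_mem (show t ∈ Set.Ioi T₁ from h3) _
            rw [this]
          · rw [abs_of_neg h8] at h3 ⊢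
            refine le_trans ?_ (le_add_left le_rfl)
            have : C (-t) = ENNReal.ofReal (K * (-t) ^ (-2 : ℝ)) :=
              Set.indicator_of_mem (show -t ∈ Set.Ioi T₁ from h3) _
            rw [this]
        refine le_trans ?_ h7
        apply ENNReal.ofReal_le_ofReal
        have h9 : ‖mm η t - mm η₀ t‖ ≤ 4 / (η * |t|) := by
          have e1 := mm_decay η t hη htne
          have e2 := mm_decay η₀ t hη₀ htne
          have e4 := norm_sub_le (mm η t) (mm η₀ t)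
          have e5 : 2 / (η₀ * |t|) ≤ 2 / (η * |t|) := by
            gcongr
          have e6 : 4 / (η * |t|) = 2 / (η * |t|) + 2 / (η * |t|) := by ring
          linarith
        calc ‖D₁ t * D₂ t‖ ^ 2 * ‖mm η t - mm η₀ t‖ ^ 2 ≤ G ^ 4 * (4 / (η * |t|)) ^ 2 := by
              gcongr
          _ = K * |t| ^ (-2 : ℝ) := by
              rw [hK, Real.rpow_neg (abs_nonneg t)]
              have e7 : |t| ^ (2 : ℝ) = |t| ^ 2 := by exact_mod_cast Real.rpow_natCast |t| 2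
              rw [e7]
              field_simp
              ring
  calc ∫⁻ t : ℝ, ENNReal.ofReal (‖D₁ t * D₂ t‖ ^ 2 * ‖mm η t - mm η₀ t‖ ^ 2)
      ≤ ∫⁻ t, (A t + (ENNReal.ofReal (2 * δ ^ 2) * (B₁ t + B₂ t) + (C t + C (-t)))) :=
        lintegral_mono hpt
    _ = (∫⁻ t, A t) + ((∫⁻ t, ENNReal.ofReal (2 * δ ^ 2) * (B₁ t + B₂ t)) +
          ((∫⁻ t, C t) + ∫⁻ t, C (-t))) := by
        rw [lintegral_add_left hA, lintegral_add_right _ (show Measurable fun t => C t + C (-t) from hC.add hC'), lintegral_add_left hC]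
    _ ≤ ENNReal.ofReal (8 * G ^ 4 * η₀ ^ 2 * T₀ ^ 3) + (ENNReal.ofReal (4 * δ ^ 2 * W) +
          (ENNReal.ofReal (K / T₁) + ENNReal.ofReal (K / T₁))) := by
        rw [hAint, hCint, hCint']
        gcongr
    _ = _ := by
        rw [← ENNReal.ofReal_add (by positivity) (by positivity),
          ← ENNReal.ofReal_add (by positivity) (by positivity),
          ← ENNReal.ofReal_add (by positivity) (by positivity)]
        congr 1
        rw [hK]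
        field_simp
        ring

end Pool.Agent.Lib.H31W
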