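import Pool.Agent.Lib.H31W.Defs

/-!
# Chunk Q2 (M): sup bound for the second factor
-/

open Finset

namespace Pool.Agent.Lib.H31W

open ArithmeticFunction (vonMangoldt moebius)

private theorem Q2_main {E : Type*} [AddCommMonoid E] (F : ℕ → ℕ → E) (A B C : ℕ)
    (h : ∀ c d, C < c → F c d = 0) :
    ∑ n ∈ Ioc A B, ∑ x ∈ n.divisorsAntidiagonal, F x.1 x.2 =
      ∑ c ∈ Icc 1 C, ∑ d ∈ Ioc (A / c) (B / c), F c d := by
  rw [Finset.sum_sigma', Finset.sum_sigma']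
  symm
  refine Finset.sum_of_injOn (fun y : (_ : ℕ) × ℕ => (⟨y.1 * y.2, (y.1, y.2)⟩ : (_ : ℕ) × ℕ × ℕ))
    ?_ ?_ ?_ ?_
  · rintro ⟨c, d⟩ _ ⟨c', d'⟩ _ hcd
    simp only [Sigma.mk.injEq, heq_eq_eq, Prod.mk.injEq] at hcd
    obtain ⟨_, h1, h2⟩ := hcd
    subst h1
    subst h2
    rfl
  · rintro ⟨c, d⟩ hcd
    simp only [Finset.coe_sigma, Set.mem_sigma_iff, Finset.mem_coe, Finset.mem_Icc,
      Finset.mem_Ioc] at hcd
    simp only [Finset.coe_sigma, Set.mem_sigma_iff, Finset.mem_coe, Finset.mem_Ioc,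
      Nat.mem_divisorsAntidiagonal]
    obtain ⟨⟨hc1, hc2⟩, hd1, hd2⟩ := hcd
    have hc : 0 < c := hc1
    rw [Nat.div_lt_iff_lt_mul hc] at hd1
    rw [Nat.le_div_iff_mul_le hc] at hd2
    rw [mul_comm] at hd1 hd2
    refine ⟨⟨hd1, hd2⟩, trivial, ?_⟩
    omega
  · rintro ⟨n, a, b⟩ hn hni
    simp only [Finset.mem_sigma, Finset.mem_Ioc, Nat.mem_divisorsAntidiagonal] at hn
    obtain ⟨⟨h1, h2⟩, h3, h4⟩ := hn
    by_cases ha : C < a
    · exact h a b ha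
    · exfalso
      apply hni
      have ha0 : 0 < a := by
        rcases Nat.eq_zero_or_pos a with h5 | h5
        · exfalso
          apply h4
          rw [← h3, h5, zero_mul]
        · exact h5
      refine ⟨⟨a, b⟩, ?_, ?_⟩
      · simp only [Finset.coe_sigma, Set.mem_sigma_iff, Finset.mem_coe, Finset.mem_Icc,
          Finset.mem_Ioc]
        rw [Nat.div_lt_iff_lt_mul ha0, Nat.le_div_iff_mul_le ha0, mul_comm b a, h3]
        exact ⟨⟨ha0, not_lt.1 ha⟩, h1, h2⟩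
      · show (⟨a * b, (a, b)⟩ : (_ : ℕ) × ℕ × ℕ) = ⟨n, (a, b)⟩
        rw [h3]
  · rintro ⟨c, d⟩ _
    rfl

private theorem Q2_harm (x : ℕ) : ∑ a ∈ Icc 1 x, (1 : ℝ) / a ≤ 1 + Real.log x := by
  have h := harmonic_le_one_add_log x
  rw [harmonic_eq_sum_Icc] at h
  push_cast at h
  simpa [one_div] using h

private theorem Q2_mem {K : ℝ} (hK : 0 ≤ K) {n : ℕ} :
    n ∈ Ioc ⌊K⌋₊ ⌊2 * K⌋₊ ↔ K < n ∧ (n : ℝ) ≤ 2 * K := by
  rw [mem_Ioc, Nat.floor_lt hK, Nat.le_floor_iff (by linarith)]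

private theorem Q2_bet (V : ℝ) (n : ℕ) :
    bet V n = ∑ x ∈ n.divisorsAntidiagonal, if V < (x.2 : ℝ) then (moebius x.2 : ℝ) else 0 := by
  unfold bet
  rw [sum_filter, Nat.sum_divisorsAntidiagonal' (fun _ d : ℕ => if V < (d : ℝ) then (moebius d : ℝ) else 0)]

/-- **Sup bound for `bet`.** `V = X^(1/5)`.

Proof. `k = d e` with `d ∣ k`, `d > V`: `DD (cut (bet V) K (2K)) N t
= ∑_{1 ≤ e ≤ 2K/V} e^(-1-it) ∑_{d > V, K/e < d ≤ 2K/e} μ(d) d^(-1-it)` (`(de)^(-s) = d^(-s) e^(-s)`,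
`Complex.natCast_mul_natCast_cpow` or `Complex.mul_cpow_ofReal_nonneg`). The inner sum is `0` if
`2K/e ≤ max V (K/e)`, and otherwise at most `exp (-ℓ)` by `hS` with `u = max V (K/e) ≥ X^(1/5) ≥ X^(1/6)`,
`v = 2K/e ≤ 16 X^(4/5) ≤ X²`. Total at most `exp (-ℓ) ∑_{e ≤ 2K} 1/e ≤ (1 + log (2K)) exp (-ℓ)
≤ (1 + log (16 X)) exp (-ℓ) ≤ 3 log X exp (-ℓ)`, `X` large. -/
theorem sup_bet (hS : SupProp) : ∃ X₀ : ℝ, 1 ≤ X₀ ∧ ∀ X : ℝ, X₀ ≤ X → ∀ K : ℝ,
    X ^ (1 / 5 : ℝ) ≤ K → K ≤ 8 * X ^ (4 / 5 : ℝ) → ∀ N : ℕ, 2 * K ≤ N → ∀ t : ℝ,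
    Real.exp (4 * ell X) ≤ |t| → |t| ≤ X ^ 2 →
    ‖DD (cut (bet (X ^ (1 / 5 : ℝ))) K (2 * K)) N t‖ ≤ 3 * Real.log X * Real.exp (-ell X) := by
  obtain ⟨K₀, hK₀, hS⟩ := hS
  refine ⟨max K₀ 16, le_trans hK₀ (le_max_left _ _), ?_⟩
  intro X hX K hK1 hK2 N hN t ht1 ht2
  have hXK : K₀ ≤ X := le_trans (le_max_left _ _) hX
  have hX16 : 16 ≤ X := le_trans (le_max_right _ _) hX
  have hX1 : 1 ≤ X := by linarith
  have hX0 : 0 < X := by linarith
  obtain ⟨V, hVdef⟩ : ∃ V : ℝ, V = X ^ (1 / 5 : ℝ) := ⟨_, rfl⟩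
  rw [← hVdef] at hK1 ⊢
  have hV0 : 0 < V := by rw [hVdef]; exact Real.rpow_pos_of_pos hX0 _
  have hV6 : X ^ (1 / 6 : ℝ) ≤ V := by
    rw [hVdef]
    exact Real.rpow_le_rpow_of_exponent_le hX1 (by norm_num)
  have hKpos : 0 < K := hV0.trans_le hK1
  have hK16 : 2 * K ≤ 16 * X := by
    have h1 : X ^ (4 / 5 : ℝ) ≤ X ^ (1 : ℝ) :=
      Real.rpow_le_rpow_of_exponent_le hX1 (by norm_num)
    rw [Real.rpow_one] at h1
    linarith
  have hX2 : 16 * X ≤ X ^ 2 := by nlinarith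
  set s : ℂ := -(1 + (t : ℂ) * Complex.I) with hs
  set a : ℕ := ⌊K⌋₊ with ha
  set b : ℕ := ⌊2 * K⌋₊ with hb
  have hbK : (b : ℝ) ≤ 2 * K := Nat.floor_le (by linarith)
  have hbN : b ≤ N := by
    have : (b : ℝ) ≤ N := hbK.trans hN
    exact_mod_cast this
  -- step 1
  have h1 : DD (cut (bet V) K (2 * K)) N t = ∑ n ∈ Ioc a b, (bet V n : ℂ) * (n : ℂ) ^ s := by
    unfold DD
    rw [← hs]
    symm
    have hsub : Ioc a b ⊆ Icc 1 N := by
      intro n hn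
      rw [mem_Ioc] at hn
      rw [mem_Icc]
      omega
    rw [← sum_subset hsub]
    · refine sum_congr rfl fun n hn => ?_
      unfold cut
      rw [if_pos ((Q2_mem hKpos.le).1 hn)]
    · intro n _ hn
      unfold cut
      rw [if_neg (fun h => hn ((Q2_mem hKpos.le).2 h))]
      simp
  -- step 2
  obtain ⟨G, hG⟩ : ∃ G : ℕ → ℂ, ∀ d, G d = if V < (d : ℝ) then (moebius d : ℂ) * (d : ℂ) ^ s else 0 :=
    ⟨_, fun _ => rfl⟩
  have h2 : ∀ n ∈ Ioc a b, (bet V n : ℂ) * (n : ℂ) ^ s =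
      ∑ x ∈ n.divisorsAntidiagonal,
        (fun c d : ℕ => if c ≤ b then (c : ℂ) ^ s * G d else 0) x.1 x.2 := by
    intro n hn
    rw [mem_Ioc] at hn
    rw [Q2_bet, Complex.ofReal_sum, sum_mul]
    refine sum_congr rfl fun x hx => ?_
    rw [Nat.mem_divisorsAntidiagonal] at hx
    have hx1 : x.1 ≤ b := by
      have h3 : 0 < x.2 := by
        rcases Nat.eq_zero_or_pos x.2 with h4 | h4
        · exfalso
          apply hx.2
          rw [← hx.1, h4, mul_zero]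
        · exact h4
      calc x.1 ≤ x.1 * x.2 := Nat.le_mul_of_pos_right _ h3
        _ = n := hx.1
        _ ≤ b := hn.2
    simp only [if_pos hx1]
    rw [hG, ← hx.1, Nat.cast_mul, Complex.natCast_mul_natCast_cpow]
    by_cases hV : V < (x.2 : ℝ)
    · rw [if_pos hV, if_pos hV]
      push_cast
      ring
    · rw [if_neg hV, if_neg hV]
      simp
  rw [h1, sum_congr rfl h2, Q2_main (fun c d : ℕ => if c ≤ b then (c : ℂ) ^ s * G d else 0) a b b
    (fun c d hc => by simp only [if_neg (not_le.2 hc)])]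
  -- step 3
  have h3 : ∀ c ∈ Icc 1 b, ‖∑ d ∈ Ioc (a / c) (b / c),
      (fun c d : ℕ => if c ≤ b then (c : ℂ) ^ s * G d else 0) c d‖ ≤ 1 / c * Real.exp (-ell X) := by
    intro c hc
    rw [mem_Icc] at hc
    have hc0 : 0 < c := hc.1
    have hcR : (0 : ℝ) < c := by exact_mod_cast hc0
    simp only [if_pos hc.2]
    rw [← mul_sum, norm_mul]
    have h4 : ‖(c : ℂ) ^ s‖ = 1 / c := by
      rw [Complex.norm_natCast_cpow_of_pos hc0]
      have : s.re = -1 := by rw [hs]; simp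
      rw [this, Real.rpow_neg_one, one_div]
    rw [h4]
    refine mul_le_mul_of_nonneg_left ?_ (by positivity)
    have h5 : ∑ d ∈ Ioc (a / c) (b / c), G d =
        ∑ d ∈ Ioc ⌊max (K / c) V⌋₊ ⌊2 * K / c⌋₊, (moebius d : ℂ) * (d : ℂ) ^ s := by
      rw [sum_congr rfl fun d _ => hG d, ← sum_filter]
      refine sum_congr ?_ fun _ _ => rfl
      ext d
      rw [mem_filter, mem_Ioc, mem_Ioc, ha, hb, ← Nat.floor_div_natCast, ← Nat.floor_div_natCast,
        Nat.floor_lt (by positivity), Nat.floor_lt (by positivity), max_lt_iff]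
      tauto
    rw [h5]
    by_cases h6 : max (K / c) V ≤ 2 * K / c
    · refine (hS X hXK (max (K / c) V) (2 * K / c) t (hV6.trans (le_max_right _ _)) h6 ?_ ht1 ht2).1
      have h7 : 2 * K / c ≤ 2 * K := by
        rw [div_le_iff₀ hcR]
        have : (1 : ℝ) ≤ c := by exact_mod_cast hc.1
        nlinarith
      linarith
    · have h8 : Ioc ⌊max (K / c) V⌋₊ ⌊2 * K / c⌋₊ = ∅ := by
        rw [Ioc_eq_empty_iff, not_lt]
        exact Nat.floor_le_floor (not_le.1 h6).le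
      rw [h8, sum_empty, norm_zero]
      exact (Real.exp_pos _).le
  refine (norm_sum_le _ _).trans ((sum_le_sum h3).trans ?_)
  rw [← sum_mul]
  refine mul_le_mul_of_nonneg_right ?_ (Real.exp_pos _).le
  refine (Q2_harm b).trans ?_
  have hb1 : Real.log b ≤ Real.log (16 * X) := by
    rcases Nat.eq_zero_or_pos b with h0 | h0
    · rw [h0, Nat.cast_zero, Real.log_zero]
      exact Real.log_nonneg (by linarith)
    · have : (0 : ℝ) < b := by exact_mod_cast h0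
      exact Real.log_le_log this (hbK.trans hK16)
  rw [Real.log_mul (by norm_num) hX0.ne'] at hb1
  have h16 : Real.log 16 ≤ Real.log X := Real.log_le_log (by norm_num) hX16
  have h17 : (1 : ℝ) ≤ Real.log 16 := by
    rw [Real.le_log_iff_exp_le (by norm_num)]
    have := Real.exp_one_lt_d9
    linarith
  linarith

end Pool.Agent.Lib.H31W
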