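import Pool.Agent.Lib.H31W.P2
import Pool.Agent.Lib.H31W.P4
import Pool.Agent.Lib.H31W.P5
import Pool.Agent.Lib.H31W.Q1
import Pool.Agent.Lib.H31W.Q2
import Pool.Agent.Lib.H31W.Q3

/-!
# Chunk Q4 (M/L): one box, first factor long
-/

open Finset MeasureTheory

namespace Pool.Agent.Lib.H31W

open ArithmeticFunction (vonMangoldt moebius)

private theorem Q4_ell_pow {X : ℝ} (hX : 1 ≤ X) : ell X ^ 10 = Real.log X := by
  have h := Real.rpow_inv_natCast_pow (Real.log_nonneg hX) (n := 10) (by norm_num)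
  unfold ell
  rw [show (1 / 10 : ℝ) = (((10 : ℕ) : ℝ))⁻¹ by norm_num]
  exact h

private theorem Q4_ell_tendsto : Filter.Tendsto ell Filter.atTop Filter.atTop :=
  (tendsto_rpow_atTop (by norm_num : (0 : ℝ) < 1 / 10)).comp Real.tendsto_log_atTop

/-- the largeness conditions on `X` -/
private def Q4_Large (X : ℝ) : Prop :=
  4 ≤ X ∧ 4 ≤ Real.log X ∧ 2 ≤ ell X ∧ 2 ≤ X ^ (3 / 10 : ℝ) ∧ 16 ≤ X ^ (1 / 5 : ℝ) ∧
    875248 * (ell X ^ 80 * Real.exp (-(1 / 2 * ell X))) ≤ 1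

private theorem Q4_large : ∀ᶠ X : ℝ in Filter.atTop, Q4_Large X := by
  have h1 : ∀ᶠ X : ℝ in Filter.atTop, 4 ≤ Real.log X :=
    Real.tendsto_log_atTop.eventually_ge_atTop 4
  have h2 : ∀ᶠ X : ℝ in Filter.atTop, 2 ≤ ell X := Q4_ell_tendsto.eventually_ge_atTop 2
  have h3 : ∀ᶠ X : ℝ in Filter.atTop, 2 ≤ X ^ (3 / 10 : ℝ) :=
    (tendsto_rpow_atTop (by norm_num : (0 : ℝ) < 3 / 10)).eventually_ge_atTop 2
  have h4 : ∀ᶠ X : ℝ in Filter.atTop, 16 ≤ X ^ (1 / 5 : ℝ) :=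
    (tendsto_rpow_atTop (by norm_num : (0 : ℝ) < 1 / 5)).eventually_ge_atTop 16
  have h5 : ∀ᶠ y : ℝ in Filter.atTop, 875248 * (y ^ 80 * Real.exp (-(1 / 2 * y))) ≤ 1 := by
    have h6 : Filter.Tendsto (fun y : ℝ => y ^ 80 * Real.exp (-(1 / 2 * y))) Filter.atTop
        (nhds 0) := by
      have h7 := (Real.tendsto_pow_mul_exp_neg_atTop_nhds_zero 80).comp
        (Filter.tendsto_id.const_mul_atTop (by norm_num : (0 : ℝ) < 1 / 2))
      have h8 := h7.const_mul ((2 : ℝ) ^ 80)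
      rw [mul_zero] at h8
      refine h8.congr fun y => ?_
      simp only [Function.comp, id]
      rw [mul_pow]
      ring
    have h9 := h6.const_mul (875248 : ℝ)
    rw [mul_zero] at h9
    exact h9.eventually_le_const (by norm_num)
  have h6 := Q4_ell_tendsto.eventually h5
  filter_upwards [h1, h2, h3, h4, h6, Filter.eventually_ge_atTop 4] with X a b c d e f
  exact ⟨f, a, b, c, d, e⟩

private theorem Q4_final {X : ℝ} (h : Q4_Large X) {η : ℝ} (hη : 1 / (10 * Real.sqrt X) ≤ η) :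
    1 / (2 * Real.pi) * (8 * (4 * Real.log X ^ 2) ^ 4 * eta0 X ^ 2 * Real.exp (4 * ell X) ^ 3 +
      4 * (3 * Real.log X * Real.exp (-ell X)) ^ 2 * (1500 * Real.log X ^ 2) +
      32 * (4 * Real.log X ^ 2) ^ 4 / (η ^ 2 * X ^ 2)) ≤ Real.exp (-(3 / 2 * ell X)) := by
  obtain ⟨hX, hL, hl, -, -, hf⟩ := h
  have hX0 : 0 < X := by linarith
  have hl10 : ell X ^ 10 = Real.log X := Q4_ell_pow (by linarith)
  set l : ℝ := ell X with hldef
  have hXe : X = Real.exp (l ^ 10) := by rw [hl10, Real.exp_log hX0]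
  have h1 : 8 * (4 * Real.log X ^ 2) ^ 4 * eta0 X ^ 2 * Real.exp (4 * l) ^ 3 =
      2048 * l ^ 80 * Real.exp (-(2 * l)) := by
    have h2 : eta0 X ^ 2 * Real.exp (4 * l) ^ 3 = Real.exp (-(2 * l)) := by
      unfold eta0
      rw [← Real.exp_nat_mul, ← Real.exp_nat_mul, ← Real.exp_add]
      congr 1
      rw [← hldef]
      push_cast
      ring
    rw [mul_assoc, h2, ← hl10]
    ring
  have h2 : 4 * (3 * Real.log X * Real.exp (-l)) ^ 2 * (1500 * Real.log X ^ 2) =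
      54000 * l ^ 40 * Real.exp (-(2 * l)) := by
    have h3 : Real.exp (-l) ^ 2 = Real.exp (-(2 * l)) := by
      rw [← Real.exp_nat_mul]
      congr 1
      push_cast
      ring
    rw [← h3, ← hl10]
    ring
  have h3 : 32 * (4 * Real.log X ^ 2) ^ 4 / (η ^ 2 * X ^ 2) ≤
      819200 * l ^ 80 * Real.exp (-(2 * l)) := by
    have hη0 : 0 < 1 / (10 * Real.sqrt X) := by positivity
    have h4 : 1 / (100 * X) ≤ η ^ 2 := by
      have h5 : (1 / (10 * Real.sqrt X)) ^ 2 = 1 / (100 * X) := by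
        rw [div_pow, mul_pow, Real.sq_sqrt hX0.le]
        norm_num
      rw [← h5]
      exact pow_le_pow_left₀ hη0.le hη 2
    have h5 : X / 100 ≤ η ^ 2 * X ^ 2 := by
      have h6 : 1 / (100 * X) * X ^ 2 = X / 100 := by
        field_simp
      rw [← h6]
      exact mul_le_mul_of_nonneg_right h4 (by positivity)
    have h7 : 32 * (4 * Real.log X ^ 2) ^ 4 / (η ^ 2 * X ^ 2) ≤
        32 * (4 * Real.log X ^ 2) ^ 4 / (X / 100) :=
      div_le_div_of_nonneg_left (by positivity) (by positivity) h5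
    refine h7.trans ?_
    have h8 : 32 * (4 * Real.log X ^ 2) ^ 4 / (X / 100) = 819200 * l ^ 80 * Real.exp (-(l ^ 10)) := by
      rw [Real.exp_neg, ← hXe, ← hl10]
      field_simp
      ring
    rw [h8]
    refine mul_le_mul_of_nonneg_left ?_ (by positivity)
    rw [Real.exp_le_exp]
    have h9 : 2 * l ≤ l ^ 10 := by
      have h10 : (2 : ℝ) ^ 9 ≤ l ^ 9 := pow_le_pow_left₀ (by norm_num) hl 9
      nlinarith
    linarith
  have h4 : l ^ 40 ≤ l ^ 80 := pow_le_pow_right₀ (by linarith) (by norm_num)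
  have hE : 0 < Real.exp (-(2 * l)) := Real.exp_pos _
  have h5 : 8 * (4 * Real.log X ^ 2) ^ 4 * eta0 X ^ 2 * Real.exp (4 * l) ^ 3 +
      4 * (3 * Real.log X * Real.exp (-l)) ^ 2 * (1500 * Real.log X ^ 2) +
      32 * (4 * Real.log X ^ 2) ^ 4 / (η ^ 2 * X ^ 2) ≤
      875248 * (l ^ 80 * Real.exp (-(2 * l))) := by
    rw [h1, h2]
    have h6 : 54000 * l ^ 40 * Real.exp (-(2 * l)) ≤ 54000 * l ^ 80 * Real.exp (-(2 * l)) := by
      refine mul_le_mul_of_nonneg_right ?_ hE.le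
      linarith
    linarith
  have h6 : 1 / (2 * Real.pi) ≤ 1 := by
    have := Real.pi_gt_three
    rw [div_le_one (by positivity)]
    linarith
  have h7 : 0 ≤ 8 * (4 * Real.log X ^ 2) ^ 4 * eta0 X ^ 2 * Real.exp (4 * l) ^ 3 +
      4 * (3 * Real.log X * Real.exp (-l)) ^ 2 * (1500 * Real.log X ^ 2) +
      32 * (4 * Real.log X ^ 2) ^ 4 / (η ^ 2 * X ^ 2) := by positivity
  refine (mul_le_of_le_one_left h7 h6).trans (h5.trans ?_)
  have h8 : Real.exp (-(2 * l)) = Real.exp (-(1 / 2 * l)) * Real.exp (-(3 / 2 * l)) := by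
    rw [← Real.exp_add]
    congr 1
    ring
  rw [h8]
  calc 875248 * (l ^ 80 * (Real.exp (-(1 / 2 * l)) * Real.exp (-(3 / 2 * l))))
      = 875248 * (l ^ 80 * Real.exp (-(1 / 2 * l))) * Real.exp (-(3 / 2 * l)) := by ring
    _ ≤ 1 * Real.exp (-(3 / 2 * l)) := mul_le_mul_of_nonneg_right hf (Real.exp_pos _).le
    _ = Real.exp (-(3 / 2 * l)) := one_mul _

/-- **Type II sum, one box, `M ≥ √X/2`.** `V = X^(1/5)`, `f = conv (Λ on (M, 2M]) (bet V on (K, 2K])`.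

Proof. `planch` with `c₁ = 1`, `c₂ = -1` (the integrand of `QQ` is `(1 * av f η u + (-1) * av f η₀ u)²`) and
`DD_conv` (`Nf = ⌊2M⌋₊`, `Ng = ⌈2K⌉₊`): `QQ f η η₀ = (1/2π) ∫ ‖D₁ D₂‖² ‖mm η - mm η₀‖²`, with
`D₂ = DD (cut Λ M (2M)) Nf`, `D₁ = DD (cut (bet V) K (2K)) Ng`. Apply `box_abs` with
`T₀ = exp (4ℓ)`, `T₁ = X²`, `δ = 3 log X exp (-ℓ)` (`sup_bet`; `K ≤ 8X/M ≤ 16 √X ≤ 8 X^(4/5)`), `G = 4 (log X)²`
(`DD_le`, `sum_lam_div`, `sum_d_div`; `2M, 2K ≤ 16 X^(4/5) ≤ X/2`, so `1 + log ⌈2K⌉ ≤ 2 log X`), `W = 1500 (log X)²`: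
by `planch` with `c₁ = 1`, `c₂ = 0` and `short_L2`, `sum_lam_sq`
(`A = 2 (log (2M))² ≤ 2 (log X)²`, `1/(ηM) ≤ 10 √X · 2/√X = 20`, the same for `η₀ ≥ η`):
`∫ ‖D₂‖² ‖mm η‖² = 2π ∫ (av)² ≤ 2π · 2 (log X)² · 28`. Result: at most
`8 G⁴ η₀² T₀³ + 4 δ² W + 32 G⁴/(η² X²) ≤ (log X)^10 (exp (-14ℓ + 12ℓ) + exp (-2ℓ) + 100/X) ≤ exp (-(3/2) ℓ)` for
large `X` (`log X = ℓ^10`, so powers of `log X` are at most `exp (ℓ/4)`, and `X = exp (ℓ^10)`). -/
theorem box_A (hS : SupProp) : ∃ X₀ : ℝ, 1 ≤ X₀ ∧ ∀ X : ℝ, X₀ ≤ X → ∀ η : ℝ,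
    1 / (10 * Real.sqrt X) ≤ η → η ≤ eta0 X → ∀ M K : ℝ, Real.sqrt X / 2 ≤ M →
    X ^ (1 / 5 : ℝ) ≤ K → X / 4 ≤ M * K → M * K ≤ 8 * X →
    QQ (conv (cut (fun n => vonMangoldt n) M (2 * M)) (cut (bet (X ^ (1 / 5 : ℝ))) K (2 * K))) η
      (eta0 X) ≤ ENNReal.ofReal (Real.exp (-(3 / 2 * ell X))) := by
  obtain ⟨X₁, hX₁, hsup⟩ := sup_bet hS
  obtain ⟨X₂, hX₂⟩ := Filter.eventually_atTop.1 Q4_large
  refine ⟨max X₁ X₂, hX₁.trans (le_max_left _ _), fun X hX η hη hη₁ M K hM hK _ hMK => ?_⟩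
  have hlarge := hX₂ X ((le_max_right _ _).trans hX)
  have hXX₁ : X₁ ≤ X := (le_max_left _ _).trans hX
  have hfin := Q4_final hlarge hη
  obtain ⟨hX4, hL, hl, h310, h15, -⟩ := hlarge
  have hX0 : 0 < X := by linarith
  have hsq : 0 < Real.sqrt X := Real.sqrt_pos.2 hX0
  have hsq2 : 2 ≤ Real.sqrt X := by
    rw [show (2 : ℝ) = Real.sqrt 4 by rw [show (4 : ℝ) = 2 ^ 2 by norm_num]; exact (Real.sqrt_sq (by norm_num)).symm]
    exact Real.sqrt_le_sqrt hX4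
  have hM1 : 1 ≤ M := by linarith
  have hK1 : 1 ≤ K := by linarith
  have hη0 : 0 < η := lt_of_lt_of_le (by positivity) hη
  have he1 : eta0 X ≤ 1 := by
    unfold eta0
    rw [Real.exp_le_one_iff]
    linarith
  have he0 : 0 < eta0 X := Real.exp_pos _
  -- the sizes of `K` and `M`
  have hss : Real.sqrt X * Real.sqrt X = X := Real.mul_self_sqrt hX0.le
  have hKs : K ≤ 16 * Real.sqrt X := by
    have h1 : Real.sqrt X / 2 * K ≤ 8 * X :=
      (mul_le_mul_of_nonneg_right hM (by linarith)).trans hMK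
    have h2 : Real.sqrt X * K ≤ Real.sqrt X * (16 * Real.sqrt X) := by nlinarith
    exact le_of_mul_le_mul_left h2 hsq
  have hKs2 : K ≤ 8 * X ^ (4 / 5 : ℝ) := by
    have h1 : X ^ (4 / 5 : ℝ) = X ^ (3 / 10 : ℝ) * Real.sqrt X := by
      rw [Real.sqrt_eq_rpow, ← Real.rpow_add hX0]
      norm_num
    rw [h1]
    nlinarith
  have h45 : X ^ (1 / 5 : ℝ) * X ^ (4 / 5 : ℝ) = X := by
    rw [← Real.rpow_add hX0]
    norm_num
  have hMX : 2 * M ≤ X := by
    have h1 : M * 16 ≤ M * K := mul_le_mul_of_nonneg_left (h15.trans hK) (by linarith)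
    linarith
  have hlogX0 : 0 < Real.log X := by linarith
  have hlog2M0 : 0 ≤ Real.log (2 * M) := Real.log_nonneg (by linarith)
  have hlog2M : Real.log (2 * M) ≤ Real.log X := Real.log_le_log (by linarith) hMX
  -- the functions
  set f : ℕ → ℝ := cut (fun n => vonMangoldt n) M (2 * M) with hfdef
  set g : ℕ → ℝ := cut (bet (X ^ (1 / 5 : ℝ))) K (2 * K) with hgdef
  set Nf : ℕ := ⌊2 * M⌋₊ with hNf
  set Ng : ℕ := ⌈2 * K⌉₊ with hNg
  have hf0 : ∀ n, Nf < n → f n = 0 := by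
    intro n hn
    rw [hNf, Nat.floor_lt (by linarith)] at hn
    rw [hfdef, cut, if_neg]
    rintro ⟨-, h⟩
    linarith
  have hg0 : ∀ n, Ng < n → g n = 0 := by
    intro n hn
    have h1 : 2 * K < n := (Nat.le_ceil _).trans_lt (by exact_mod_cast hn)
    rw [hgdef, cut, if_neg]
    rintro ⟨-, h⟩
    linarith
  -- the bound for `D₂` in mean square
  have hWaux : ∀ η' : ℝ, η ≤ η' → η' ≤ 1 →
      ∫⁻ t : ℝ, ENNReal.ofReal (‖DD f Nf t‖ ^ 2 * ‖mm η' t‖ ^ 2) ≤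
        ENNReal.ofReal (1500 * Real.log X ^ 2) := by
    intro η' h1 h2
    have hη'0 : 0 < η' := hη0.trans_le h1
    have h3 := planch f Nf hf0 η' η' 1 0 hη'0 hη'0
    simp only [one_mul, zero_mul, add_zero, Complex.ofReal_one, Complex.ofReal_zero] at h3
    have h4 := short_L2 f M (2 * Real.log (2 * M) ^ 2) η' hM1 (by positivity) hη'0 h2
      (fun n hn => by
        by_contra h5
        apply hn
        rw [hfdef, cut, if_neg h5]) (sum_lam_sq M hM1)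
    rw [h3] at h4
    have h5 : ∫⁻ t : ℝ, ENNReal.ofReal (‖DD f Nf t‖ ^ 2 * ‖mm η' t‖ ^ 2) =
        ENNReal.ofReal (2 * Real.pi) * (ENNReal.ofReal (1 / (2 * Real.pi)) *
          ∫⁻ t : ℝ, ENNReal.ofReal (‖DD f Nf t‖ ^ 2 * ‖mm η' t‖ ^ 2)) := by
      rw [← mul_assoc, ← ENNReal.ofReal_mul (by positivity), mul_one_div_cancel (by positivity),
        ENNReal.ofReal_one, one_mul]
    rw [h5]
    refine (mul_le_mul_right h4 _).trans ?_
    rw [← ENNReal.ofReal_mul (by positivity)]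
    refine ENNReal.ofReal_le_ofReal ?_
    have h6 : 1 / (η' * M) ≤ 20 := by
      have h7 : 1 / 20 ≤ η' * M := by
        calc (1 / 20 : ℝ) = 1 / (10 * Real.sqrt X) * (Real.sqrt X / 2) := by
              field_simp
              norm_num
          _ ≤ η' * M := mul_le_mul (hη.trans h1) hM (by positivity) hη'0.le
      rw [div_le_iff₀ (by positivity)]
      linarith
    have h7 : 2 * Real.log (2 * M) ^ 2 * (8 + 1 / (η' * M)) ≤ 2 * Real.log X ^ 2 * 28 := by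
      refine mul_le_mul ?_ (by linarith) (by positivity) (by positivity)
      exact mul_le_mul_of_nonneg_left (pow_le_pow_left₀ hlog2M0 hlog2M 2) (by norm_num)
    have h8 : 2 * Real.pi * (2 * Real.log (2 * M) ^ 2 * (8 + 1 / (η' * M))) ≤
        2 * Real.pi * (2 * Real.log X ^ 2 * 28) :=
      mul_le_mul_of_nonneg_left h7 (by positivity)
    refine h8.trans ?_
    have h9 := Real.pi_lt_d2
    have h10 : 0 ≤ Real.log X ^ 2 := by positivity
    nlinarith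
  -- the trivial bounds
  have hG1 : ∀ t : ℝ, ‖DD g Ng t‖ ≤ 4 * Real.log X ^ 2 := by
    intro t
    have hNg1 : 1 ≤ Ng := Nat.one_le_iff_ne_zero.2 (Nat.ceil_pos.2 (by linarith)).ne'
    have h1 : ∑ n ∈ Icc 1 Ng, |g n| / n ≤ ∑ n ∈ Icc 1 Ng, (n.divisors.card : ℝ) / n := by
      refine Finset.sum_le_sum fun n _ => ?_
      refine div_le_div_of_nonneg_right ?_ (Nat.cast_nonneg n)
      rw [hgdef, cut]
      split_ifs
      · exact bet_le _ n
      · rw [abs_zero]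
        exact Nat.cast_nonneg _
    refine (DD_le g Ng t).trans (h1.trans ((sum_d_div Ng hNg1).trans ?_))
    have hNgr : (Ng : ℝ) ≤ 33 * Real.sqrt X := by
      have h2 : (Ng : ℝ) < 2 * K + 1 := Nat.ceil_lt_add_one (by linarith)
      linarith
    have h2 : Real.log Ng ≤ Real.log 33 + 1 / 2 * Real.log X := by
      have h3 := Real.log_le_log (by exact_mod_cast hNg1) hNgr
      rw [Real.log_mul (by norm_num) hsq.ne', Real.log_sqrt hX0.le] at h3
      linarith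
    have h3 : Real.log 33 ≤ 4 := by
      rw [Real.log_le_iff_le_exp (by norm_num)]
      have h4 : (2.7 : ℝ) ≤ Real.exp 1 := by
        have := Real.exp_one_gt_d9
        linarith
      have h5 : Real.exp 4 = Real.exp 1 ^ 4 := by
        rw [← Real.exp_nat_mul]
        norm_num
      rw [h5]
      calc (33 : ℝ) ≤ 2.7 ^ 4 := by norm_num
        _ ≤ Real.exp 1 ^ 4 := pow_le_pow_left₀ (by norm_num) h4 4
    have h4 : 0 ≤ Real.log Ng := Real.log_nonneg (by exact_mod_cast hNg1)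
    have h5 : 1 + Real.log Ng ≤ 2 * Real.log X := by linarith
    calc (1 + Real.log Ng) ^ 2 ≤ (2 * Real.log X) ^ 2 := pow_le_pow_left₀ (by linarith) h5 2
      _ = 4 * Real.log X ^ 2 := by ring
  have hG2 : ∀ t : ℝ, ‖DD f Nf t‖ ≤ 4 * Real.log X ^ 2 := by
    intro t
    refine (DD_le f Nf t).trans ((sum_lam_div M hM1 Nf).trans ?_)
    nlinarith
  -- the three parts
  have hbox := box_abs (DD g Ng) (DD f Nf) (DD_continuous g Ng) (DD_continuous f Nf)
    (3 * Real.log X * Real.exp (-ell X)) (4 * Real.log X ^ 2) (1500 * Real.log X ^ 2)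
    (Real.exp (4 * ell X)) (X ^ 2) η (eta0 X) (by positivity) (by positivity) (by positivity)
    (Real.exp_pos _) (by positivity) hη0 hη₁
    (fun t h1 h2 => hsup X hXX₁ K hK hKs2 Ng (Nat.le_ceil _) t h1 h2) hG1 hG2
    (hWaux η le_rfl (hη₁.trans he1)) (hWaux (eta0 X) hη₁ he1)
  -- Plancherel
  have hpl := planch (conv f g) (Nf * Ng) (conv_zero f g Nf Ng hf0 hg0) η (eta0 X) 1 (-1) hη0 he0
  have hQ : QQ (conv f g) η (eta0 X) = ENNReal.ofReal (1 / (2 * Real.pi)) *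
      ∫⁻ t : ℝ, ENNReal.ofReal (‖DD g Ng t * DD f Nf t‖ ^ 2 * ‖mm η t - mm (eta0 X) t‖ ^ 2) := by
    have h1 : QQ (conv f g) η (eta0 X) = ∫⁻ u : ℝ, ENNReal.ofReal
        ((1 * av (conv f g) η u + (-1) * av (conv f g) (eta0 X) u) ^ 2) := by
      unfold QQ
      refine lintegral_congr fun u => ?_
      congr 2
      ring
    rw [h1, hpl]
    congr 1
    refine lintegral_congr fun t => ?_
    rw [DD_conv f g Nf Ng (Nf * Ng) hf0 hg0 le_rfl t, mul_comm (DD f Nf t)]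
    congr 3
    push_cast
    ring_nf
  rw [hQ]
  refine (mul_le_mul_right hbox _).trans ?_
  rw [← ENNReal.ofReal_mul (by positivity)]
  exact ENNReal.ofReal_le_ofReal hfin

end Pool.Agent.Lib.H31W
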