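import Pool.Agent.Lib.H31W.P2
import Pool.Agent.Lib.H31W.P4
import Pool.Agent.Lib.H31W.P5
import Pool.Agent.Lib.H31W.Q1
import Pool.Agent.Lib.H31W.Q3

/-!
# Chunk Q5 (M/L): one box, second factor long
-/

open Finset MeasureTheory

namespace Pool.Agent.Lib.H31W

open ArithmeticFunction (vonMangoldt moebius)

private theorem Q5_cut_zero (f : ℕ → ℝ) (M : ℝ) (n : ℕ) (h : ⌊2 * M⌋₊ < n) :
    cut f M (2 * M) n = 0 := by
  unfold cut
  rw [if_neg]
  rintro ⟨-, h2⟩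
  exact absurd (Nat.le_floor h2) (not_le.mpr h)

private theorem Q5_cut_bet (V K : ℝ) (n : ℕ) :
    |cut (bet V) K (2 * K) n| ≤ (n.divisors.card : ℝ) := by
  unfold cut
  split_ifs
  · exact bet_le V n
  · simp

private theorem Q5_DDf (M t : ℝ) (hM : 0 ≤ M) :
    DD (cut (fun n => vonMangoldt n) M (2 * M)) ⌊2 * M⌋₊ t =
    ∑ n ∈ Ioc ⌊M⌋₊ ⌊2 * M⌋₊, (vonMangoldt n : ℂ) * (n : ℂ) ^ (-(1 + (t : ℂ) * Complex.I)) := by
  unfold DD
  have h1 : Ioc ⌊M⌋₊ ⌊2 * M⌋₊ ⊆ Icc 1 ⌊2 * M⌋₊ := by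
    intro n hn
    rw [Finset.mem_Ioc] at hn
    rw [Finset.mem_Icc]
    omega
  have h2 : ∑ n ∈ Ioc ⌊M⌋₊ ⌊2 * M⌋₊,
      ((cut (fun n => vonMangoldt n) M (2 * M) n : ℝ) : ℂ) *
        (n : ℂ) ^ (-(1 + (t : ℂ) * Complex.I)) =
      ∑ n ∈ Icc 1 ⌊2 * M⌋₊, ((cut (fun n => vonMangoldt n) M (2 * M) n : ℝ) : ℂ) *
        (n : ℂ) ^ (-(1 + (t : ℂ) * Complex.I)) := by
    refine Finset.sum_subset h1 (fun n hn hn' => ?_)
    rw [Finset.mem_Icc] at hn
    rw [Finset.mem_Ioc] at hn'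
    have h3 : cut (fun n => vonMangoldt n) M (2 * M) n = 0 := by
      unfold cut
      rw [if_neg]
      rintro ⟨h4, -⟩
      exact hn' ⟨(Nat.floor_lt hM).mpr h4, hn.2⟩
    rw [h3]
    simp
  rw [← h2]
  refine Finset.sum_congr rfl (fun n hn => ?_)
  rw [Finset.mem_Ioc] at hn
  have h3 : cut (fun n => vonMangoldt n) M (2 * M) n = vonMangoldt n := by
    unfold cut
    rw [if_pos]
    exact ⟨(Nat.floor_lt hM).mp hn.1, (Nat.le_floor_iff (by positivity)).mp hn.2⟩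
  rw [h3]

private theorem Q5_meansq (g : ℕ → ℝ) (Ng : ℕ) (hg : ∀ n, Ng < n → g n = 0) (η B : ℝ)
    (hη : 0 < η)
    (h : ∫⁻ u : ℝ, ENNReal.ofReal ((av g η u) ^ 2) ≤ ENNReal.ofReal B) :
    ∫⁻ t : ℝ, ENNReal.ofReal (‖DD g Ng t‖ ^ 2 * ‖mm η t‖ ^ 2) ≤
      ENNReal.ofReal (2 * Real.pi * B) := by
  have h1 := planch g Ng hg η η 1 0 hη hη
  simp only [one_mul, zero_mul, add_zero, Complex.ofReal_one, Complex.ofReal_zero] at h1
  have hpi : 0 < 2 * Real.pi := by positivity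
  have h2 : ∫⁻ t : ℝ, ENNReal.ofReal (‖DD g Ng t‖ ^ 2 * ‖mm η t‖ ^ 2) =
      ENNReal.ofReal (2 * Real.pi) * (ENNReal.ofReal (1 / (2 * Real.pi)) *
        ∫⁻ t : ℝ, ENNReal.ofReal (‖DD g Ng t‖ ^ 2 * ‖mm η t‖ ^ 2)) := by
    rw [← mul_assoc, ← ENNReal.ofReal_mul hpi.le, mul_one_div_cancel hpi.ne', ENNReal.ofReal_one,
      one_mul]
  rw [h2, ← h1, ENNReal.ofReal_mul hpi.le]
  gcongr

private theorem Q5_ell_tendsto : Filter.Tendsto ell Filter.atTop Filter.atTop := by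
  unfold ell
  exact (tendsto_rpow_atTop (by norm_num)).comp Real.tendsto_log_atTop

private theorem Q5_log_eq (X : ℝ) (hX : 1 ≤ X) : Real.log X = ell X ^ 10 := by
  unfold ell
  rw [← Real.rpow_natCast, ← Real.rpow_mul (Real.log_nonneg hX)]
  norm_num

private theorem Q5_ev : ∃ X₀ : ℝ, ∀ X : ℝ, X₀ ≤ X →
    2 ^ 20 ≤ X ∧ 1 ≤ Real.log X ∧ Real.exp (2 * ell X) ≤ X ∧
      1000000 * Real.log X ^ 8 ≤ Real.exp (ell X / 2) := by
  have h1 : ∀ᶠ X : ℝ in Filter.atTop, (2 : ℝ) ^ 20 ≤ X := Filter.eventually_ge_atTop _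
  have h2 : ∀ᶠ X : ℝ in Filter.atTop, 2 ≤ ell X :=
    Q5_ell_tendsto.eventually (Filter.eventually_ge_atTop _)
  have h3 : ∀ᶠ x : ℝ in Filter.atTop, 1000000 * x ^ 80 ≤ Real.exp (x / 2) := by
    have h4 := (isLittleO_pow_exp_pos_mul_atTop (b := 1 / 2) 80 (by norm_num)).bound
      (c := 1 / 1000000) (by norm_num)
    filter_upwards [h4, Filter.eventually_ge_atTop (0 : ℝ)] with x hx hx0
    rw [Real.norm_eq_abs, Real.norm_eq_abs, abs_of_nonneg (pow_nonneg hx0 _),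
      abs_of_pos (Real.exp_pos _)] at hx
    have h5 : (1 / 2 : ℝ) * x = x / 2 := by ring
    rw [h5] at hx
    linarith
  have h4 : ∀ᶠ X : ℝ in Filter.atTop, 1000000 * ell X ^ 80 ≤ Real.exp (ell X / 2) :=
    Q5_ell_tendsto.eventually h3
  obtain ⟨X₀, h⟩ := Filter.eventually_atTop.mp (h1.and (h2.and h4))
  refine ⟨X₀, fun X hX => ?_⟩
  obtain ⟨a1, a2, a3⟩ := h X hX
  have hX1 : (1 : ℝ) ≤ X := le_trans (by norm_num) a1
  have hl := Q5_log_eq X hX1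
  have hell : (2 : ℝ) * ell X ≤ ell X ^ 10 := by
    have h5 : (2 : ℝ) ≤ ell X ^ 9 := by
      calc (2 : ℝ) ≤ 2 ^ 9 := by norm_num
        _ ≤ ell X ^ 9 := pow_le_pow_left₀ (by norm_num) a2 9
    calc (2 : ℝ) * ell X ≤ ell X ^ 9 * ell X := by
          apply mul_le_mul_of_nonneg_right h5 (by linarith)
      _ = ell X ^ 10 := by ring
  refine ⟨a1, ?_, ?_, ?_⟩
  · rw [hl]
    linarith
  · calc Real.exp (2 * ell X) ≤ Real.exp (Real.log X) := by
          apply Real.exp_le_exp.mpr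
          rw [hl]
          exact hell
      _ = X := Real.exp_log (by linarith)
  · calc 1000000 * Real.log X ^ 8 = 1000000 * ell X ^ 80 := by
          rw [hl]
          ring
      _ ≤ Real.exp (ell X / 2) := a3

private theorem Q5_num (X l L η : ℝ) (hX : 0 < X) (hL : 1 ≤ L) (hη : 1 / (10 * Real.sqrt X) ≤ η)
    (h1 : Real.exp (2 * l) ≤ X) (h2 : 1000000 * L ^ 8 ≤ Real.exp (l / 2)) :
    8 * (4 * L ^ 2) ^ 4 * (Real.exp (-(7 * l))) ^ 2 * (Real.exp (4 * l)) ^ 3 +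
      4 * (Real.exp (-l)) ^ 2 * (3000 * L ^ 3) + 32 * (4 * L ^ 2) ^ 4 / (η ^ 2 * X ^ 2) ≤
      Real.exp (-(3 / 2 * l)) := by
  have hs : 0 < Real.sqrt X := Real.sqrt_pos.mpr hX
  have hη0 : 0 < η := lt_of_lt_of_le (by positivity) hη
  set E := Real.exp (-(2 * l)) with hE
  have hEpos : 0 < E := Real.exp_pos _
  have e1 : (Real.exp (-(7 * l))) ^ 2 * (Real.exp (4 * l)) ^ 3 = E := by
    rw [← Real.exp_nat_mul, ← Real.exp_nat_mul, ← Real.exp_add, hE]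
    congr 1
    push_cast
    ring
  have e2 : (Real.exp (-l)) ^ 2 = E := by
    rw [← Real.exp_nat_mul, hE]
    congr 1
    push_cast
    ring
  have e3 : 1 / X ≤ E := by
    rw [hE, Real.exp_neg, one_div]
    exact inv_anti₀ (Real.exp_pos _) h1
  have e4 : Real.exp (l / 2) * E = Real.exp (-(3 / 2 * l)) := by
    rw [hE, ← Real.exp_add]
    congr 1
    ring
  have e5 : 1 / η ^ 2 ≤ 100 * X := by
    have h3 : 1 / η ≤ 10 * Real.sqrt X := by
      rw [div_le_iff₀ hη0]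
      rw [div_le_iff₀ (by positivity)] at hη
      linarith
    calc 1 / η ^ 2 = (1 / η) ^ 2 := by rw [div_pow, one_pow]
      _ ≤ (10 * Real.sqrt X) ^ 2 := pow_le_pow_left₀ (by positivity) h3 2
      _ = 100 * X := by rw [mul_pow, Real.sq_sqrt hX.le]; norm_num
  have e6 : 32 * (4 * L ^ 2) ^ 4 / (η ^ 2 * X ^ 2) ≤ 819200 * L ^ 8 * E := by
    calc 32 * (4 * L ^ 2) ^ 4 / (η ^ 2 * X ^ 2) = 8192 * L ^ 8 * (1 / η ^ 2) * (1 / X) * (1 / X) := by
          field_simp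
          ring
      _ ≤ 8192 * L ^ 8 * (100 * X) * (1 / X) * (1 / X) := by gcongr
      _ = 819200 * L ^ 8 * (1 / X) := by
          field_simp
          ring
      _ ≤ 819200 * L ^ 8 * E := by gcongr
  have e7 : L ^ 3 ≤ L ^ 8 := pow_le_pow_right₀ hL (by norm_num)
  have e8 : 8 * (4 * L ^ 2) ^ 4 * (Real.exp (-(7 * l))) ^ 2 * (Real.exp (4 * l)) ^ 3 =
      2048 * L ^ 8 * E := by
    rw [← e1]
    ring
  rw [e8, e2, ← e4]
  have e9 : 4 * E * (3000 * L ^ 3) ≤ 12000 * L ^ 8 * E := by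
    nlinarith [mul_le_mul_of_nonneg_right e7 hEpos.le]
  have e10 : 1000000 * L ^ 8 * E ≤ Real.exp (l / 2) * E :=
    mul_le_mul_of_nonneg_right h2 hEpos.le
  have e11 : 0 ≤ L ^ 8 * E := by positivity
  nlinarith

/-- **Type II sum, one box, `K ≥ √X/2`.** As Q4 (read its docstring) with the roles exchanged:
`D₁ = DD (cut Λ M (2M)) Nf` has the sup bound `δ = exp (-ℓ)` directly from `hS` (`u = M ≥ X^(1/5) ≥ X^(1/6)`,
`v = 2M ≤ X²`; `DD (cut Λ M (2M)) N t = ∑_{Ioc ⌊M⌋ ⌊2M⌋} Λ(n) n^(-1-it)`), and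
`D₂ = DD (cut (bet V) K (2K)) Ng` the mean square `W = 2π A (8 + 20)`,
`A = 2 (1 + log (2K))³ ≤ 16 (log X)³` (`bet_le`, `sum_dsq` with `x = ⌊2K⌋₊`). -/
theorem box_B (hS : SupProp) : ∃ X₀ : ℝ, 1 ≤ X₀ ∧ ∀ X : ℝ, X₀ ≤ X → ∀ η : ℝ,
    1 / (10 * Real.sqrt X) ≤ η → η ≤ eta0 X → ∀ M K : ℝ, Real.sqrt X / 2 ≤ K →
    X ^ (1 / 5 : ℝ) ≤ M → X / 4 ≤ M * K → M * K ≤ 8 * X →
    QQ (conv (cut (fun n => vonMangoldt n) M (2 * M)) (cut (bet (X ^ (1 / 5 : ℝ))) K (2 * K))) η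
      (eta0 X) ≤ ENNReal.ofReal (Real.exp (-(3 / 2 * ell X))) := by
  obtain ⟨KS, hKS1, hKS⟩ := hS
  obtain ⟨Y₀, hY⟩ := Q5_ev
  refine ⟨max KS Y₀, hKS1.trans (le_max_left _ _), fun X hX η hη hη0 M K hK hM _ hMK => ?_⟩
  obtain ⟨hX20, hL, hexp, hbig⟩ := hY X ((le_max_right _ _).trans hX)
  have hX1 : (1 : ℝ) ≤ X := le_trans (by norm_num) hX20
  have hXpos : 0 < X := by linarith
  have hs : 0 < Real.sqrt X := Real.sqrt_pos.mpr hXpos
  have hηpos : 0 < η := lt_of_lt_of_le (by positivity) hη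
  have hss : Real.sqrt X * Real.sqrt X = X := Real.mul_self_sqrt hXpos.le
  have hs10 : (1024 : ℝ) ≤ Real.sqrt X := by
    apply Real.le_sqrt_of_sq_le
    norm_num at hX20 ⊢
    linarith
  have hKpos : 0 < K := lt_of_lt_of_le (by positivity) hK
  have hM1 : 1 ≤ M := le_trans (Real.one_le_rpow hX1 (by norm_num)) hM
  have hMpos : 0 < M := by linarith
  have hK1 : 1 ≤ K := by linarith
  -- upper bounds for M and K
  have hMle : M ≤ 16 * Real.sqrt X := by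
    by_contra hcon
    push Not at hcon
    have : 16 * Real.sqrt X * (Real.sqrt X / 2) < M * K :=
      mul_lt_mul hcon hK (by positivity) hMpos.le
    nlinarith
  have hKle : 2 * K ≤ X := by
    have h16 : (16 : ℝ) ≤ M := by
      refine le_trans ?_ hM
      calc (16 : ℝ) = ((2 : ℝ) ^ (20 : ℝ)) ^ (1 / 5 : ℝ) := by
            rw [← Real.rpow_mul (by norm_num)]
            norm_num
        _ ≤ X ^ (1 / 5 : ℝ) := by
            apply Real.rpow_le_rpow (by positivity) _ (by norm_num)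
            norm_num at hX20 ⊢
            linarith
    nlinarith
  have hMX : 2 * M ≤ X := by nlinarith
  have hMX2 : 2 * M ≤ X ^ 2 := by nlinarith
  -- the data
  set f : ℕ → ℝ := cut (fun n => vonMangoldt n) M (2 * M) with hf
  set g : ℕ → ℝ := cut (bet (X ^ (1 / 5 : ℝ))) K (2 * K) with hg
  set Nf : ℕ := ⌊2 * M⌋₊ with hNf
  set Ng : ℕ := ⌊2 * K⌋₊ with hNg
  have hf0 : ∀ n, Nf < n → f n = 0 := fun n hn => Q5_cut_zero _ M n hn
  have hg0 : ∀ n, Ng < n → g n = 0 := fun n hn => Q5_cut_zero _ K n hn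
  have hNg1 : 1 ≤ Ng := by
    apply Nat.le_floor
    push_cast
    linarith
  have hNgle : (Ng : ℝ) ≤ 2 * K := Nat.floor_le (by positivity)
  have hNgpos : (0 : ℝ) < Ng := by exact_mod_cast hNg1
  have hlogNg : Real.log Ng ≤ Real.log X := Real.log_le_log hNgpos (hNgle.trans hKle)
  have hlogNg0 : 0 ≤ Real.log Ng := Real.log_nonneg (by exact_mod_cast hNg1)
  have hlog2M : Real.log (2 * M) ≤ Real.log X := Real.log_le_log (by positivity) hMX
  have hη₀pos : 0 < eta0 X := Real.exp_pos _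
  have hellnn : 0 ≤ ell X := by
    unfold ell
    exact Real.rpow_nonneg (by linarith) _
  have hη₀1 : eta0 X ≤ 1 := by
    unfold eta0
    apply Real.exp_le_one_iff.mpr
    linarith
  -- mean square of the second factor
  have hsumg : ∑ n ∈ Icc 1 ⌊2 * K⌋₊, g n ^ 2 ≤ (16 * Real.log X ^ 3) * K := by
    calc ∑ n ∈ Icc 1 ⌊2 * K⌋₊, g n ^ 2 ≤ ∑ n ∈ Icc 1 Ng, ((n.divisors.card : ℝ)) ^ 2 := by
          refine Finset.sum_le_sum (fun n _ => ?_)
          rw [← sq_abs]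
          exact pow_le_pow_left₀ (abs_nonneg _) (Q5_cut_bet _ K n) 2
      _ ≤ Ng * (1 + Real.log Ng) ^ 3 := sum_dsq Ng hNg1
      _ ≤ (2 * K) * (2 * Real.log X) ^ 3 := by
          gcongr
          linarith
      _ = (16 * Real.log X ^ 3) * K := by ring
  have hsupg : ∀ n, g n ≠ 0 → K < n ∧ (n : ℝ) ≤ 2 * K := by
    intro n hn
    by_contra hcon
    apply hn
    rw [hg]
    unfold cut
    rw [if_neg hcon]
  have hW : ∀ θ : ℝ, η ≤ θ → θ ≤ 1 →
      ∫⁻ t : ℝ, ENNReal.ofReal (‖DD g Ng t‖ ^ 2 * ‖mm θ t‖ ^ 2) ≤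
        ENNReal.ofReal (3000 * Real.log X ^ 3) := by
    intro θ hθ hθ1
    have hθpos : 0 < θ := lt_of_lt_of_le hηpos hθ
    have h1 := short_L2 g K (16 * Real.log X ^ 3) θ hK1 (by positivity) hθpos hθ1 hsupg hsumg
    refine (Q5_meansq g Ng hg0 θ _ hθpos h1).trans (ENNReal.ofReal_le_ofReal ?_)
    have h2 : 1 / (θ * K) ≤ 20 := by
      rw [div_le_iff₀ (by positivity)]
      have h3 : 1 / (10 * Real.sqrt X) * (Real.sqrt X / 2) ≤ θ * K :=
        mul_le_mul (hη.trans hθ) hK (by positivity) hθpos.le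
      have h4 : 1 / (10 * Real.sqrt X) * (Real.sqrt X / 2) = 1 / 20 := by
        field_simp
        norm_num
      rw [h4] at h3
      linarith
    have h3 : 0 ≤ 16 * Real.log X ^ 3 := by positivity
    calc 2 * Real.pi * (16 * Real.log X ^ 3 * (8 + 1 / (θ * K)))
        ≤ 2 * 3.15 * (16 * Real.log X ^ 3 * (8 + 20)) := by
          gcongr
          exact Real.pi_lt_d2.le
      _ ≤ 3000 * Real.log X ^ 3 := by nlinarith
  -- sup bounds
  have hG1 : ∀ t : ℝ, ‖DD f Nf t‖ ≤ 4 * Real.log X ^ 2 := by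
    intro t
    refine (DD_le f Nf t).trans ((sum_lam_div M hM1 Nf).trans ?_)
    nlinarith
  have hG2 : ∀ t : ℝ, ‖DD g Ng t‖ ≤ 4 * Real.log X ^ 2 := by
    intro t
    refine (DD_le g Ng t).trans ?_
    calc ∑ n ∈ Icc 1 Ng, |g n| / n ≤ ∑ n ∈ Icc 1 Ng, ((n.divisors.card : ℝ)) / n := by
          refine Finset.sum_le_sum (fun n _ => ?_)
          exact div_le_div_of_nonneg_right (Q5_cut_bet _ K n) (Nat.cast_nonneg _)
      _ ≤ (1 + Real.log Ng) ^ 2 := sum_d_div Ng hNg1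
      _ ≤ (2 * Real.log X) ^ 2 := by
          apply pow_le_pow_left₀ (by linarith)
          linarith
      _ = 4 * Real.log X ^ 2 := by ring
  have h1 : ∀ t : ℝ, Real.exp (4 * ell X) ≤ |t| → |t| ≤ X ^ 2 →
      ‖DD f Nf t‖ ≤ Real.exp (-ell X) := by
    intro t ht1 ht2
    have hu : X ^ (1 / 6 : ℝ) ≤ M :=
      (Real.rpow_le_rpow_of_exponent_le hX1 (by norm_num)).trans hM
    have := (hKS X ((le_max_left _ _).trans hX) M (2 * M) t hu (by linarith) hMX2 ht1 ht2).2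
    rw [hf, hNf, Q5_DDf M t hMpos.le]
    exact this
  have hbox := box_abs (DD f Nf) (DD g Ng) (DD_continuous f Nf) (DD_continuous g Ng)
    (Real.exp (-ell X)) (4 * Real.log X ^ 2) (3000 * Real.log X ^ 3) (Real.exp (4 * ell X))
    (X ^ 2) η (eta0 X) (Real.exp_pos _).le (by positivity) (by positivity) (Real.exp_pos _)
    (by positivity) hηpos hη0 h1 hG1 hG2 (hW η le_rfl (hη0.trans hη₀1)) (hW (eta0 X) hη0 hη₀1)
  -- Plancherel
  have hpl := planch (conv f g) (Nf * Ng) (fun n hn => conv_zero f g Nf Ng hf0 hg0 n hn) η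
    (eta0 X) 1 (-1) hηpos hη₀pos
  have hQ : QQ (conv f g) η (eta0 X) = ENNReal.ofReal (1 / (2 * Real.pi)) *
      ∫⁻ t : ℝ, ENNReal.ofReal (‖DD f Nf t * DD g Ng t‖ ^ 2 * ‖mm η t - mm (eta0 X) t‖ ^ 2) := by
    have h5 : QQ (conv f g) η (eta0 X) = ∫⁻ u : ℝ, ENNReal.ofReal
        ((1 * av (conv f g) η u + (-1) * av (conv f g) (eta0 X) u) ^ 2) := by
      unfold QQ
      refine lintegral_congr (fun u => ?_)
      congr 2
      ring
    rw [h5, hpl]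
    congr 1
    refine lintegral_congr (fun t => ?_)
    rw [DD_conv f g Nf Ng (Nf * Ng) hf0 hg0 le_rfl t]
    congr 4
    push_cast
    ring
  rw [hQ]
  have hpi1 : ENNReal.ofReal (1 / (2 * Real.pi)) ≤ 1 := by
    rw [ENNReal.ofReal_le_one, div_le_one (by positivity)]
    linarith [Real.pi_gt_three]
  refine (mul_le_mul' hpi1 hbox).trans ?_
  rw [one_mul]
  apply ENNReal.ofReal_le_ofReal
  exact Q5_num X (ell X) (Real.log X) η hXpos hL hη hexp hbig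

end Pool.Agent.Lib.H31W
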