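import Pool.Agent.Lib.H31W.T0
import Pool.Agent.Lib.H31W.Q1
import Pool.Agent.Lib.H31W.Q3

/-!
# Chunk T1 (M): type I sums
-/

open Finset

namespace Pool.Agent.Lib.H31W

open ArithmeticFunction (vonMangoldt moebius)

theorem T1_a (L : ℝ) (hL : 100000 ≤ L) :
    80 * L * Real.exp (L ^ (1 / 10 : ℝ)) ≤ Real.exp (L / 10) := by
  have hL0 : 0 ≤ L := by linarith
  have h1 : L ^ (1 / 10 : ℝ) ≤ L / 20 := by
    have h2 : L ^ (1 / 10 : ℝ) ≤ L ^ (1 / 2 : ℝ) :=
      Real.rpow_le_rpow_of_exponent_le (by linarith) (by norm_num)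
    have h3 : L ^ (1 / 2 : ℝ) = Real.sqrt L := (Real.sqrt_eq_rpow L).symm
    have h4 : Real.sqrt L * Real.sqrt L = L := Real.mul_self_sqrt hL0
    have h5 : 20 ≤ Real.sqrt L := by
      rw [show (20 : ℝ) = Real.sqrt (20 ^ 2) by rw [Real.sqrt_sq (by norm_num)]]
      exact Real.sqrt_le_sqrt (by norm_num; linarith)
    rw [h3] at h2
    nlinarith
  have h6 : 80 * L ≤ Real.exp (L / 20) := by
    have h7 := Real.pow_div_factorial_le_exp (L / 20) (by positivity) 2
    have h8 : ((Nat.factorial 2 : ℕ) : ℝ) = 2 := by norm_num [Nat.factorial]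
    rw [h8] at h7
    refine le_trans ?_ h7
    nlinarith
  have h9 : Real.exp (L / 10) = Real.exp (L / 20) * Real.exp (L / 20) := by
    rw [← Real.exp_add]
    congr 1
    ring
  rw [h9]
  exact mul_le_mul h6 (Real.exp_le_exp.mpr h1) (Real.exp_pos _).le (Real.exp_pos _).le

theorem T1_b (L : ℝ) (hL : 100000 ≤ L) :
    80 * L * Real.exp (-(L / 10)) ≤ Real.exp (-(L ^ (1 / 10 : ℝ))) := by
  have h := T1_a L hL
  rw [Real.exp_neg, Real.exp_neg]
  rw [← div_eq_mul_inv, div_le_iff₀ (Real.exp_pos _), inv_mul_eq_div,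
    le_div_iff₀ (Real.exp_pos _)]
  exact h

/-- the difference of the averages of `1`. -/
theorem T1_one {X η u : ℝ} (hX : 1 ≤ X) (h1 : 1 / (10 * Real.sqrt X) ≤ η) (hu : Real.log X ≤ u)
    {c : ℕ} (hc : 1 ≤ c) (hcu : Real.log c ≤ u) :
    |av (fun _ => 1) η (u - Real.log c) - 1| ≤ 10 * c * Real.exp (-(Real.log X / 2)) := by
  have hX0 : 0 < X := by linarith
  have hs : Real.sqrt X = Real.exp (Real.log X / 2) := by
    rw [Real.sqrt_eq_rpow, Real.rpow_def_of_pos hX0]
    congr 1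
    ring
  have hη : 0 < η := lt_of_lt_of_le (by positivity) h1
  have hc0 : (0 : ℝ) < c := by exact_mod_cast hc
  refine (av_one (u - Real.log c) η (by linarith) hη).trans ?_
  have h2 : Real.exp (-(u - Real.log c)) ≤ c * Real.exp (-Real.log X) := by
    rw [show -(u - Real.log c) = Real.log c + -u by ring, Real.exp_add, Real.exp_log hc0]
    exact mul_le_mul_of_nonneg_left (Real.exp_le_exp.mpr (by linarith)) hc0.le
  have h3 : 1 ≤ η * (10 * Real.exp (Real.log X / 2)) := by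
    rw [hs, div_le_iff₀ (by positivity)] at h1
    exact h1
  rw [div_le_iff₀ hη]
  calc Real.exp (-(u - Real.log c)) ≤ c * Real.exp (-Real.log X) := h2
    _ = c * Real.exp (-Real.log X) * 1 := by ring
    _ ≤ c * Real.exp (-Real.log X) * (η * (10 * Real.exp (Real.log X / 2))) := by gcongr
    _ = 10 * c * (Real.exp (-Real.log X) * Real.exp (Real.log X / 2)) * η := by ring
    _ = 10 * c * Real.exp (-(Real.log X / 2)) * η := by
        rw [← Real.exp_add]
        congr 3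
        ring

/-- the difference of the averages of `log`. -/
theorem T1_log {X η u : ℝ} (hX : 1 ≤ X) (h1 : 1 / (10 * Real.sqrt X) ≤ η) (hu : Real.log X ≤ u)
    (hu2 : u ≤ Real.log X + 1) (hL : 1 ≤ Real.log X) {c : ℕ} (hc : 1 ≤ c)
    (hcu : 1 ≤ u - Real.log c) :
    |av (fun n => Real.log n) η (u - Real.log c) - (u - Real.log c + η / 2)| ≤
      20 * Real.log X * c * Real.exp (-(Real.log X / 2)) := by
  have hX0 : 0 < X := by linarith
  have hs : Real.sqrt X = Real.exp (Real.log X / 2) := by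
    rw [Real.sqrt_eq_rpow, Real.rpow_def_of_pos hX0]
    congr 1
    ring
  have hη : 0 < η := lt_of_lt_of_le (by positivity) h1
  have hc1 : (1 : ℝ) ≤ c := by exact_mod_cast hc
  have hc0 : (0 : ℝ) < c := by linarith
  refine (av_log (u - Real.log c) η hcu hη).trans ?_
  have h2 : Real.exp (-(u - Real.log c)) ≤ c * Real.exp (-Real.log X) := by
    rw [show -(u - Real.log c) = Real.log c + -u by ring, Real.exp_add, Real.exp_log hc0]
    exact mul_le_mul_of_nonneg_left (Real.exp_le_exp.mpr (by linarith)) hc0.le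
  have h3 : 1 ≤ η * (10 * Real.exp (Real.log X / 2)) := by
    rw [hs, div_le_iff₀ (by positivity)] at h1
    exact h1
  have h4 : u - Real.log c ≤ 2 * Real.log X := by
    have := Real.log_nonneg hc1
    linarith
  rw [div_le_iff₀ hη]
  calc (u - Real.log c) * Real.exp (-(u - Real.log c))
      ≤ (2 * Real.log X) * (c * Real.exp (-Real.log X)) :=
        mul_le_mul h4 h2 (Real.exp_pos _).le (by linarith)
    _ = (2 * Real.log X) * (c * Real.exp (-Real.log X)) * 1 := by ring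
    _ ≤ (2 * Real.log X) * (c * Real.exp (-Real.log X)) *
        (η * (10 * Real.exp (Real.log X / 2))) := by
        gcongr
    _ = 20 * Real.log X * c * (Real.exp (-Real.log X) * Real.exp (Real.log X / 2)) * η := by ring
    _ = 20 * Real.log X * c * Real.exp (-(Real.log X / 2)) * η := by
        rw [← Real.exp_add]
        congr 3
        ring

theorem T1_harm (C : ℕ) (hC : 1 ≤ C) :
    ∑ d ∈ Icc 1 C, (1 : ℝ) / d ≤ 1 + Real.log C := by
  have h := harmonic_le_one_add_log C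
  rw [harmonic_eq_sum_Icc] at h
  push_cast at h
  simpa [one_div] using h

/-- **Type I, coefficients `gam`.** `V = X^(1/5)`, `C = ⌊V²⌋₊`. `av_conv` and `av_one` (`v = u - log c ≥ (3/5) log X ≥ 0`,
`exp (-v) = c e^(-u) ≤ c/X`): `av (conv gam 1) η u = ∑_{c ≤ C} (gam c/c)(1 + θ c/(X η))`, `|θ| ≤ 1`; the difference for `η`
and `η₀ ≥ η` is at most `∑_{c ≤ C} (log c/c) · 2c/(Xη) ≤ 2 V² log X/(X η) ≤ 20 X^(2/5 - 1/2) log X ≤ exp (-ℓ)` for large `X`
(`gam_le`, `gam_zero`). -/
theorem typeI_gam : ∃ X₀ : ℝ, 1 ≤ X₀ ∧ ∀ X : ℝ, X₀ ≤ X → ∀ η : ℝ,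
    1 / (10 * Real.sqrt X) ≤ η → η ≤ eta0 X → ∀ u : ℝ, Real.log X ≤ u →
    |av (conv (gam (X ^ (1 / 5 : ℝ)) (X ^ (1 / 5 : ℝ))) (fun _ => 1)) η u -
      av (conv (gam (X ^ (1 / 5 : ℝ)) (X ^ (1 / 5 : ℝ))) (fun _ => 1)) (eta0 X) u| ≤
      Real.exp (-ell X) := by
  refine ⟨Real.exp 100000, Real.one_le_exp (by norm_num), ?_⟩
  intro X hX η hη1 hη2 u hu
  have hX0 : 0 < X := lt_of_lt_of_le (Real.exp_pos _) hX
  have hX1 : 1 ≤ X := (Real.one_le_exp (by norm_num)).trans hX
  have hL : 100000 ≤ Real.log X := by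
    rw [Real.le_log_iff_exp_le hX0]
    exact hX
  set L := Real.log X with hLdef
  have hV : X ^ (1 / 5 : ℝ) = Real.exp (L / 5) := by
    rw [Real.rpow_def_of_pos hX0]
    congr 1
    ring
  set V := X ^ (1 / 5 : ℝ) with hVdef
  have hV0 : 0 ≤ V := by rw [hV]; exact (Real.exp_pos _).le
  have hVV : V * V = Real.exp (2 / 5 * L) := by
    rw [hV, ← Real.exp_add]
    congr 1
    ring
  have hzero : ∀ n, ⌊V * V⌋₊ < n → gam V V n = 0 := fun n hn =>
    gam_zero V V hV0 hV0 n ((Nat.floor_lt (by positivity)).mp hn)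
  have hη0 : 1 / (10 * Real.sqrt X) ≤ eta0 X := hη1.trans hη2
  rw [av_conv _ _ ⌊V * V⌋₊ hzero, av_conv _ _ ⌊V * V⌋₊ hzero, ← Finset.sum_sub_distrib]
  have hterm : ∀ c ∈ Icc 1 ⌊V * V⌋₊,
      |gam V V c / c * av (fun _ => 1) η (u - Real.log c) -
        gam V V c / c * av (fun _ => 1) (eta0 X) (u - Real.log c)| ≤
      20 * L * Real.exp (-(L / 2)) := by
    intro c hc
    rw [mem_Icc] at hc
    have hc1 : (1 : ℝ) ≤ c := by exact_mod_cast hc.1
    have hc0 : (0 : ℝ) < c := by linarith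
    have hcV : (c : ℝ) ≤ V * V := (Nat.le_floor_iff (by positivity)).mp hc.2
    have hlc : Real.log c ≤ 2 / 5 * L := by
      rw [Real.log_le_iff_le_exp hc0, ← hVV]
      exact hcV
    have hlc0 : 0 ≤ Real.log c := Real.log_nonneg hc1
    have h1 := T1_one hX1 hη1 hu hc.1 (by linarith)
    have h2 := T1_one hX1 hη0 hu hc.1 (by linarith)
    have h3 : |av (fun _ => 1) η (u - Real.log c) - av (fun _ => 1) (eta0 X) (u - Real.log c)| ≤
        20 * c * Real.exp (-(L / 2)) := by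
      have h4 := abs_sub_le (av (fun _ => 1) η (u - Real.log c)) 1
        (av (fun _ => 1) (eta0 X) (u - Real.log c))
      rw [abs_sub_comm 1] at h4
      linarith
    rw [← mul_sub, abs_mul, abs_div, abs_of_pos hc0]
    have h5 : |gam V V c| ≤ L := (gam_le V V c).trans (by linarith)
    calc |gam V V c| / c * |av (fun _ => 1) η (u - Real.log c) -
          av (fun _ => 1) (eta0 X) (u - Real.log c)|
        ≤ L / c * (20 * c * Real.exp (-(L / 2))) := by gcongr
      _ = 20 * L * Real.exp (-(L / 2)) := by field_simp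
  refine (Finset.abs_sum_le_sum_abs _ _).trans ((Finset.sum_le_sum hterm).trans ?_)
  rw [Finset.sum_const, Nat.card_Icc, Nat.add_sub_cancel, nsmul_eq_mul]
  have hfl : (⌊V * V⌋₊ : ℝ) ≤ Real.exp (2 / 5 * L) := by
    rw [← hVV]
    exact Nat.floor_le (by positivity)
  calc (⌊V * V⌋₊ : ℝ) * (20 * L * Real.exp (-(L / 2)))
      ≤ Real.exp (2 / 5 * L) * (20 * L * Real.exp (-(L / 2))) := by gcongr
    _ = 20 * L * (Real.exp (2 / 5 * L) * Real.exp (-(L / 2))) := by ring
    _ = 20 * L * Real.exp (-(L / 10)) := by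
        rw [← Real.exp_add]
        congr 2
        ring
    _ ≤ 80 * L * Real.exp (-(L / 10)) := by gcongr; norm_num
    _ ≤ Real.exp (-ell X) := T1_b L hL

/-- **Type I, coefficients `μ`.** `V = X^(1/5)`, `C = ⌊V⌋₊`. By `av_conv` and `av_log` (`v = u - log d ≥ 1`,
`v ≤ u ≤ 2 log X`, `exp (-v) ≤ d/X`):
`av (conv (cut μ) log) η u = ∑_{d ≤ C} (μ(d)/d)(u - log d + η/2 + θ 2 log X d/(X η))`; the difference for `η` and `η₀` is
at most `∑_{d ≤ C} (1/d) (η₀/2 + 4 d log X/(X η)) ≤ η₀ (1 + log V) + 40 V log X/√X ≤ exp (-ℓ)` (`η₀ = exp (-7ℓ)`). -/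
theorem typeI_mu : ∃ X₀ : ℝ, 1 ≤ X₀ ∧ ∀ X : ℝ, X₀ ≤ X → ∀ η : ℝ,
    1 / (10 * Real.sqrt X) ≤ η → η ≤ eta0 X → ∀ u : ℝ, Real.log X ≤ u → u ≤ Real.log X + 1 →
    |av (conv (cut (fun n => (moebius n : ℝ)) 0 (X ^ (1 / 5 : ℝ))) (fun n => Real.log n)) η u -
      av (conv (cut (fun n => (moebius n : ℝ)) 0 (X ^ (1 / 5 : ℝ))) (fun n => Real.log n)) (eta0 X) u| ≤
      Real.exp (-ell X) := by
  refine ⟨Real.exp 100000, Real.one_le_exp (by norm_num), ?_⟩
  intro X hX η hη1 hη2 u hu hu2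
  have hX0 : 0 < X := lt_of_lt_of_le (Real.exp_pos _) hX
  have hX1 : 1 ≤ X := (Real.one_le_exp (by norm_num)).trans hX
  have hL : 100000 ≤ Real.log X := by
    rw [Real.le_log_iff_exp_le hX0]
    exact hX
  set L := Real.log X with hLdef
  have hV : X ^ (1 / 5 : ℝ) = Real.exp (L / 5) := by
    rw [Real.rpow_def_of_pos hX0]
    congr 1
    ring
  set V := X ^ (1 / 5 : ℝ) with hVdef
  have hV0 : 0 ≤ V := by rw [hV]; exact (Real.exp_pos _).le
  have hV1 : 1 ≤ V := by rw [hV]; exact Real.one_le_exp (by linarith)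
  have hzero : ∀ n, ⌊V⌋₊ < n → cut (fun n => (moebius n : ℝ)) 0 V n = 0 := fun n hn => by
    have h1 : V < n := (Nat.floor_lt hV0).mp hn
    unfold cut
    rw [if_neg]
    rintro ⟨-, h2⟩
    linarith
  have hη0 : 1 / (10 * Real.sqrt X) ≤ eta0 X := hη1.trans hη2
  have hηpos : 0 < η := lt_of_lt_of_le (by positivity) hη1
  rw [av_conv _ _ ⌊V⌋₊ hzero, av_conv _ _ ⌊V⌋₊ hzero, ← Finset.sum_sub_distrib]
  have hcut : ∀ d : ℕ, |cut (fun n => (moebius n : ℝ)) 0 V d| ≤ 1 := by
    intro d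
    unfold cut
    split_ifs
    · have h1 : |moebius d| ≤ 1 := ArithmeticFunction.abs_moebius_le_one
      have h2 : |(moebius d : ℝ)| = ((|moebius d| : ℤ) : ℝ) := by push_cast; rfl
      rw [h2]
      exact_mod_cast h1
    · simp
  have hterm : ∀ c ∈ Icc 1 ⌊V⌋₊,
      |cut (fun n => (moebius n : ℝ)) 0 V c / c * av (fun n => Real.log n) η (u - Real.log c) -
        cut (fun n => (moebius n : ℝ)) 0 V c / c *
          av (fun n => Real.log n) (eta0 X) (u - Real.log c)| ≤
      eta0 X / 2 * (1 / c) + 40 * L * Real.exp (-(L / 2)) := by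
    intro c hc
    rw [mem_Icc] at hc
    have hc1 : (1 : ℝ) ≤ c := by exact_mod_cast hc.1
    have hc0 : (0 : ℝ) < c := by linarith
    have hcV : (c : ℝ) ≤ V := (Nat.le_floor_iff hV0).mp hc.2
    have hlc : Real.log c ≤ L / 5 := by
      rw [Real.log_le_iff_le_exp hc0, ← hV]
      exact hcV
    have hlc0 : 0 ≤ Real.log c := Real.log_nonneg hc1
    have h1 := T1_log hX1 hη1 hu hu2 (by linarith) hc.1 (by linarith)
    have h2 := T1_log hX1 hη0 hu hu2 (by linarith) hc.1 (by linarith)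
    have h3 : |av (fun n => Real.log n) η (u - Real.log c) -
        av (fun n => Real.log n) (eta0 X) (u - Real.log c)| ≤
        eta0 X / 2 + 40 * L * c * Real.exp (-(L / 2)) := by
      rw [abs_le] at h1 h2 ⊢
      constructor <;> linarith [h1.1, h1.2, h2.1, h2.2]
    rw [← mul_sub, abs_mul, abs_div, abs_of_pos hc0]
    calc |cut (fun n => (moebius n : ℝ)) 0 V c| / c * |av (fun n => Real.log n) η (u - Real.log c) -
          av (fun n => Real.log n) (eta0 X) (u - Real.log c)|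
        ≤ 1 / c * (eta0 X / 2 + 40 * L * c * Real.exp (-(L / 2))) := by
          gcongr
          exact hcut c
      _ = eta0 X / 2 * (1 / c) + 40 * L * Real.exp (-(L / 2)) := by field_simp
  refine (Finset.abs_sum_le_sum_abs _ _).trans ((Finset.sum_le_sum hterm).trans ?_)
  rw [Finset.sum_add_distrib, ← Finset.mul_sum, Finset.sum_const, Nat.card_Icc,
    Nat.add_sub_cancel, nsmul_eq_mul]
  have hfl : (⌊V⌋₊ : ℝ) ≤ Real.exp (L / 5) := by
    rw [← hV]
    exact Nat.floor_le hV0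
  have hfl1 : 1 ≤ ⌊V⌋₊ := (Nat.one_le_floor_iff V).mpr hV1
  have heta : 0 < eta0 X := Real.exp_pos _
  have h1 : eta0 X / 2 * ∑ c ∈ Icc 1 ⌊V⌋₊, (1 : ℝ) / c ≤ 1 / 2 * Real.exp (-ell X) := by
    have h2 : ∑ c ∈ Icc 1 ⌊V⌋₊, (1 : ℝ) / c ≤ 1 + L := by
      refine (T1_harm _ hfl1).trans ?_
      have h3 : Real.log (⌊V⌋₊ : ℝ) ≤ L / 5 := by
        rw [Real.log_le_iff_le_exp (by exact_mod_cast hfl1)]
        exact hfl
      linarith
    have hell1 : 1 ≤ ell X := by
      unfold ell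
      exact Real.one_le_rpow (by rw [← hLdef]; linarith) (by norm_num)
    have h4 : 1 + L ≤ Real.exp (6 * ell X) := by
      have h5 : L = ell X ^ 10 := by
        unfold ell
        rw [← Real.rpow_natCast, ← Real.rpow_mul (by rw [← hLdef]; linarith)]
        norm_num
        exact hLdef
      have h6 := Real.pow_div_factorial_le_exp (6 * ell X) (by positivity) 11
      have h7 : ((Nat.factorial 11 : ℕ) : ℝ) = 39916800 := by norm_num [Nat.factorial]
      rw [h7] at h6
      refine le_trans ?_ h6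
      rw [h5, le_div_iff₀ (by norm_num)]
      have h8 : 1 ≤ ell X ^ 10 := one_le_pow₀ hell1
      have h9 : (6 * ell X) ^ 11 = 362797056 * (ell X ^ 10 * ell X) := by ring
      rw [h9]
      have h10 : ell X ^ 10 * 1 ≤ ell X ^ 10 * ell X := by gcongr
      nlinarith
    calc eta0 X / 2 * ∑ c ∈ Icc 1 ⌊V⌋₊, (1 : ℝ) / c ≤ eta0 X / 2 * Real.exp (6 * ell X) := by
          have := h2.trans h4
          gcongr
      _ = 1 / 2 * (Real.exp (-(7 * ell X)) * Real.exp (6 * ell X)) := by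
          unfold eta0
          ring
      _ = 1 / 2 * Real.exp (-ell X) := by
          rw [← Real.exp_add]
          congr 2
          ring
  have h2 : (⌊V⌋₊ : ℝ) * (40 * L * Real.exp (-(L / 2))) ≤ 1 / 2 * Real.exp (-ell X) := by
    calc (⌊V⌋₊ : ℝ) * (40 * L * Real.exp (-(L / 2)))
        ≤ Real.exp (L / 5) * (40 * L * Real.exp (-(L / 2))) := by gcongr
      _ = 40 * L * (Real.exp (L / 5) * Real.exp (-(L / 2))) := by ring
      _ ≤ 40 * L * Real.exp (-(L / 10)) := by
          rw [← Real.exp_add]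
          have : L / 5 + -(L / 2) ≤ -(L / 10) := by linarith
          gcongr
      _ = 1 / 2 * (80 * L * Real.exp (-(L / 10))) := by ring
      _ ≤ 1 / 2 * Real.exp (-ell X) := by
          have := T1_b L hL
          unfold ell
          rw [← hLdef]
          linarith
  linarith

end Pool.Agent.Lib.H31W
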