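import Pool.Agent.Lib.H31W.V2
import Pool.Agent.Lib.H31W.T1
import Pool.Agent.Lib.H31W.Q4
import Pool.Agent.Lib.H31W.Q5

/-!
# Chunk MS (M/L): the mean square
-/

open Finset MeasureTheory

namespace Pool.Agent.Lib.H31W

open ArithmeticFunction (vonMangoldt moebius)

/-- The function of the box `p`. -/
private noncomputable def MS_g (X : ℝ) (p : ℕ × ℕ) : ℕ → ℝ :=
  conv (cut (fun n => vonMangoldt n) (X ^ (1 / 5 : ℝ) * 2 ^ p.1) (2 * (X ^ (1 / 5 : ℝ) * 2 ^ p.1)))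
    (cut (bet (X ^ (1 / 5 : ℝ))) (X ^ (1 / 5 : ℝ) * 2 ^ p.2) (2 * (X ^ (1 / 5 : ℝ) * 2 ^ p.2)))

private theorem MS_lin (f₁ f₂ f₃ : ℕ → ℝ) (η u : ℝ) :
    av (fun n => f₁ n - f₂ n + f₃ n) η u = av f₁ η u - av f₂ η u + av f₃ η u := by
  unfold av
  rw [← mul_sub, ← mul_add, ← sum_sub_distrib, ← sum_add_distrib]
  congr 1
  refine sum_congr rfl fun n _ => ?_
  rw [add_div, sub_div]

private theorem MS_exp2 : Real.exp 2 ≤ 8 := by
  have h1 : Real.exp 2 = Real.exp 1 * Real.exp 1 := by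
    rw [← Real.exp_add]
    norm_num
  have h2 := Real.exp_one_lt_d9
  have h3 := Real.exp_pos 1
  rw [h1]
  nlinarith

private theorem MS_point (X : ℝ) (hX : 1 ≤ X)
    (hdy : ∀ n : ℕ, X < n → (n : ℝ) ≤ 8 * X →
      conv (lamHi (X ^ (1 / 5 : ℝ))) (bet (X ^ (1 / 5 : ℝ))) n = ∑ p ∈ PP X, MS_g X p n)
    (η : ℝ) (hη1 : η ≤ 1) (u : ℝ) (hu : Real.log X ≤ u) (hu' : u ≤ Real.log X + 1) :
    av (fun n => vonMangoldt n) η u =
      av (conv (cut (fun n => (moebius n : ℝ)) 0 (X ^ (1 / 5 : ℝ))) (fun n => Real.log n)) η u -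
      av (conv (gam (X ^ (1 / 5 : ℝ)) (X ^ (1 / 5 : ℝ))) (fun _ => 1)) η u +
      ∑ p ∈ PP X, av (MS_g X p) η u := by
  have hX0 : 0 < X := by linarith
  have hV1 : 1 ≤ X ^ (1 / 5 : ℝ) := Real.one_le_rpow hX (by norm_num)
  have hVX : X ^ (1 / 5 : ℝ) ≤ X := by
    have h := Real.rpow_le_rpow_of_exponent_le hX (show (1 / 5 : ℝ) ≤ 1 by norm_num)
    rwa [Real.rpow_one] at h
  rw [av_congr (fun n => vonMangoldt n) (fun n =>
    conv (cut (fun n => (moebius n : ℝ)) 0 (X ^ (1 / 5 : ℝ))) (fun n => Real.log n) n -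
      conv (gam (X ^ (1 / 5 : ℝ)) (X ^ (1 / 5 : ℝ))) (fun _ => 1) n +
      ∑ p ∈ PP X, MS_g X p n) η u, MS_lin, av_sum]
  intro n hn1 hn2
  have h1 : X < n := by
    refine lt_of_le_of_lt ?_ hn1
    rw [← Real.exp_log hX0]
    exact Real.exp_le_exp.2 hu
  have h2 : (n : ℝ) ≤ 8 * X := by
    refine hn2.trans ?_
    have h3 : u + η ≤ 2 + Real.log X := by linarith
    refine (Real.exp_le_exp.2 h3).trans ?_
    rw [Real.exp_add, Real.exp_log hX0]
    exact mul_le_mul_of_nonneg_right MS_exp2 hX0.le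
  rw [vaughan _ _ hV1 hV1 n (lt_of_le_of_lt hVX h1), hdy n h1 h2]

private theorem MS_cs (a b c : ℝ) : (a - b + c) ^ 2 ≤ 3 * (a ^ 2 + b ^ 2 + c ^ 2) := by
  nlinarith [sq_nonneg (a + b), sq_nonneg (a - c), sq_nonneg (b + c)]

private theorem MS_lim : Filter.Tendsto (fun y : ℝ => 6 * Real.exp (-y) +
    768 * y ^ 40 * Real.exp (-(y / 2))) Filter.atTop (nhds 0) := by
  have h1 : Filter.Tendsto (fun y : ℝ => 6 * Real.exp (-y)) Filter.atTop (nhds 0) := by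
    have h := (Real.tendsto_exp_neg_atTop_nhds_zero).const_mul 6
    rwa [mul_zero] at h
  have h2 : Filter.Tendsto (fun y : ℝ => 768 * y ^ 40 * Real.exp (-(y / 2))) Filter.atTop (nhds 0) := by
    have h3 := (Real.tendsto_pow_mul_exp_neg_atTop_nhds_zero 40).comp
      (Filter.tendsto_id.atTop_div_const (show (0 : ℝ) < 2 by norm_num))
    have h4 := h3.const_mul (768 * 2 ^ 40)
    rw [mul_zero] at h4
    refine h4.congr fun y => ?_
    simp only [Function.comp_apply, id]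
    rw [div_pow]
    ring
  have h := h1.add h2
  rwa [add_zero] at h

private theorem MS_ell : Filter.Tendsto ell Filter.atTop Filter.atTop := by
  unfold ell
  exact (tendsto_rpow_atTop (by norm_num)).comp Real.tendsto_log_atTop

private theorem MS_num : ∃ X₁ : ℝ, 1 ≤ X₁ ∧ ∀ X : ℝ, X₁ ≤ X →
    6 * Real.exp (-(2 * ell X)) + 3 * (16 * Real.log X ^ 2) ^ 2 * Real.exp (-(3 / 2 * ell X)) ≤
      Real.exp (-ell X) := by
  have h1 : ∀ᶠ y : ℝ in Filter.atTop, 6 * Real.exp (-y) + 768 * y ^ 40 * Real.exp (-(y / 2)) ≤ 1 :=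
    MS_lim.eventually_le_const one_pos
  obtain ⟨X₁, hX₁⟩ := Filter.eventually_atTop.1 (MS_ell.eventually h1)
  refine ⟨max X₁ 1, le_max_right _ _, ?_⟩
  intro X hX
  have h2 := hX₁ X ((le_max_left _ _).trans hX)
  have hX1 : 1 ≤ X := (le_max_right _ _).trans hX
  have hL : 0 ≤ Real.log X := Real.log_nonneg hX1
  have h3 : ell X ^ 10 = Real.log X := by
    unfold ell
    rw [← Real.rpow_natCast, ← Real.rpow_mul hL]
    norm_num
  have h4 : (16 * Real.log X ^ 2) ^ 2 = 256 * ell X ^ 40 := by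
    rw [← h3]
    ring
  have h5 : Real.exp (-(2 * ell X)) = Real.exp (-ell X) * Real.exp (-ell X) := by
    rw [← Real.exp_add]
    congr 1
    ring
  have h6 : Real.exp (-(3 / 2 * ell X)) = Real.exp (-ell X) * Real.exp (-(ell X / 2)) := by
    rw [← Real.exp_add]
    congr 1
    ring
  rw [h4, h5, h6]
  calc 6 * (Real.exp (-ell X) * Real.exp (-ell X)) +
        3 * (256 * ell X ^ 40) * (Real.exp (-ell X) * Real.exp (-(ell X / 2)))
      = Real.exp (-ell X) * (6 * Real.exp (-ell X) +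
          768 * ell X ^ 40 * Real.exp (-(ell X / 2))) := by ring
    _ ≤ Real.exp (-ell X) * 1 := mul_le_mul_of_nonneg_left h2 (Real.exp_pos _).le
    _ = Real.exp (-ell X) := mul_one _

/-- **Mean square of `Λ` in short intervals.**

Proof. `V = X^(1/5)`, `η₀ = eta0 X ≤ 1`. For `u ∈ [log X, log X + 1]` both averages only involve `n` with
`X < n ≤ e^2 X ≤ 8X`, so by `av_congr`, `vaughan` (`U = V`), `dyad` and `av_sum`:
`av Λ η u - av Λ η₀ u = E₁ - E₂ + ∑_{p ∈ PP X} Δ_p(u)`, with `|E₁|, |E₂| ≤ exp (-ℓ)` (`typeI_mu`, `typeI_gam`) and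
`∫ Δ_p² = QQ ... ≤ exp (-(3/2)ℓ)` (`box_A` if `M ≥ √X/2`, else `box_B`: `M K ≥ X/4`). Cauchy-Schwarz
(`inner_mul_le_norm_mul_norm`, `Finset.sum_div_sq_le...`, `sq_sum_le_card_mul_sum_sq`):
`(E₁ - E₂ + ∑ Δ_p)² ≤ 3 (E₁² + E₂² + |PP| ∑ Δ_p²)`; integrate over an interval of length `1`:
`≤ 6 exp (-2ℓ) + 3 (16 (log X)²)² exp (-(3/2)ℓ) ≤ exp (-ℓ)` for large `X`. -/
theorem mean_square (hS : SupProp) : ∃ X₀ : ℝ, 1 ≤ X₀ ∧ ∀ X : ℝ, X₀ ≤ X → ∀ η : ℝ,
    1 / (10 * Real.sqrt X) ≤ η → η ≤ eta0 X →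
    ∫⁻ u in Set.Icc (Real.log X) (Real.log X + 1),
      ENNReal.ofReal ((av (fun n => vonMangoldt n) η u - av (fun n => vonMangoldt n) (eta0 X) u) ^ 2) ≤
      ENNReal.ofReal (Real.exp (-ell X)) := by
  obtain ⟨XA, hXA1, hA⟩ := box_A hS
  obtain ⟨XB, hXB1, hB⟩ := box_B hS
  obtain ⟨XD, hXD1, hD⟩ := dyad
  obtain ⟨XG, hXG1, hG⟩ := typeI_gam
  obtain ⟨XM, hXM1, hM⟩ := typeI_mu
  obtain ⟨XN, hXN1, hN⟩ := MS_num
  refine ⟨max XA (max XB (max XD (max XG (max XM XN)))), hXA1.trans (le_max_left _ _), ?_⟩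
  intro X hX η hη1 hη2
  obtain ⟨hXA, hX'⟩ := max_le_iff.1 hX
  obtain ⟨hXB, hX'⟩ := max_le_iff.1 hX'
  obtain ⟨hXD, hX'⟩ := max_le_iff.1 hX'
  obtain ⟨hXG, hX'⟩ := max_le_iff.1 hX'
  obtain ⟨hXM, hXN⟩ := max_le_iff.1 hX'
  have hX1 : 1 ≤ X := hXA1.trans hXA
  have hX0 : 0 < X := by linarith
  have hL : 0 ≤ Real.log X := Real.log_nonneg hX1
  have hℓ : 0 ≤ ell X := Real.rpow_nonneg hL _
  have hη₀ : eta0 X ≤ 1 := by
    unfold eta0
    rw [Real.exp_le_one_iff]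
    linarith
  have hη : η ≤ 1 := hη2.trans hη₀
  have hsq : 0 < Real.sqrt X := Real.sqrt_pos.2 hX0
  have hV0 : 0 < X ^ (1 / 5 : ℝ) := Real.rpow_pos_of_pos hX0 _
  have hpow : ∀ i : ℕ, X ^ (1 / 5 : ℝ) ≤ X ^ (1 / 5 : ℝ) * 2 ^ i := by
    intro i
    have h1 : (1 : ℝ) ≤ 2 ^ i := one_le_pow₀ (by norm_num)
    nlinarith
  -- the boxes
  have hbox : ∀ p ∈ PP X, QQ (MS_g X p) η (eta0 X) ≤ ENNReal.ofReal (Real.exp (-(3 / 2 * ell X))) := by
    intro p hp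
    have hp' : X / 4 ≤ (X ^ (1 / 5 : ℝ) * 2 ^ p.1) * (X ^ (1 / 5 : ℝ) * 2 ^ p.2) ∧
        (X ^ (1 / 5 : ℝ) * 2 ^ p.1) * (X ^ (1 / 5 : ℝ) * 2 ^ p.2) ≤ 8 * X := by
      unfold PP at hp
      exact (mem_filter.1 hp).2
    by_cases hM' : Real.sqrt X / 2 ≤ X ^ (1 / 5 : ℝ) * 2 ^ p.1
    · exact hA X hXA η hη1 hη2 _ _ hM' (hpow _) hp'.1 hp'.2
    · refine hB X hXB η hη1 hη2 _ _ ?_ (hpow _) hp'.1 hp'.2
      push Not at hM'
      have h1 : Real.sqrt X * Real.sqrt X = X := Real.mul_self_sqrt hX0.le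
      by_contra hK
      push Not at hK
      have h2 : 0 < X ^ (1 / 5 : ℝ) * 2 ^ p.2 := by positivity
      have h3 : (X ^ (1 / 5 : ℝ) * 2 ^ p.1) * (X ^ (1 / 5 : ℝ) * 2 ^ p.2) <
          (Real.sqrt X / 2) * (Real.sqrt X / 2) := by
        calc (X ^ (1 / 5 : ℝ) * 2 ^ p.1) * (X ^ (1 / 5 : ℝ) * 2 ^ p.2)
            < (Real.sqrt X / 2) * (X ^ (1 / 5 : ℝ) * 2 ^ p.2) := mul_lt_mul_of_pos_right hM' h2
          _ ≤ (Real.sqrt X / 2) * (Real.sqrt X / 2) :=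
            mul_le_mul_of_nonneg_left hK.le (by positivity)
      nlinarith [hp'.1]
  obtain ⟨C, hC⟩ : ∃ C : ℝ, C = ((PP X).card : ℝ) := ⟨_, rfl⟩
  have hC0 : 0 ≤ C := by rw [hC]; exact Nat.cast_nonneg _
  have hC1 : C ≤ 16 * Real.log X ^ 2 := by rw [hC]; exact PP_card X hX1
  have hmeas : ∀ p, Measurable (fun u => ENNReal.ofReal ((av (MS_g X p) η u - av (MS_g X p) (eta0 X) u) ^ 2)) := by
    intro p
    exact (((av_measurable _ _).sub (av_measurable _ _)).pow_const 2).ennreal_ofReal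
  -- pointwise bound
  have hpt : ∀ u ∈ Set.Icc (Real.log X) (Real.log X + 1),
      ENNReal.ofReal ((av (fun n => vonMangoldt n) η u - av (fun n => vonMangoldt n) (eta0 X) u) ^ 2) ≤
      ENNReal.ofReal (6 * Real.exp (-(2 * ell X))) + ENNReal.ofReal (3 * C) *
        ∑ p ∈ PP X, ENNReal.ofReal ((av (MS_g X p) η u - av (MS_g X p) (eta0 X) u) ^ 2) := by
    intro u hu
    rw [MS_point X hX1 (fun n h1 h2 => hD X hXD n h1 h2) η hη u hu.1 hu.2,
      MS_point X hX1 (fun n h1 h2 => hD X hXD n h1 h2) (eta0 X) hη₀ u hu.1 hu.2]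
    have hm := hM X hXM η hη1 hη2 u hu.1 hu.2
    have hg := hG X hXG η hη1 hη2 u hu.1
    rw [← ENNReal.ofReal_sum_of_nonneg (fun p _ => sq_nonneg _), ← ENNReal.ofReal_mul (by positivity),
      ← ENNReal.ofReal_add (by positivity) (mul_nonneg (by positivity)
        (sum_nonneg fun p _ => sq_nonneg _))]
    refine ENNReal.ofReal_le_ofReal ?_
    have h5 : Real.exp (-(2 * ell X)) = Real.exp (-ell X) ^ 2 := by
      rw [← Real.exp_nat_mul]
      congr 1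
      push_cast
      ring
    have h6 := sq_le_sq' (neg_le_of_abs_le hm) (le_of_abs_le hm)
    have h7 := sq_le_sq' (neg_le_of_abs_le hg) (le_of_abs_le hg)
    have h8 : (∑ p ∈ PP X, (av (MS_g X p) η u - av (MS_g X p) (eta0 X) u)) ^ 2 ≤
        C * ∑ p ∈ PP X, (av (MS_g X p) η u - av (MS_g X p) (eta0 X) u) ^ 2 := by
      rw [hC]
      exact sq_sum_le_card_mul_sum_sq
    rw [sum_sub_distrib] at h8
    rw [h5]
    refine le_trans (le_of_eq ?_) ((MS_cs _ _ _).trans (le_trans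
      (mul_le_mul_of_nonneg_left (add_le_add (add_le_add h6 h7) h8) (by norm_num)) (le_of_eq ?_)))
    · ring
    · ring
  refine (setLIntegral_mono' measurableSet_Icc hpt).trans ?_
  rw [lintegral_add_left measurable_const, lintegral_const_mul _
    (Finset.measurable_sum _ fun p _ => hmeas p), lintegral_finsetSum _ fun p _ => hmeas p,
    lintegral_const, Measure.restrict_apply_univ, Real.volume_Icc]
  have hv : ENNReal.ofReal (Real.log X + 1 - Real.log X) = 1 := by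
    rw [add_sub_cancel_left, ENNReal.ofReal_one]
  rw [hv, mul_one]
  have hsum : ∑ p ∈ PP X, ∫⁻ u in Set.Icc (Real.log X) (Real.log X + 1),
      ENNReal.ofReal ((av (MS_g X p) η u - av (MS_g X p) (eta0 X) u) ^ 2) ≤
      ENNReal.ofReal (C * Real.exp (-(3 / 2 * ell X))) := by
    refine (sum_le_sum fun p hp => (setLIntegral_le_lintegral _ _).trans (hbox p hp)).trans ?_
    rw [sum_const, nsmul_eq_mul, hC, ENNReal.ofReal_mul (Nat.cast_nonneg _), ENNReal.ofReal_natCast]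
  refine (add_le_add le_rfl (mul_le_mul_right hsum _)).trans ?_
  rw [← ENNReal.ofReal_mul (by positivity), ← ENNReal.ofReal_add (by positivity) (by positivity)]
  refine ENNReal.ofReal_le_ofReal (le_trans ?_ (hN X hXN))
  refine add_le_add le_rfl ?_
  have h9 : C ^ 2 ≤ (16 * Real.log X ^ 2) ^ 2 := pow_le_pow_left₀ hC0 hC1 2
  calc 3 * C * (C * Real.exp (-(3 / 2 * ell X))) = 3 * C ^ 2 * Real.exp (-(3 / 2 * ell X)) := by ring
    _ ≤ 3 * (16 * Real.log X ^ 2) ^ 2 * Real.exp (-(3 / 2 * ell X)) := by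
      refine mul_le_mul_of_nonneg_right ?_ (Real.exp_pos _).le
      linarith

end Pool.Agent.Lib.H31W
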