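import Pool.Agent.Lib.H31W.Defs

/-!
# Chunk R2 (M): lower bound for `π(x)`
-/

open Finset

namespace Pool.Agent.Lib.H31W

open Filter Topology MeasureTheory in
private theorem R2_ev1 : ∀ᶠ x : ℝ in atTop,
    Real.exp (-(Real.log x) ^ (1 / 5 : ℝ)) ≤ 1 / (200 * Real.log x) := by
  have h1 : Tendsto (fun u : ℝ => u ^ 5 * Real.exp (-u)) atTop (𝓝 0) := by
    have := Real.tendsto_pow_mul_exp_neg_atTop_nhds_zero 5
    simpa using this
  have h2 : Tendsto (fun x : ℝ => (Real.log x) ^ (1 / 5 : ℝ)) atTop atTop :=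
    (tendsto_rpow_atTop (by norm_num)).comp Real.tendsto_log_atTop
  have h3 := (h1.comp h2).eventually (gt_mem_nhds (show (0 : ℝ) < 1 / 200 by norm_num))
  filter_upwards [h3, eventually_gt_atTop (1 : ℝ)] with x hx hx1
  have hl : 0 < Real.log x := Real.log_pos hx1
  have h5 : ((Real.log x) ^ (1 / 5 : ℝ)) ^ 5 = Real.log x := by
    rw [← Real.rpow_natCast, ← Real.rpow_mul hl.le]
    norm_num
  simp only [Function.comp] at hx
  rw [h5] at hx
  rw [le_div_iff₀ (by positivity)]
  nlinarith

open Filter Topology MeasureTheory in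
private theorem R2_ev2 : ∀ᶠ x : ℝ in atTop,
    2 * Real.sqrt x * Real.log x ≤ x / (200 * Real.log x) := by
  have h1 : (fun x : ℝ => Real.log x ^ 2) =o[atTop] (fun x : ℝ => x ^ (1 / 2 : ℝ)) := by
    have := isLittleO_log_rpow_rpow_atTop (2 : ℝ) (show (0 : ℝ) < 1 / 2 by norm_num)
    refine this.congr' ?_ (by rfl)
    filter_upwards with x
    norm_num
  have h2 := h1.bound (show (0 : ℝ) < 1 / 400 by norm_num)
  filter_upwards [h2, eventually_gt_atTop (1 : ℝ)] with x hx hx1
  have hl : 0 < Real.log x := Real.log_pos hx1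
  rw [← Real.sqrt_eq_rpow, Real.norm_of_nonneg (by positivity),
    Real.norm_of_nonneg (Real.sqrt_nonneg x)] at hx
  rw [le_div_iff₀ (by positivity)]
  have hs : Real.sqrt x * Real.sqrt x = x := Real.mul_self_sqrt (by linarith)
  have hs0 : 0 ≤ Real.sqrt x := Real.sqrt_nonneg x
  calc 2 * Real.sqrt x * Real.log x * (200 * Real.log x)
      = Real.sqrt x * (400 * Real.log x ^ 2) := by ring
    _ ≤ Real.sqrt x * Real.sqrt x := by
        apply mul_le_mul_of_nonneg_left _ hs0
        linarith
    _ = x := hs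

open Filter Topology MeasureTheory in
private theorem R2_theta (hP : PntProp) : ∀ᶠ x : ℝ in atTop,
    x - x / (100 * Real.log x) ≤ Chebyshev.theta x := by
  obtain ⟨K, hK1, hK⟩ := hP
  filter_upwards [R2_ev1, R2_ev2, eventually_ge_atTop K, eventually_gt_atTop (1 : ℝ)]
    with x h1 h2 hxK hx1
  have hl : 0 < Real.log x := Real.log_pos hx1
  have h3 := (abs_le.1 (hK x hxK)).1
  have h4 := Chebyshev.psi_sub_theta_le hx1.le
  have h5 : x * Real.exp (-(Real.log x) ^ (1 / 5 : ℝ)) ≤ x * (1 / (200 * Real.log x)) :=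
    mul_le_mul_of_nonneg_left h1 (by linarith)
  have h6 : x * (1 / (200 * Real.log x)) = x / (200 * Real.log x) := by ring
  have h7 : x / (100 * Real.log x) = x / (200 * Real.log x) + x / (200 * Real.log x) := by
    field_simp
    ring
  linarith

/-- `π(x) ≥ x/log x + x/(2 (log x)²)` for large `x`.

Proof. `Chebyshev.primeCounting_eq_theta_div_log_add_integral`:
`π(⌊x⌋) = θ(x)/log x + ∫_2^x θ(t)/(t (log t)²) dt`. `θ(x) ≥ ψ(x) - 2 √x log x` (`Chebyshev.psi_sub_theta_le`)
`≥ x - x/(100 log x)` for large `x` (`hP`), so `θ(t) ≥ (99/100) t` for `t ≥ x/10`, and the integral over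
`[x/10, x]` is at least `(99/100) (9/10) x/(log x)²`. -/
theorem pi_lower (hP : PntProp) : ∃ x₀ : ℝ, 2 ≤ x₀ ∧ ∀ x : ℝ, x₀ ≤ x →
    x / Real.log x + x / (2 * Real.log x ^ 2) ≤ Nat.primeCounting ⌊x⌋₊ := by
  obtain ⟨K, hK⟩ := Filter.eventually_atTop.1 (R2_theta hP)
  refine ⟨max 30 (10 * K), le_trans (by norm_num) (le_max_left _ _), fun x hx => ?_⟩
  have hx30 : 30 ≤ x := le_trans (le_max_left _ _) hx
  have hxK : 10 * K ≤ x := le_trans (le_max_right _ _) hx
  have hlog1 : ∀ t : ℝ, 3 ≤ t → 1 ≤ Real.log t := by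
    intro t ht
    rw [Real.le_log_iff_exp_le (by linarith)]
    have := Real.exp_one_lt_d9
    linarith
  have hl : 1 ≤ Real.log x := hlog1 x (by linarith)
  have hth : ∀ t : ℝ, x / 10 ≤ t → t ≤ x →
      (99 / 100) * (1 / Real.log x ^ 2) ≤ Chebyshev.theta t / (t * Real.log t ^ 2) := by
    intro t ht1 ht2
    have ht3 : 3 ≤ t := by linarith
    have hlt : 1 ≤ Real.log t := hlog1 t ht3
    have h1 := hK t (by linarith)
    have h2 : t / (100 * Real.log t) ≤ t / 100 := by
      apply div_le_div_of_nonneg_left (by linarith) (by norm_num)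
      linarith
    have h3 : (99 / 100) * t ≤ Chebyshev.theta t := by linarith
    have h4 : Real.log t ≤ Real.log x := Real.log_le_log (by linarith) ht2
    have h5 : Real.log t ^ 2 ≤ Real.log x ^ 2 := pow_le_pow_left₀ (by linarith) h4 2
    have h6 : 0 < Real.log t ^ 2 := by positivity
    calc (99 / 100) * (1 / Real.log x ^ 2) ≤ (99 / 100) * (1 / Real.log t ^ 2) := by
          apply mul_le_mul_of_nonneg_left _ (by norm_num)
          exact one_div_le_one_div_of_le h6 h5
      _ = ((99 / 100) * t) / (t * Real.log t ^ 2) := by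
          have : t ≠ 0 := by linarith
          field_simp
      _ ≤ Chebyshev.theta t / (t * Real.log t ^ 2) := by
          apply div_le_div_of_nonneg_right h3
          positivity
  have hint : ∀ a b : ℝ, 2 ≤ a → a ≤ b → b ≤ x → IntervalIntegrable
      (fun t : ℝ => Chebyshev.theta t / (t * Real.log t ^ 2)) MeasureTheory.volume a b := by
    intro a b ha hab hb
    rw [intervalIntegrable_iff_integrableOn_Icc_of_le hab]
    exact (Chebyshev.integrableOn_theta_div_id_mul_log_sq x).mono_set
      (Set.Icc_subset_Icc ha hb)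
  have hsplit : ∫ t in (2 : ℝ)..x, Chebyshev.theta t / (t * Real.log t ^ 2) =
      (∫ t in (2 : ℝ)..(x / 10), Chebyshev.theta t / (t * Real.log t ^ 2)) +
      ∫ t in (x / 10)..x, Chebyshev.theta t / (t * Real.log t ^ 2) := by
    rw [intervalIntegral.integral_add_adjacent_intervals]
    · exact hint _ _ (le_refl _) (by linarith) (by linarith)
    · exact hint _ _ (by linarith) (by linarith) (le_refl _)
  have hA : 0 ≤ ∫ t in (2 : ℝ)..(x / 10), Chebyshev.theta t / (t * Real.log t ^ 2) := by
    apply intervalIntegral.integral_nonneg (by linarith)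
    intro t ht
    have h0 : 0 ≤ Chebyshev.theta t := Chebyshev.theta_nonneg t
    have h1 : 0 ≤ t := by linarith [ht.1]
    positivity
  have hB : (x - x / 10) * ((99 / 100) * (1 / Real.log x ^ 2)) ≤
      ∫ t in (x / 10)..x, Chebyshev.theta t / (t * Real.log t ^ 2) := by
    have h1 : ∫ t in (x / 10)..x, (99 / 100) * (1 / Real.log x ^ 2) =
        (x - x / 10) * ((99 / 100) * (1 / Real.log x ^ 2)) := by
      rw [intervalIntegral.integral_const, smul_eq_mul]
    rw [← h1]
    apply intervalIntegral.integral_mono_on (by linarith) intervalIntegrable_const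
      (hint _ _ (by linarith) (by linarith) (le_refl _))
    intro t ht
    exact hth t ht.1 ht.2
  rw [Chebyshev.primeCounting_eq_theta_div_log_add_integral (by linarith), hsplit]
  have hT := hK x (by linarith)
  have hT2 : (x - x / (100 * Real.log x)) / Real.log x ≤ Chebyshev.theta x / Real.log x :=
    div_le_div_of_nonneg_right hT (by linarith)
  have hT3 : (x - x / (100 * Real.log x)) / Real.log x =
      x / Real.log x - (1 / 100) * (x / Real.log x ^ 2) := by
    have : Real.log x ≠ 0 := by linarith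
    field_simp
  have hB2 : (x - x / 10) * ((99 / 100) * (1 / Real.log x ^ 2)) =
      (891 / 1000) * (x / Real.log x ^ 2) := by ring
  have hC : x / (2 * Real.log x ^ 2) = (1 / 2) * (x / Real.log x ^ 2) := by
    have : Real.log x ≠ 0 := by linarith
    field_simp
  have hD : 0 ≤ x / Real.log x ^ 2 := by positivity
  rw [hC]
  linarith

end Pool.Agent.Lib.H31W
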