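import Pool.Agent.Lib.H31W.R2

/-!
# Chunk R3 (M): the criterion; small `m`
-/

open Finset

namespace Pool.Agent.Lib.H31W

/-- Primes in `(M, N]` and the function `θ`. -/
private theorem R3_card {M N : ℕ} (hM : 1 ≤ M) (h : M ≤ N) :
    ((Nat.primeCounting N : ℝ) - Nat.primeCounting M) * Real.log M ≤
      Chebyshev.theta N - Chebyshev.theta M := by
  have hsub : Nat.primesLE M ⊆ Nat.primesLE N := by
    intro p hp
    rw [Nat.mem_primesLE] at hp ⊢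
    exact ⟨hp.1.trans h, hp.2⟩
  rw [Chebyshev.theta_eq_sum_primesLE_log, Chebyshev.theta_eq_sum_primesLE_log,
    ← Finset.sum_sdiff hsub, add_sub_cancel_right]
  have hc : ((Nat.primeCounting N : ℝ) - Nat.primeCounting M) =
      ((Nat.primesLE N \ Nat.primesLE M).card : ℝ) := by
    rw [← Nat.primesLE_card_eq_primeCounting, ← Nat.primesLE_card_eq_primeCounting,
      Finset.card_sdiff_of_subset hsub, Nat.cast_sub (Finset.card_le_card hsub)]
  rw [hc, ← nsmul_eq_mul]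
  apply Finset.card_nsmul_le_sum
  intro p hp
  rw [Finset.mem_sdiff, Nat.mem_primesLE, Nat.mem_primesLE] at hp
  have hpM : M < p := by
    by_contra hcon
    exact hp.2 ⟨not_lt.1 hcon, hp.1.2⟩
  exact Real.log_le_log (by exact_mod_cast hM) (by exact_mod_cast hpM.le)

/-- **Criterion.** `m ≥ m₀`, `m < n`, `Cr m n` imply `r n < r m`.

Proof. `x = m²`, `y = n²`, `P = π(y) - π(x)`. `P log x ≤ θ(y) - θ(x)` (each prime `p > x` has `log p ≥ log x`), so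
`P ≤ (y - x)(1/log x + 1/(4 (log x)²)) < (y - x) π(x)/x` by `Cr` and `pi_lower`. Hence
`π(y)/y = (π(x) + P)/y < (π(x) + (y - x) π(x)/x)/y = π(x)/x`. -/
theorem crit (hP : PntProp) : ∃ m₀ : ℕ, 2 ≤ m₀ ∧ ∀ m n : ℕ, m₀ ≤ m → m < n → Cr m n → r n < r m := by
  obtain ⟨x₀, hx₀, hpi⟩ := pi_lower hP
  refine ⟨max 2 ⌈x₀⌉₊, le_max_left _ _, fun m n hm hmn hcr => ?_⟩
  have hm2 : 2 ≤ m := (le_max_left _ _).trans hm
  have hm2r : (2 : ℝ) ≤ m := by exact_mod_cast hm2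
  have hmx : x₀ ≤ (m : ℝ) := (Nat.le_ceil x₀).trans (by exact_mod_cast (le_max_right _ _).trans hm)
  have hmnr : (m : ℝ) < n := by exact_mod_cast hmn
  have hx : x₀ ≤ (m : ℝ) ^ 2 := by nlinarith
  have h1 := hpi ((m : ℝ) ^ 2) hx
  have hfl : ⌊(m : ℝ) ^ 2⌋₊ = m ^ 2 := by
    have : (m : ℝ) ^ 2 = ((m ^ 2 : ℕ) : ℝ) := by push_cast; ring
    rw [this, Nat.floor_natCast]
  rw [hfl] at h1
  have h2 := R3_card (M := m ^ 2) (N := n ^ 2) (by nlinarith) (Nat.pow_le_pow_left hmn.le 2)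
  have hcr' : Chebyshev.theta ((n : ℝ) ^ 2) - Chebyshev.theta ((m : ℝ) ^ 2) ≤
    ((n : ℝ) ^ 2 - (m : ℝ) ^ 2) * (1 + 1 / (4 * Real.log ((m : ℝ) ^ 2))) := hcr
  have e1 : ((m ^ 2 : ℕ) : ℝ) = (m : ℝ) ^ 2 := by push_cast; ring
  have e2 : ((n ^ 2 : ℕ) : ℝ) = (n : ℝ) ^ 2 := by push_cast; ring
  rw [e1, e2] at h2
  have h3 := h2.trans hcr'
  have hxpos : (0 : ℝ) < (m : ℝ) ^ 2 := by positivity
  have hL : 0 < Real.log ((m : ℝ) ^ 2) := Real.log_pos (by nlinarith)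
  unfold r
  generalize (Nat.primeCounting (m ^ 2) : ℝ) = p at *
  generalize (Nat.primeCounting (n ^ 2) : ℝ) = q at *
  generalize Real.log ((m : ℝ) ^ 2) = L at *
  have hyx : 0 < (n : ℝ) ^ 2 - (m : ℝ) ^ 2 := by nlinarith
  generalize (n : ℝ) ^ 2 = y at *
  generalize (m : ℝ) ^ 2 = x at *
  have hy : 0 < y := by linarith
  rw [div_lt_div_iff₀ hy hxpos]
  -- `(q - p) L² ≤ (y - x) (L + 1/4)`, `x (L + 1/2) ≤ p L²`
  have h4 : (q - p) * L ^ 2 ≤ (y - x) * (L + 1 / 4) := by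
    have h5 : (q - p) * L * L ≤ (y - x) * (1 + 1 / (4 * L)) * L :=
      mul_le_mul_of_nonneg_right h3 hL.le
    have h6 : (y - x) * (1 + 1 / (4 * L)) * L = (y - x) * (L + 1 / 4) := by
      field_simp
    nlinarith
  have h7 : x * (L + 1 / 2) ≤ p * L ^ 2 := by
    have h8 : (x / L + x / (2 * L ^ 2)) * L ^ 2 ≤ p * L ^ 2 :=
      mul_le_mul_of_nonneg_right h1 (by positivity)
    have h9 : (x / L + x / (2 * L ^ 2)) * L ^ 2 = x * (L + 1 / 2) := by
      field_simp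
    linarith
  have h10 : (q - p) * L ^ 2 * x < (y - x) * (p * L ^ 2) := by
    have h11 : (q - p) * L ^ 2 * x ≤ (y - x) * (L + 1 / 4) * x :=
      mul_le_mul_of_nonneg_right h4 hxpos.le
    have h12 : (y - x) * (x * (L + 1 / 2)) ≤ (y - x) * (p * L ^ 2) :=
      mul_le_mul_of_nonneg_left h7 hyx.le
    have h13 : 0 < (y - x) * x := mul_pos hyx hxpos
    nlinarith
  have h14 : 0 < L ^ 2 := by positivity
  have h15 : (q * x) * L ^ 2 < (p * y) * L ^ 2 := by nlinarith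
  exact lt_of_mul_lt_mul_right h15 h14.le

/-- **Small `m`.** `r n → 0` (`Chebyshev.pi_le_log4_mul_div`: `π(n²) ≤ log 4 · n²/log n + n`), and
`r m ≥ 2/m₀²` for `2 ≤ m < m₀` (`π(m²) ≥ π(4) = 2`). -/
theorem small_m (m₀ : ℕ) : ∃ n₀ : ℕ, ∀ n : ℕ, n₀ ≤ n → ∀ m : ℕ, 2 ≤ m → m < m₀ → r n < r m := by
  have h1 : Filter.Tendsto (fun n : ℕ => Real.log 4 / Real.log n + 1 / (n : ℝ)) Filter.atTop
      (nhds (0 + 0)) := by
    refine Filter.Tendsto.add ?_ tendsto_one_div_atTop_nhds_zero_nat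
    exact Filter.Tendsto.const_div_atTop (Real.tendsto_log_atTop.comp tendsto_natCast_atTop_atTop) _
  rw [add_zero] at h1
  have h2 : (0 : ℝ) < 2 / ((m₀ : ℝ) ^ 2 + 1) := by positivity
  have h3 := (h1.eventually (gt_mem_nhds h2)).and (Filter.eventually_ge_atTop 2)
  obtain ⟨n₀, hn₀⟩ := Filter.eventually_atTop.1 h3
  refine ⟨n₀, fun n hn m hm hmm => ?_⟩
  obtain ⟨h4, hn2⟩ := hn₀ n hn
  have hn2r : (2 : ℝ) ≤ n := by exact_mod_cast hn2
  have hm2r : (2 : ℝ) ≤ m := by exact_mod_cast hm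
  have hmmr : (m : ℝ) ≤ m₀ := by exact_mod_cast hmm.le
  have h5 := Chebyshev.pi_le_log4_mul_div (x := (n : ℝ) ^ 2) (by nlinarith)
  have hfl : ⌊(n : ℝ) ^ 2⌋₊ = n ^ 2 := by
    have : (n : ℝ) ^ 2 = ((n ^ 2 : ℕ) : ℝ) := by push_cast; ring
    rw [this, Nat.floor_natCast]
  rw [hfl, Real.sqrt_sq (by linarith)] at h5
  have h6 : r n ≤ Real.log 4 / Real.log n + 1 / (n : ℝ) := by
    unfold r
    rw [div_le_iff₀ (by positivity)]
    have h7 : (Real.log 4 / Real.log n + 1 / (n : ℝ)) * (n : ℝ) ^ 2 =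
        Real.log 4 * (n : ℝ) ^ 2 / Real.log n + n := by
      have hn0 : (n : ℝ) ≠ 0 := by linarith
      field_simp
    rw [h7]
    exact h5
  have h8 : 2 / ((m₀ : ℝ) ^ 2 + 1) ≤ r m := by
    unfold r
    have h9 : (2 : ℝ) ≤ (Nat.primeCounting (m ^ 2) : ℝ) := by
      have h10 : Nat.primeCounting 3 ≤ Nat.primeCounting (m ^ 2) :=
        Nat.monotone_primeCounting (by nlinarith)
      have h11 : Nat.primeCounting 3 = 2 := by decide
      rw [h11] at h10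
      exact_mod_cast h10
    apply div_le_div₀ (by positivity) h9 (by positivity)
    nlinarith
  linarith

end Pool.Agent.Lib.H31W
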