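import Pool.Agent.Lib.H31W.Defs

/-!
# Chunk S1 (M): a bad near pair makes short averages large
-/

open Finset

namespace Pool.Agent.Lib.H31W

open ArithmeticFunction (vonMangoldt moebius)

private theorem s1_theta (a b : ℕ) (hab : a ≤ b) :
    Chebyshev.theta (b : ℝ) - Chebyshev.theta (a : ℝ) ≤ ∑ k ∈ Ioc a b, vonMangoldt k := by
  unfold Chebyshev.theta
  rw [Nat.floor_natCast, Nat.floor_natCast, Finset.sum_filter, Finset.sum_filter,
    ← Finset.sum_Ioc_consecutive _ (Nat.zero_le a) hab, add_sub_cancel_left]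
  refine Finset.sum_le_sum fun k _ => ?_
  split_ifs with hk
  · rw [ArithmeticFunction.vonMangoldt_apply_prime hk]
  · exact ArithmeticFunction.vonMangoldt_nonneg

private theorem s1_kappa (x : ℝ) (hx : 1 ≤ x) :
    320 * x * Real.exp (-(9 * x ^ (1 / 10 : ℝ))) ≤ 1 := by
  have hx0 : 0 ≤ x := by linarith
  set t : ℝ := x ^ (1 / 10 : ℝ) with ht
  have ht1 : 1 ≤ t := Real.one_le_rpow hx (by norm_num)
  have hx10 : t ^ 10 = x := by
    rw [ht, ← Real.rpow_natCast, ← Real.rpow_mul hx0]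
    norm_num
  have h1 := Real.pow_div_factorial_le_exp (9 * t) (by linarith) 11
  have h2 : ((Nat.factorial 11 : ℕ) : ℝ) = 39916800 := by norm_num [Nat.factorial]
  rw [h2] at h1
  have h3 : 320 * x ≤ Real.exp (9 * t) := by
    refine le_trans ?_ h1
    rw [← hx10, mul_pow, le_div_iff₀ (by norm_num)]
    have h4 : 0 ≤ t ^ 10 := by positivity
    have h5 : t ^ 11 = t ^ 10 * t := by ring
    rw [h5]
    nlinarith
  rw [Real.exp_neg]
  rw [← div_eq_mul_inv, div_le_one (Real.exp_pos _)]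
  exact h3

/-- **Bad near pairs.** `ε = 1/(20 log N)`, `L = 2 log n - 2 log m`.

Proof. `x = m²`, `y = n²`, `L = log (y/x)`. With `κ = exp (-9 (log n)^(1/10)) ≤ 1/2`: `m > n (1 - κ)`, so
`0 < L ≤ -2 log (1 - κ) ≤ 4κ`. `¬ Cr m n` gives
`∑_{x < k ≤ y} Λ(k)/k ≥ ∑_{x < p ≤ y} (log p)/p ≥ (θ(y) - θ(x))/y > (1 - x/y)(1 + 1/(8 log m))`
and `1 - x/y = 1 - e^(-L) ≥ L - L²/2`. Since `L ≤ 4κ ≤ 1/(40 log m)` (`N` large; `m ≥ N/2`, `m ≤ 4N`):
`(1 - L/2)(1 + 1/(8 log m)) ≥ 1 + 1/(8 log m) - L ≥ 1 + 1/(10 log m) ≥ 1 + ε` (`10 log m ≤ 20 log N`). So the sum is at least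
`L (1 + ε)`. For `u` as stated `e^u ≤ x` and `u + η ≥ 2 log m + L = log y`, so
`av Λ η u ≥ L (1 + ε)/η ≥ (1 + ε)/(1 + ε/2) ≥ 1 + ε/3` (`ε ≤ 1`). (`x = m²` and `y = n²` are natural numbers, the sum over
`Ioc (m^2) (n^2)` is part of the sum over `Ioc ⌊e^u⌋₊ ⌊e^(u+η)⌋₊`.) -/
theorem near_bad : ∃ N₀ : ℕ, ∀ N : ℕ, N₀ ≤ N → ∀ m n : ℕ, m < n → (N : ℝ) / 2 ≤ m → (n : ℝ) ≤ 4 * N →
    (n : ℝ) - m < n * Real.exp (-(9 * (Real.log n) ^ (1 / 10 : ℝ))) → ¬ Cr m n → ∀ η : ℝ,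
    (2 * Real.log n - 2 * Real.log m) * (1 + eps N / 4) ≤ η →
    η ≤ (2 * Real.log n - 2 * Real.log m) * (1 + eps N / 2) → ∀ u : ℝ,
    2 * Real.log m - (2 * Real.log n - 2 * Real.log m) * (eps N / 4) ≤ u → u ≤ 2 * Real.log m →
    1 + eps N / 3 ≤ av (fun n => vonMangoldt n) η u := by
  refine ⟨8, fun N hN m n hmn hNm hnN hκ hCr η hη1 hη2 u hu1 hu2 => ?_⟩
  have hN' : (8 : ℝ) ≤ N := by exact_mod_cast hN
  have hm : (4 : ℝ) ≤ m := by linarith
  have hm0 : (0 : ℝ) < m := by linarith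
  have hmn' : (m : ℝ) + 1 ≤ n := by exact_mod_cast hmn
  have hn0 : (0 : ℝ) < n := by linarith
  have hlogN : 1 ≤ Real.log N := by
    rw [Real.le_log_iff_exp_le (by linarith)]
    have := Real.exp_one_lt_d9
    linarith
  have hlogm : 1 ≤ Real.log m := by
    rw [Real.le_log_iff_exp_le hm0]
    have := Real.exp_one_lt_d9
    linarith
  have hlogmn : Real.log m ≤ Real.log n := Real.log_le_log hm0 (by linarith)
  have hlogn : 1 ≤ Real.log n := le_trans hlogm hlogmn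
  -- the size of L
  set L : ℝ := 2 * Real.log n - 2 * Real.log m with hL
  have hL0 : 0 < L := by
    have : Real.log m < Real.log n := Real.log_lt_log hm0 (by linarith)
    rw [hL]; linarith
  have hk1 := s1_kappa (Real.log n) hlogn
  set κ : ℝ := Real.exp (-(9 * (Real.log n) ^ (1 / 10 : ℝ))) with hκd
  have hκ0 : 0 < κ := Real.exp_pos _
  have hκ1 : 320 * κ ≤ 1 := by nlinarith
  have hLκ : L ≤ 4 * κ := by
    have h1 : Real.log ((n : ℝ) / m) ≤ (n : ℝ) / m - 1 := Real.log_le_sub_one_of_pos (by positivity)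
    rw [Real.log_div hn0.ne' hm0.ne'] at h1
    have h2 : (n : ℝ) / m - 1 ≤ 2 * κ := by
      rw [div_sub_one hm0.ne', div_le_iff₀ hm0]
      nlinarith
    rw [hL]; linarith
  have hLlog : 80 * Real.log m * L ≤ 1 := by
    have h1 : Real.log m * L ≤ Real.log n * (4 * κ) :=
      mul_le_mul hlogmn hLκ hL0.le (by linarith)
    nlinarith
  -- the ratio
  have hexpL : Real.exp L = (n : ℝ) ^ 2 / (m : ℝ) ^ 2 := by
    rw [hL, Real.exp_sub, mul_comm 2 (Real.log n), mul_comm 2 (Real.log m), Real.exp_mul, Real.exp_mul,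
      Real.exp_log hn0, Real.exp_log hm0]
    norm_num
  have hm2 : (0 : ℝ) < (m : ℝ) ^ 2 := by positivity
  have hn2 : (0 : ℝ) < (n : ℝ) ^ 2 := by positivity
  have hratio : L * (1 - L) ≤ ((n : ℝ) ^ 2 - (m : ℝ) ^ 2) / (n : ℝ) ^ 2 := by
    have h1 : L + 1 ≤ (n : ℝ) ^ 2 / (m : ℝ) ^ 2 := by rw [← hexpL]; exact Real.add_one_le_exp L
    rw [le_div_iff₀ hm2] at h1
    rw [le_div_iff₀ hn2]
    have h2 : 0 ≤ (n : ℝ) ^ 2 * L ^ 3 := by positivity
    have h3 : (1 - L + L ^ 2) * ((L + 1) * (m : ℝ) ^ 2) ≤ (1 - L + L ^ 2) * (n : ℝ) ^ 2 :=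
      mul_le_mul_of_nonneg_left h1 (by nlinarith)
    have h4 : (1 - L + L ^ 2) * ((L + 1) * (m : ℝ) ^ 2) = (m : ℝ) ^ 2 + L ^ 3 * (m : ℝ) ^ 2 := by ring
    have h5 : 0 ≤ L ^ 3 * (m : ℝ) ^ 2 := by positivity
    nlinarith
  -- the sum over the primes
  set S : ℝ := ∑ k ∈ Ioc (m ^ 2) (n ^ 2), vonMangoldt k / (k : ℝ) with hS
  have hmn2 : m ^ 2 ≤ n ^ 2 := Nat.pow_le_pow_left hmn.le 2
  have hth : Chebyshev.theta ((n : ℝ) ^ 2) - Chebyshev.theta ((m : ℝ) ^ 2) ≤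
      ∑ k ∈ Ioc (m ^ 2) (n ^ 2), vonMangoldt k := by
    have := s1_theta (m ^ 2) (n ^ 2) hmn2
    push_cast at this
    exact this
  have hSn : (∑ k ∈ Ioc (m ^ 2) (n ^ 2), vonMangoldt k) / (n : ℝ) ^ 2 ≤ S := by
    rw [hS, Finset.sum_div]
    refine Finset.sum_le_sum fun k hk => ?_
    rw [Finset.mem_Ioc] at hk
    have hk0 : (0 : ℝ) < k := by
      have : 0 < k := lt_of_le_of_lt (Nat.zero_le _) hk.1
      exact_mod_cast this
    have hk2 : (k : ℝ) ≤ (n : ℝ) ^ 2 := by exact_mod_cast hk.2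
    exact div_le_div_of_nonneg_left ArithmeticFunction.vonMangoldt_nonneg hk0 hk2
  have hCr' : ((n : ℝ) ^ 2 - (m : ℝ) ^ 2) * (1 + 1 / (8 * Real.log m)) <
      Chebyshev.theta ((n : ℝ) ^ 2) - Chebyshev.theta ((m : ℝ) ^ 2) := by
    unfold Cr at hCr
    rw [not_le, Real.log_pow] at hCr
    have h1 : (4 : ℝ) * (((2 : ℕ) : ℝ) * Real.log m) = 8 * Real.log m := by push_cast; ring
    rw [h1] at hCr
    exact hCr
  have hS1 : L * (1 + eps N) ≤ S := by
    refine le_trans ?_ hSn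
    have h1 : ((n : ℝ) ^ 2 - (m : ℝ) ^ 2) / (n : ℝ) ^ 2 * (1 + 1 / (8 * Real.log m)) ≤
        (∑ k ∈ Ioc (m ^ 2) (n ^ 2), vonMangoldt k) / (n : ℝ) ^ 2 := by
      rw [div_mul_eq_mul_div]
      exact div_le_div_of_nonneg_right (le_trans hCr'.le hth) hn2.le
    refine le_trans ?_ h1
    have hq0 : 0 ≤ 1 / (8 * Real.log m) := by positivity
    refine le_trans ?_ (mul_le_mul_of_nonneg_right hratio (by linarith))
    have hLm : Real.log m ≤ 2 * Real.log N := by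
      have h2 : (m : ℝ) ≤ (N : ℝ) ^ 2 := by nlinarith
      have h3 := Real.log_le_log hm0 h2
      rw [Real.log_pow] at h3
      push_cast at h3
      exact h3
    have he : eps N ≤ 1 / (10 * Real.log m) := by
      unfold eps
      exact one_div_le_one_div_of_le (by positivity) (by linarith)
    have hLle : L ≤ 1 / (80 * Real.log m) := by
      rw [le_div_iff₀ (by positivity)]
      linarith
    set q : ℝ := 1 / (80 * Real.log m) with hq
    have hq8 : 1 / (8 * Real.log m) = 10 * q := by rw [hq]; field_simp; norm_num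
    have hq10 : 1 / (10 * Real.log m) = 8 * q := by rw [hq]; field_simp; norm_num
    have hq1 : q ≤ 1 / 80 := by
      rw [hq]
      exact one_div_le_one_div_of_le (by norm_num) (by linarith)
    rw [hq8]
    rw [hq10] at he
    have h3 : 1 + eps N ≤ (1 - L) * (1 + 10 * q) := by
      have hq0' : 0 ≤ q := by rw [hq]; positivity
      have h4 : L * (1 + 10 * q) ≤ q * 2 := mul_le_mul hLle (by linarith) (by linarith) hq0'
      have h5 : (1 - L) * (1 + 10 * q) = (1 + 10 * q) - L * (1 + 10 * q) := by ring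
      rw [h5]
      linarith
    calc L * (1 + eps N) ≤ L * ((1 - L) * (1 + 10 * q)) := mul_le_mul_of_nonneg_left h3 hL0.le
      _ = L * (1 - L) * (1 + 10 * q) := by ring
  -- the average
  have heps0 : 0 < eps N := by unfold eps; positivity
  have heps1 : eps N ≤ 1 := by
    unfold eps
    rw [div_le_one (by positivity)]
    linarith
  have hη0 : 0 < η := lt_of_lt_of_le (by positivity) hη1
  have hfl : ⌊Real.exp u⌋₊ ≤ m ^ 2 := by
    have h1 : Real.exp u ≤ ((m ^ 2 : ℕ) : ℝ) := by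
      have h2 : Real.exp u ≤ Real.exp (2 * Real.log m) := Real.exp_le_exp.mpr hu2
      rw [mul_comm, Real.exp_mul, Real.exp_log hm0] at h2
      push_cast
      calc Real.exp u ≤ (m : ℝ) ^ (2 : ℝ) := h2
        _ = (m : ℝ) ^ 2 := by norm_num
    calc ⌊Real.exp u⌋₊ ≤ ⌊((m ^ 2 : ℕ) : ℝ)⌋₊ := Nat.floor_le_floor h1
      _ = m ^ 2 := Nat.floor_natCast _
  have hfl2 : n ^ 2 ≤ ⌊Real.exp (u + η)⌋₊ := by
    refine Nat.le_floor ?_
    have h1 : 2 * Real.log n ≤ u + η := by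
      have : L * (1 + eps N / 4) = L + L * (eps N / 4) := by ring
      rw [this] at hη1
      have h3 : 2 * Real.log n = 2 * Real.log m + L := by rw [hL]; ring
      linarith
    have h2 := Real.exp_le_exp.mpr h1
    rw [mul_comm, Real.exp_mul, Real.exp_log hn0] at h2
    push_cast
    calc (n : ℝ) ^ 2 = (n : ℝ) ^ (2 : ℝ) := by norm_num
      _ ≤ _ := h2
  have hSle : S ≤ ∑ k ∈ Ioc ⌊Real.exp u⌋₊ ⌊Real.exp (u + η)⌋₊, vonMangoldt k / (k : ℝ) := by
    refine Finset.sum_le_sum_of_subset_of_nonneg (Finset.Ioc_subset_Ioc hfl hfl2) fun k _ _ => ?_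
    exact div_nonneg ArithmeticFunction.vonMangoldt_nonneg (Nat.cast_nonneg _)
  unfold av
  have hfin : (1 + eps N / 3) * η ≤
      ∑ k ∈ Ioc ⌊Real.exp u⌋₊ ⌊Real.exp (u + η)⌋₊, vonMangoldt k / (k : ℝ) := by
    refine le_trans ?_ (le_trans hS1 hSle)
    have h1 : (1 + eps N / 3) * η ≤ (1 + eps N / 3) * (L * (1 + eps N / 2)) :=
      mul_le_mul_of_nonneg_left hη2 (by linarith)
    refine le_trans h1 ?_
    have h2 : (1 + eps N / 3) * (1 + eps N / 2) ≤ 1 + eps N := by nlinarith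
    nlinarith
  rw [one_div, inv_mul_eq_div, le_div_iff₀ hη0]
  exact hfin

end Pool.Agent.Lib.H31W
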