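import Pool.Agent.Lib.H31W.S4
import Pool.Agent.Lib.H31W.S5

/-!
# Chunk S6 (M): the final theorem
-/

open Finset

namespace Pool.Agent.Lib.H31W

/-- The asymptotic inequalities. -/
theorem S6_asym : ∀ᶠ L : ℝ in Filter.atTop, 1 ≤ L ∧
    Real.log 6 + Real.log L + L ^ (1 / 11 : ℝ) ≤ 1 / 12 * L ^ (1 / 10 : ℝ) ∧
    Real.log 2 + L ^ (1 / 11 : ℝ) ≤ 1 / 2 * L := by
  have h0 : ∀ c : ℝ, 0 < c → ∀ a : ℝ, 0 < a → ∀ b : ℝ, a < b →
      ∀ᶠ L : ℝ in Filter.atTop, L ^ a ≤ c * L ^ b := by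
    intro c hc a _ b hab
    have h1 := (tendsto_rpow_atTop (sub_pos.2 hab)).eventually_ge_atTop (1 / c)
    filter_upwards [h1, Filter.eventually_ge_atTop 1] with L hL hL1
    have hL0 : 0 < L := by linarith
    have h2 : L ^ b = L ^ a * L ^ (b - a) := by
      rw [← Real.rpow_add hL0]
      ring_nf
    rw [h2]
    have h3 : 1 ≤ c * L ^ (b - a) := by
      rw [div_le_iff₀ hc] at hL
      linarith
    have h4 : L ^ a * 1 ≤ L ^ a * (c * L ^ (b - a)) :=
      mul_le_mul_of_nonneg_left h3 (Real.rpow_nonneg hL0.le _)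
    linarith
  have h1 := (isLittleO_log_rpow_atTop (r := (1 / 10 : ℝ)) (by norm_num)).def
    (show (0 : ℝ) < 1 / 36 by norm_num)
  have h2 : ∀ᶠ L : ℝ in Filter.atTop, Real.log 6 ≤ 1 / 36 * L ^ (1 / 10 : ℝ) := by
    have h3 := (tendsto_rpow_atTop (show (0 : ℝ) < 1 / 10 by norm_num)).eventually_ge_atTop
      (36 * Real.log 6)
    filter_upwards [h3] with L hL
    linarith
  filter_upwards [h1, h2, h0 (1 / 36) (by norm_num) (1 / 11) (by norm_num) (1 / 10) (by norm_num),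
    h0 (1 / 4) (by norm_num) (1 / 11) (by norm_num) 1 (by norm_num),
    Filter.eventually_ge_atTop (4 * Real.log 2), Filter.eventually_ge_atTop 1]
    with L a1 a2 a3 a4 a5 a6
  have hL0 : 0 ≤ L := by linarith
  rw [Real.norm_of_nonneg (Real.log_nonneg a6),
    Real.norm_of_nonneg (Real.rpow_nonneg hL0 _)] at a1
  rw [Real.rpow_one] at a4
  exact ⟨a6, by linarith, by linarith⟩

/-- **Final theorem** (from the two inputs).

Proof. `N` large, `M₀ = ⌊√N⌋₊` (`Nat.sqrt N`), `M_i = 2^i M₀`. Every `n ≤ N` that is not good is `≤ M₀` or lies in some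
`(M_i, 2 M_i]` with `M_i < N` and is then `NearBad M_i n` (`good_of`). The number is at most
`M₀ + ∑_{i : M_i < N} M_i exp (-(1/4)(log M_i)^(1/10)) ≤ √N + 2N exp (-(1/4)((1/3) log N)^(1/10))`
(`near_count`; `log M_i ≥ log M₀ ≥ (1/3) log N`; the `M_i < N` are powers of two times `M₀`, their sum is less than `2N`)
`≤ N exp (-(log N)^(1/11))` for large `N`. -/
theorem final (hS : SupProp) (hP : PntProp) : Final := by
  classical
  obtain ⟨N₁, hN₁⟩ := near_count hS hP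
  obtain ⟨N₂, hN₂⟩ := good_of hP
  obtain ⟨L₀, hL₀⟩ := Filter.eventually_atTop.1 S6_asym
  have hlog : Filter.Tendsto (fun N : ℕ => Real.log (N : ℝ)) Filter.atTop Filter.atTop :=
    Real.tendsto_log_atTop.comp tendsto_natCast_atTop_atTop
  obtain ⟨N₃, hN₃⟩ := Filter.eventually_atTop.1 (hlog.eventually_ge_atTop (max L₀ 1))
  refine ⟨max (max ((N₁ + N₂ + 2) ^ 2) 64) N₃, fun N hN => ?_⟩
  have hNa : (N₁ + N₂ + 2) ^ 2 ≤ N := (le_max_left _ _).trans ((le_max_left _ _).trans hN)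
  have hNb : 64 ≤ N := (le_max_right _ _).trans ((le_max_left _ _).trans hN)
  have hNc := hN₃ N ((le_max_right _ _).trans hN)
  obtain ⟨hL1, hLa, hLb⟩ := hL₀ (Real.log N) ((le_max_left _ _).trans hNc)
  set L : ℝ := Real.log N with hL
  have hN0 : (0 : ℝ) < N := by
    have : 0 < N := by omega
    exact_mod_cast this
  have hexp : Real.exp L = N := by
    rw [hL]
    exact Real.exp_log hN0
  set M₀ : ℕ := Nat.sqrt N with hM₀
  have hM₀ge : N₁ + N₂ + 2 ≤ M₀ := Nat.le_sqrt'.2 hNa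
  have hM₀sq : M₀ ^ 2 ≤ N := Nat.sqrt_le' N
  have hM₀lt : N < (M₀ + 1) ^ 2 := Nat.lt_succ_sqrt' N
  -- the logarithm of `M₀`
  have hM₀8 : 8 ≤ M₀ := Nat.le_sqrt'.2 (by omega)
  have hlogM₀ : 1 / 3 * L ≤ Real.log M₀ := by
    have h1 : (N : ℝ) ≤ (M₀ : ℝ) ^ 3 := by
      have h2 : N ≤ M₀ ^ 3 := by
        have h3 : (M₀ + 1) ^ 2 ≤ M₀ ^ 3 := by
          nlinarith [Nat.mul_le_mul hM₀8 (Nat.le_refl (M₀ ^ 2)), Nat.mul_le_mul hM₀8 (Nat.le_refl M₀)]
        omega
      exact_mod_cast h2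
    have h2 := Real.log_le_log hN0 h1
    rw [Real.log_pow] at h2
    push_cast at h2
    linarith
  -- the bound for one dyadic interval
  set E : ℝ := Real.exp (-(1 / 12 * L ^ (1 / 10 : ℝ))) with hE
  have hdy : ∀ i : ℕ, 2 ^ i * M₀ < N →
      (((Ioc (2 ^ i * M₀) (2 * (2 ^ i * M₀))).filter (fun n => NearBad (2 ^ i * M₀) n)).card : ℝ) ≤
        N * E := by
    intro i hi
    have h1 : M₀ ≤ 2 ^ i * M₀ := Nat.le_mul_of_pos_left _ (pow_pos (by norm_num) _)
    refine (hN₁ (2 ^ i * M₀) (by omega)).trans ?_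
    have h2 : ((2 ^ i * M₀ : ℕ) : ℝ) ≤ N := by exact_mod_cast hi.le
    refine mul_le_mul h2 ?_ (Real.exp_pos _).le hN0.le
    rw [hE, Real.exp_le_exp]
    have h3 : 1 / 3 * L ≤ Real.log ((2 ^ i * M₀ : ℕ) : ℝ) := by
      refine hlogM₀.trans (Real.log_le_log ?_ (by exact_mod_cast h1))
      exact_mod_cast (by omega : 0 < M₀)
    have hL0 : 0 ≤ L := by linarith
    have h4 : (1 / 3 * L) ^ (1 / 10 : ℝ) ≤
        (Real.log ((2 ^ i * M₀ : ℕ) : ℝ)) ^ (1 / 10 : ℝ) :=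
      Real.rpow_le_rpow (by positivity) h3 (by norm_num)
    rw [Real.mul_rpow (by norm_num) hL0] at h4
    have h5 : (1 / 3 : ℝ) ≤ (1 / 3 : ℝ) ^ (1 / 10 : ℝ) := by
      have h6 := Real.rpow_le_rpow_of_exponent_ge (show (0 : ℝ) < 1 / 3 by norm_num)
        (by norm_num) (show (1 / 10 : ℝ) ≤ 1 by norm_num)
      rwa [Real.rpow_one] at h6
    have h6 : 1 / 3 * L ^ (1 / 10 : ℝ) ≤ (1 / 3 : ℝ) ^ (1 / 10 : ℝ) * L ^ (1 / 10 : ℝ) :=
      mul_le_mul_of_nonneg_right h5 (Real.rpow_nonneg hL0 _)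
    linarith
  -- the covering
  have hsub : (Icc 1 N).filter (fun n => ¬ GoodN n) ⊆ Icc 1 M₀ ∪
      ((range (Nat.log 2 N + 1)).filter (fun i => 2 ^ i * M₀ < N)).biUnion (fun i =>
        (Ioc (2 ^ i * M₀) (2 * (2 ^ i * M₀))).filter (fun n => NearBad (2 ^ i * M₀) n)) := by
    intro n hn
    obtain ⟨hn1, hn2⟩ := Finset.mem_filter.1 hn
    obtain ⟨hn3, hn4⟩ := Finset.mem_Icc.1 hn1
    rw [Finset.mem_union]
    by_cases hnM : n ≤ M₀
    · exact Or.inl (Finset.mem_Icc.2 ⟨hn3, hnM⟩)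
    · right
      have hex : ∃ i : ℕ, n ≤ 2 * (2 ^ i * M₀) := by
        refine ⟨n, ?_⟩
        have h1 : n < 2 ^ n := Nat.lt_two_pow_self
        have h2 : 2 ^ n * 1 ≤ 2 ^ n * M₀ := Nat.mul_le_mul_left _ (by omega)
        omega
      set i := Nat.find hex with hi
      have hi1 : n ≤ 2 * (2 ^ i * M₀) := Nat.find_spec hex
      have hi2 : 2 ^ i * M₀ < n := by
        rcases Nat.eq_zero_or_pos i with h0 | h0
        · rw [h0]
          omega
        · have h1 := Nat.find_min hex (m := i - 1) (by omega)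
          have h2 : 2 ^ i * M₀ = 2 * (2 ^ (i - 1) * M₀) := by
            rw [← mul_assoc, ← pow_succ', Nat.sub_add_cancel h0]
          omega
      refine Finset.mem_biUnion.2 ⟨i, Finset.mem_filter.2 ⟨Finset.mem_range.2 ?_, by omega⟩, ?_⟩
      · have h1 : 2 ^ i ≤ N := by
          have h2 : 2 ^ i * 1 ≤ 2 ^ i * M₀ := Nat.mul_le_mul_left _ (by omega)
          omega
        have h2 := Nat.le_log_of_pow_le (by norm_num) h1
        omega
      · refine Finset.mem_filter.2 ⟨Finset.mem_Ioc.2 ⟨hi2, hi1⟩, ?_⟩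
        by_contra hnb
        refine hn2 (hN₂ (2 ^ i * M₀) ?_ n (Finset.mem_Ioc.2 ⟨hi2, hi1⟩) hnb)
        have h1 : M₀ ≤ 2 ^ i * M₀ := Nat.le_mul_of_pos_left _ (pow_pos (by norm_num) _)
        omega
  have hcard : (((Icc 1 N).filter (fun n => ¬ GoodN n)).card : ℝ) ≤
      M₀ + (Nat.log 2 N + 1) * (N * E) := by
    have h1 := Finset.card_le_card hsub
    have h2 := h1.trans (Finset.card_union_le _ _)
    have h3 : ((((range (Nat.log 2 N + 1)).filter (fun i => 2 ^ i * M₀ < N)).biUnion (fun i =>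
        (Ioc (2 ^ i * M₀) (2 * (2 ^ i * M₀))).filter
          (fun n => NearBad (2 ^ i * M₀) n))).card : ℝ) ≤ (Nat.log 2 N + 1) * (N * E) := by
      refine (Nat.cast_le.2 Finset.card_biUnion_le).trans ?_
      rw [Nat.cast_sum]
      refine (Finset.sum_le_card_nsmul _ _ (N * E) fun i hi => hdy i (Finset.mem_filter.1 hi).2).trans
        ?_
      rw [nsmul_eq_mul]
      refine mul_le_mul_of_nonneg_right ?_ (mul_nonneg hN0.le (Real.exp_pos _).le)
      have h4 := Finset.card_filter_le (range (Nat.log 2 N + 1)) (fun i => 2 ^ i * M₀ < N)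
      rw [Finset.card_range] at h4
      exact_mod_cast h4
    have h4 : ((Icc 1 M₀).card : ℝ) = M₀ := by
      rw [Nat.card_Icc]
      simp
    calc (((Icc 1 N).filter (fun n => ¬ GoodN n)).card : ℝ)
        ≤ ((Icc 1 M₀).card : ℝ) + ((((range (Nat.log 2 N + 1)).filter
          (fun i => 2 ^ i * M₀ < N)).biUnion (fun i =>
          (Ioc (2 ^ i * M₀) (2 * (2 ^ i * M₀))).filter
            (fun n => NearBad (2 ^ i * M₀) n))).card : ℝ) := by exact_mod_cast h2
      _ ≤ M₀ + (Nat.log 2 N + 1) * (N * E) := by linarith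
  refine hcard.trans ?_
  -- the two summands
  have hlog2 : (Nat.log 2 N + 1 : ℝ) ≤ 3 * L := by
    have h1 : (2 : ℝ) ^ (Nat.log 2 N) ≤ N := by
      have := Nat.pow_log_le_self 2 (show N ≠ 0 by omega)
      exact_mod_cast this
    have h2 := Real.log_le_log (by positivity) h1
    rw [Real.log_pow] at h2
    have h3 : (1 / 2 : ℝ) ≤ Real.log 2 := by
      have := Real.log_two_gt_d9
      linarith
    have h4 : (Nat.log 2 N : ℝ) * (1 / 2) ≤ (Nat.log 2 N : ℝ) * Real.log 2 :=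
      mul_le_mul_of_nonneg_left h3 (Nat.cast_nonneg _)
    linarith
  have hA : (M₀ : ℝ) ≤ 1 / 2 * (N * Real.exp (-L ^ (1 / 11 : ℝ))) := by
    have h1 : (M₀ : ℝ) ≤ Real.exp (1 / 2 * L) := by
      have h2 : (M₀ : ℝ) ^ 2 ≤ N := by exact_mod_cast hM₀sq
      have h3 : (Real.exp (1 / 2 * L)) ^ 2 = N := by
        rw [← Real.exp_nat_mul]
        push_cast
        rw [show (2 : ℝ) * (1 / 2 * L) = L by ring, hexp]
      rw [← h3] at h2
      exact (pow_le_pow_iff_left₀ (Nat.cast_nonneg _) (Real.exp_pos _).le (by norm_num)).1 h2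
    refine h1.trans ?_
    have h2 : 1 / 2 * (N * Real.exp (-L ^ (1 / 11 : ℝ))) =
        Real.exp (L - Real.log 2 - L ^ (1 / 11 : ℝ)) := by
      rw [show L - Real.log 2 - L ^ (1 / 11 : ℝ) = -Real.log 2 + (L + -L ^ (1 / 11 : ℝ)) by ring,
        Real.exp_add, Real.exp_add, Real.exp_neg (Real.log 2), Real.exp_log (by norm_num), hexp]
      ring
    rw [h2, Real.exp_le_exp]
    linarith
  have hB : (Nat.log 2 N + 1 : ℝ) * (N * E) ≤ 1 / 2 * (N * Real.exp (-L ^ (1 / 11 : ℝ))) := by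
    have hL0 : 0 < L := by linarith
    have h1 : 3 * L * E ≤ 1 / 2 * Real.exp (-L ^ (1 / 11 : ℝ)) := by
      have h2 : 6 * L * E = Real.exp (Real.log 6 + Real.log L - 1 / 12 * L ^ (1 / 10 : ℝ)) := by
        rw [show Real.log 6 + Real.log L - 1 / 12 * L ^ (1 / 10 : ℝ) =
          Real.log 6 + Real.log L + -(1 / 12 * L ^ (1 / 10 : ℝ)) by ring, Real.exp_add,
          Real.exp_add, Real.exp_log (by norm_num), Real.exp_log hL0]
      have h3 : Real.exp (Real.log 6 + Real.log L - 1 / 12 * L ^ (1 / 10 : ℝ)) ≤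
          Real.exp (-L ^ (1 / 11 : ℝ)) := by
        rw [Real.exp_le_exp]
        linarith
      linarith
    have h2 : (0 : ℝ) ≤ N * E := mul_nonneg hN0.le (Real.exp_pos _).le
    calc (Nat.log 2 N + 1 : ℝ) * (N * E) ≤ 3 * L * (N * E) := mul_le_mul_of_nonneg_right hlog2 h2
      _ = N * (3 * L * E) := by ring
      _ ≤ N * (1 / 2 * Real.exp (-L ^ (1 / 11 : ℝ))) := mul_le_mul_of_nonneg_left h1 hN0.le
      _ = 1 / 2 * (N * Real.exp (-L ^ (1 / 11 : ℝ))) := by ring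
  linarith

end Pool.Agent.Lib.H31W
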