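import Pool.Agent.Lib.H31W.Defs

/-!
# Chunk V1 (M): Vaughan's identity
-/

open Finset

namespace Pool.Agent.Lib.H31W

open ArithmeticFunction (vonMangoldt moebius)

/-- `Λ` beyond `U`. -/
noncomputable def lamHi (U : ℝ) (n : ℕ) : ℝ := if U < n then vonMangoldt n else 0

/-- **Vaughan's identity.** For `n > U`:
`Λ(n) = ∑_{d ∣ n, d ≤ V} μ(d) log (n/d) - ∑_{c ∣ n} gam(c) + ∑_{m k = n, m > U} Λ(m) bet V k`.

Proof, with real-valued arithmetic functions and Dirichlet convolution (`ArithmeticFunction`): `Λ = Λ_{≤U} + Λ_{>U}`,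
`1 * μ = δ`, `μ = μ_{≤V} + μ_{>V}`:
`Λ_{>U} = Λ_{>U} * 1 * μ_{≤V} + Λ_{>U} * 1 * μ_{>V} = (Λ - Λ_{≤U}) * 1 * μ_{≤V} + Λ_{>U} * (1 * μ_{>V})
= log * μ_{≤V} - (Λ_{≤U} * μ_{≤V}) * 1 + Λ_{>U} * bet V`
(`ArithmeticFunction.vonMangoldt_mul_zeta : Λ * ζ = log`, `coe_moebius_mul_coe_zeta`), and for `n > U` the left side at
`n` is `Λ(n)`. Here `μ_{≤V}` is `cut μ 0 V` (`0 < n ∧ n ≤ V`; `n = 0` never matters), `Λ_{≤U}` is `cut Λ 0 U`. -/
theorem vaughan (U V : ℝ) (hU : 1 ≤ U) (hV : 1 ≤ V) (n : ℕ) (hn : U < n) :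
    vonMangoldt n = conv (cut (fun n => (moebius n : ℝ)) 0 V) (fun n => Real.log n) n -
      conv (gam U V) (fun _ => 1) n + conv (lamHi U) (bet V) n := by
  classical
  let Llo : ArithmeticFunction ℝ := ⟨cut (fun n => vonMangoldt n) 0 U, by simp [cut]⟩
  let Lhi : ArithmeticFunction ℝ := ⟨lamHi U, by
    unfold lamHi
    split_ifs with h
    · simp
    · rfl⟩
  let M : ArithmeticFunction ℝ := ((moebius : ArithmeticFunction ℤ) : ArithmeticFunction ℝ)
  let Mlo : ArithmeticFunction ℝ := ⟨cut (fun n => (moebius n : ℝ)) 0 V, by simp [cut]⟩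
  let Z : ArithmeticFunction ℝ := ((ArithmeticFunction.zeta : ArithmeticFunction ℕ) : ArithmeticFunction ℝ)
  let Mhi : ArithmeticFunction ℝ := M - Mlo
  have hL : (vonMangoldt : ArithmeticFunction ℝ) = Llo + Lhi := by
    ext k
    show vonMangoldt k = cut (fun n => vonMangoldt n) 0 U k + lamHi U k
    unfold cut lamHi
    rcases Nat.eq_zero_or_pos k with hk | hk
    · subst hk
      simp
    · have hk' : (0 : ℝ) < k := by exact_mod_cast hk
      by_cases h : (k : ℝ) ≤ U
      · rw [if_pos ⟨hk', h⟩, if_neg (not_lt.mpr h), add_zero]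
      · rw [if_neg (fun h1 => h h1.2), if_pos (not_le.mp h), zero_add]
  have hM : M * Z = 1 := ArithmeticFunction.coe_moebius_mul_coe_zeta
  have hLZ : (vonMangoldt : ArithmeticFunction ℝ) * Z = ArithmeticFunction.log :=
    ArithmeticFunction.vonMangoldt_mul_zeta
  have hid : Lhi = Mlo * ArithmeticFunction.log - (Llo * Mlo) * Z + Lhi * (Z * Mhi) := by
    rw [← hLZ, hL]
    have h1 : Lhi * (M * Z) = Lhi := by rw [hM, mul_one]
    calc Lhi = Lhi * (M * Z) := h1.symm
      _ = Mlo * ((Llo + Lhi) * Z) - Llo * Mlo * Z + Lhi * (Z * (M - Mlo)) := by ring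
  have hbet : ∀ k, (Z * Mhi) k = bet V k := by
    intro k
    rw [ArithmeticFunction.coe_zeta_mul_apply]
    unfold bet
    rw [Finset.sum_filter]
    refine Finset.sum_congr rfl fun d hd => ?_
    have hd0 : (0 : ℝ) < d := by
      have := Nat.pos_of_mem_divisors hd
      exact_mod_cast this
    show M d - cut (fun n => (moebius n : ℝ)) 0 V d = _
    have hMd : M d = (moebius d : ℝ) := rfl
    rw [hMd]
    unfold cut
    by_cases h : (d : ℝ) ≤ V
    · rw [if_pos ⟨hd0, h⟩, if_neg (not_lt.mpr h), sub_self]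
    · rw [if_neg (fun h1 => h h1.2), if_pos (not_le.mp h), sub_zero]
  have h0 : Lhi n = vonMangoldt n := by
    show lamHi U n = vonMangoldt n
    unfold lamHi
    rw [if_pos hn]
  have e1 : conv (cut (fun n => (moebius n : ℝ)) 0 V) (fun n => Real.log n) n =
      (Mlo * ArithmeticFunction.log) n := by
    rw [ArithmeticFunction.mul_apply]
    rfl
  have e2 : conv (gam U V) (fun _ => 1) n = ((Llo * Mlo) * Z) n := by
    rw [ArithmeticFunction.mul_apply]
    unfold conv
    refine Finset.sum_congr rfl fun d hd => ?_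
    have hd2 : d.2 ≠ 0 := by
      rw [Nat.mem_divisorsAntidiagonal] at hd
      intro h
      rw [h, mul_zero] at hd
      exact hd.2 hd.1.symm
    have hZ : Z d.2 = 1 := by
      show (((ArithmeticFunction.zeta d.2 : ℕ)) : ℝ) = 1
      rw [ArithmeticFunction.zeta_apply_ne hd2, Nat.cast_one]
    rw [hZ, ArithmeticFunction.mul_apply]
    rfl
  have e3 : conv (lamHi U) (bet V) n = (Lhi * (Z * Mhi)) n := by
    rw [ArithmeticFunction.mul_apply]
    unfold conv
    refine Finset.sum_congr rfl fun d _ => ?_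
    rw [hbet]
    rfl
  rw [e1, e2, e3, ← h0]
  exact congrArg (fun F : ArithmeticFunction ℝ => F n) hid

end Pool.Agent.Lib.H31W
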