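import Pool.Agent.Lib.H31W.V1
import Pool.Agent.Lib.H31W.Q1

/-!
# Chunk V2 (M): dyadic decomposition of the bilinear part
-/

open Finset

namespace Pool.Agent.Lib.H31W

open ArithmeticFunction (vonMangoldt moebius)

open Classical in
/-- The pairs `(i, j)` of the boxes, `M = V 2^i`, `K = V 2^j`, `V = X^(1/5)`. -/
noncomputable def PP (X : ℝ) : Finset (ℕ × ℕ) :=
  ((range ⌊4 * Real.log X⌋₊) ×ˢ (range ⌊4 * Real.log X⌋₊)).filter (fun p =>
    X / 4 ≤ (X ^ (1 / 5 : ℝ) * 2 ^ p.1) * (X ^ (1 / 5 : ℝ) * 2 ^ p.2) ∧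
      (X ^ (1 / 5 : ℝ) * 2 ^ p.1) * (X ^ (1 / 5 : ℝ) * 2 ^ p.2) ≤ 8 * X)

/-- `|PP X| ≤ (4 log X)²`. -/
theorem PP_card (X : ℝ) (hX : 1 ≤ X) : ((PP X).card : ℝ) ≤ 16 * Real.log X ^ 2 := by
  have hl : 0 ≤ Real.log X := Real.log_nonneg hX
  have h1 : (PP X).card ≤ ⌊4 * Real.log X⌋₊ * ⌊4 * Real.log X⌋₊ := by
    refine (card_filter_le _ _).trans ?_
    rw [card_product, card_range]
  have h2 : (⌊4 * Real.log X⌋₊ : ℝ) ≤ 4 * Real.log X := Nat.floor_le (by positivity)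
  calc ((PP X).card : ℝ) ≤ (⌊4 * Real.log X⌋₊ : ℝ) * (⌊4 * Real.log X⌋₊ : ℝ) := by exact_mod_cast h1
    _ ≤ (4 * Real.log X) * (4 * Real.log X) := mul_le_mul h2 h2 (Nat.cast_nonneg _) (by positivity)
    _ = 16 * Real.log X ^ 2 := by ring

private theorem v2_idx (V m : ℝ) (hV : 0 < V) (hm : V < m) :
    ∃ i : ℕ, V * 2 ^ i < m ∧ m ≤ 2 * (V * 2 ^ i) := by
  classical
  have hex : ∃ i : ℕ, m ≤ 2 * (V * 2 ^ i) := by
    obtain ⟨n, hn⟩ := pow_unbounded_of_one_lt (m / V) (one_lt_two (α := ℝ))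
    refine ⟨n, ?_⟩
    rw [div_lt_iff₀ hV] at hn
    have : 0 < V * 2 ^ n := by positivity
    nlinarith
  refine ⟨Nat.find hex, ?_, Nat.find_spec hex⟩
  rcases Nat.eq_zero_or_pos (Nat.find hex) with h0 | h0
  · rw [h0, pow_zero, mul_one]
    exact hm
  · obtain ⟨k, hk⟩ := Nat.exists_eq_succ_of_ne_zero h0.ne'
    have h1 : ¬ m ≤ 2 * (V * 2 ^ k) := Nat.find_min hex (by omega)
    rw [hk, Nat.succ_eq_add_one, pow_succ]
    push Not at h1
    linarith

private theorem v2_le (V m : ℝ) (hV : 0 < V) (i i' : ℕ) (h1 : V * 2 ^ i < m)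
    (h2 : m ≤ 2 * (V * 2 ^ i')) : i ≤ i' := by
  have h3 : V * 2 ^ i < V * 2 ^ (i' + 1) := by
    rw [pow_succ]
    linarith
  have h4 : (2 : ℝ) ^ i < 2 ^ (i' + 1) := lt_of_mul_lt_mul_left h3 hV.le
  have h5 := (pow_lt_pow_iff_right₀ (one_lt_two (α := ℝ))).1 h4
  omega

private theorem v2_small (X V : ℝ) (hX : Real.exp 2 ≤ X) (hV : V = X ^ (1 / 5 : ℝ)) (i : ℕ)
    (h : V * 2 ^ i * V ≤ 8 * X) : i < ⌊4 * Real.log X⌋₊ := by
  have hX0 : 0 < X := lt_of_lt_of_le (Real.exp_pos _) hX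
  have hL : 2 ≤ Real.log X := by
    have := Real.log_le_log (Real.exp_pos 2) hX
    rwa [Real.log_exp] at this
  have hV0 : 0 < V := by rw [hV]; exact Real.rpow_pos_of_pos hX0 _
  have hVl : Real.log V = 1 / 5 * Real.log X := by rw [hV, Real.log_rpow hX0]
  have h2 : (0 : ℝ) < 2 ^ i := by positivity
  have h1 := Real.log_le_log (by positivity) h
  rw [Real.log_mul (by positivity) hV0.ne', Real.log_mul hV0.ne' h2.ne', Real.log_pow, hVl,
    Real.log_mul (by norm_num) hX0.ne'] at h1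
  have h8 : Real.log 8 = 3 * Real.log 2 := by
    have : (8 : ℝ) = 2 ^ 3 := by norm_num
    rw [this, Real.log_pow]
    norm_num
  rw [h8] at h1
  have hl2 := Real.log_two_gt_d9
  have h9 : (i : ℝ) + 1 ≤ 4 * Real.log X := by
    by_contra hcon
    push Not at hcon
    nlinarith
  have h10 : i + 1 ≤ ⌊4 * Real.log X⌋₊ := Nat.le_floor (by push_cast; exact h9)
  omega

/-- **Dyadic decomposition.** `V = X^(1/5)`, `X < n ≤ 8X`.

Proof. `conv (lamHi V) (bet V) n = ∑_{mk = n, m > V, k > V} Λ(m) bet V k` (`bet_zero`). For each such pair there is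
exactly one `i` with `V 2^i < m ≤ V 2^(i+1)` and exactly one `j` with `V 2^j < k ≤ V 2^(j+1)`; they satisfy
`V² 2^(i+j) < n ≤ 8X` and `V² 2^(i+j+2) ≥ n > X`, so `V² 2^(i+j) ≥ X/4`; `V 2^i < n/V ≤ 8 X^(4/5)` gives
`2^i < 8 X^(3/5)`, `i < log (8 X^(3/5))/log 2 ≤ 4 log X - 1` for large `X`, so `i < ⌊4 log X⌋₊`; the same for `j`.
So the indicator of `(m, k)` is the sum over `PP X` of the indicators of the boxes; exchange the sums. -/
theorem dyad : ∃ X₀ : ℝ, 1 ≤ X₀ ∧ ∀ X : ℝ, X₀ ≤ X → ∀ n : ℕ, X < n → (n : ℝ) ≤ 8 * X →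
    conv (lamHi (X ^ (1 / 5 : ℝ))) (bet (X ^ (1 / 5 : ℝ))) n =
      ∑ p ∈ PP X, conv
        (cut (fun n => vonMangoldt n) (X ^ (1 / 5 : ℝ) * 2 ^ p.1) (2 * (X ^ (1 / 5 : ℝ) * 2 ^ p.1)))
        (cut (bet (X ^ (1 / 5 : ℝ))) (X ^ (1 / 5 : ℝ) * 2 ^ p.2) (2 * (X ^ (1 / 5 : ℝ) * 2 ^ p.2))) n := by
  refine ⟨Real.exp 2, Real.one_le_exp (by norm_num), ?_⟩
  intro X hX n hn1 hn2
  have hX0 : 0 < X := lt_of_lt_of_le (Real.exp_pos _) hX
  set V : ℝ := X ^ (1 / 5 : ℝ) with hVdef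
  have hV0 : 0 < V := Real.rpow_pos_of_pos hX0 _
  have hpow : ∀ i : ℕ, V ≤ V * 2 ^ i := by
    intro i
    have : (1 : ℝ) ≤ 2 ^ i := one_le_pow₀ (by norm_num)
    nlinarith
  have hterm : ∀ d ∈ n.divisorsAntidiagonal, lamHi V d.1 * bet V d.2 =
      ∑ p ∈ PP X, cut (fun n => vonMangoldt n) (V * 2 ^ p.1) (2 * (V * 2 ^ p.1)) d.1 *
        cut (bet V) (V * 2 ^ p.2) (2 * (V * 2 ^ p.2)) d.2 := by
    intro d hd
    have hdn : d.1 * d.2 = n := (Nat.mem_divisorsAntidiagonal.1 hd).1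
    have hdnR : (d.1 : ℝ) * d.2 = n := by exact_mod_cast hdn
    by_cases hm : V < d.1
    · by_cases hk : V < d.2
      · obtain ⟨i, hi1, hi2⟩ := v2_idx V d.1 hV0 hm
        obtain ⟨j, hj1, hj2⟩ := v2_idx V d.2 hV0 hk
        have hd10 : (0 : ℝ) < d.1 := hV0.trans hm
        have hd20 : (0 : ℝ) < d.2 := hV0.trans hk
        have hVi : 0 < V * 2 ^ i := by positivity
        have hVj : 0 < V * 2 ^ j := by positivity
        have hmem : (i, j) ∈ PP X := by
          unfold PP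
          rw [mem_filter, mem_product, mem_range, mem_range]
          refine ⟨⟨v2_small X V hX hVdef i ?_, v2_small X V hX hVdef j ?_⟩, ?_, ?_⟩
          · calc V * 2 ^ i * V ≤ (d.1 : ℝ) * d.2 := mul_le_mul hi1.le hk.le hV0.le hd10.le
              _ ≤ 8 * X := by rw [hdnR]; exact hn2
          · calc V * 2 ^ j * V ≤ (d.2 : ℝ) * d.1 := mul_le_mul hj1.le hm.le hV0.le hd20.le
              _ ≤ 8 * X := by rw [mul_comm, hdnR]; exact hn2
          · show X / 4 ≤ (V * 2 ^ i) * (V * 2 ^ j)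
            have h1 : (n : ℝ) ≤ (2 * (V * 2 ^ i)) * (2 * (V * 2 ^ j)) := by
              rw [← hdnR]
              exact mul_le_mul hi2 hj2 hd20.le (by positivity)
            nlinarith
          · show (V * 2 ^ i) * (V * 2 ^ j) ≤ 8 * X
            calc (V * 2 ^ i) * (V * 2 ^ j) ≤ (d.1 : ℝ) * d.2 := mul_le_mul hi1.le hj1.le hVj.le hd10.le
              _ ≤ 8 * X := by rw [hdnR]; exact hn2
        rw [sum_eq_single_of_mem (i, j) hmem]
        · show lamHi V d.1 * bet V d.2 = cut (fun n => vonMangoldt n) (V * 2 ^ i) (2 * (V * 2 ^ i)) d.1 *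
            cut (bet V) (V * 2 ^ j) (2 * (V * 2 ^ j)) d.2
          unfold lamHi cut
          rw [if_pos hm, if_pos ⟨hi1, hi2⟩, if_pos ⟨hj1, hj2⟩]
        · intro p _ hpne
          by_contra hne
          have hc := mul_ne_zero_iff.1 hne
          have hc1 : V * 2 ^ p.1 < d.1 ∧ (d.1 : ℝ) ≤ 2 * (V * 2 ^ p.1) := by
            by_contra h
            apply hc.1
            unfold cut
            rw [if_neg h]
          have hc2 : V * 2 ^ p.2 < d.2 ∧ (d.2 : ℝ) ≤ 2 * (V * 2 ^ p.2) := by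
            by_contra h
            apply hc.2
            unfold cut
            rw [if_neg h]
          apply hpne
          apply Prod.ext
          · exact le_antisymm (v2_le V d.1 hV0 _ _ hc1.1 hi2) (v2_le V d.1 hV0 _ _ hi1 hc1.2)
          · exact le_antisymm (v2_le V d.2 hV0 _ _ hc2.1 hj2) (v2_le V d.2 hV0 _ _ hj1 hc2.2)
      · have hb : bet V d.2 = 0 := by
          by_contra h
          exact hk (bet_zero V d.2 h)
        rw [hb, mul_zero]
        symm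
        apply sum_eq_zero
        intro p _
        have h3 : cut (bet V) (V * 2 ^ p.2) (2 * (V * 2 ^ p.2)) d.2 = 0 := by
          unfold cut
          rw [if_neg]
          rintro ⟨h, -⟩
          exact hk (lt_of_le_of_lt (hpow _) h)
        rw [h3, mul_zero]
    · have hb : lamHi V d.1 = 0 := by
        unfold lamHi
        rw [if_neg hm]
      rw [hb, zero_mul]
      symm
      apply sum_eq_zero
      intro p _
      have h3 : cut (fun n => vonMangoldt n) (V * 2 ^ p.1) (2 * (V * 2 ^ p.1)) d.1 = 0 := by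
        unfold cut
        rw [if_neg]
        rintro ⟨h, -⟩
        exact hm (lt_of_le_of_lt (hpow _) h)
      rw [h3, zero_mul]
  unfold conv
  rw [sum_comm]
  exact sum_congr rfl hterm

end Pool.Agent.Lib.H31W
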